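import Pool.Agent.K3h30.RS.Defs

/-!
# The rank one Stark conjecture: definitions

`H / K` is a finite abelian extension of number fields with Galois group `G`, unramified outside the
nonzero ideal `𝔣` of `𝓞 K` and infinity (for example the ray class field of `𝔣`).
-/

set_option autoImplicit false

open NumberField IsDedekindDomain Filter Topology

noncomputable section

namespace Pool.Agent.J6H32.SR

open Pool.Agent.K3h30.RS (IsFrob)

/-- `log |x|_w` for the normalised absolute value of the archimedean place `w`: `|x|_w = |x|` for a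
real place and `|x|_w = |x|²` for a complex one. -/
def logAbs {H : Type} [Field H] (w : InfinitePlace H) (x : H) : ℝ := w.mult * Real.log (w x)

/-- `|x|_w = 1` for all places `w` of `H` which do not lie over the place of `K` below `w₀`. -/
def UnitOff (K : Type) {H : Type} [Field K] [Field H] [NumberField H] [Algebra K H]
    (w₀ : InfinitePlace H) (x : H) : Prop :=
  (∀ w : InfinitePlace H, w.comap (algebraMap K H) ≠ w₀.comap (algebraMap K H) → w x = 1) ∧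
    ∀ P : HeightOneSpectrum (𝓞 H), P.valuation H x = 1

/-- `H (u^(1/e)) / K` is abelian: there is an extension `M = H (y)` of `H` with `y ^ e = u` which is
an abelian Galois extension of `K`. -/
def AbelianRoot (K : Type) {H : Type} [Field K] [Field H] [Algebra K H] (u : H) (e : ℕ) : Prop :=
  ∃ (M : Type) (_ : Field M) (_ : NumberField M) (_ : Algebra K M) (_ : Algebra H M)
    (_ : IsScalarTower K H M) (y : M), y ^ e = algebraMap H M u ∧
      IntermediateField.adjoin H {y} = ⊤ ∧ IsAbelianGalois K M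

variable {K H G : Type} [Field K] [NumberField K] [Field H] [NumberField H] [Algebra K H]
  [CommGroup G] [MulSemiringAction G H]

variable (K H G) in
/-- The Artin symbols and the partial zeta functions of the abelian extension `H / K`, which is
unramified outside `𝔣`. -/
structure ZetaData (𝔣 : Ideal (𝓞 K)) where
  unramified : ∀ 𝔭 : HeightOneSpectrum (𝓞 K), ¬ 𝔣 ≤ 𝔭.asIdeal →
    Squarefree (𝔭.asIdeal.map (algebraMap (𝓞 K) (𝓞 H)))
  /-- the Artin symbol `σ_𝔞` -/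
  art : Ideal (𝓞 K) → G
  art_mul : ∀ 𝔞 𝔟 : Ideal (𝓞 K), IsCoprime 𝔞 𝔣 → IsCoprime 𝔟 𝔣 → art (𝔞 * 𝔟) = art 𝔞 * art 𝔟
  art_frob : ∀ 𝔭 : HeightOneSpectrum (𝓞 K), ¬ 𝔣 ≤ 𝔭.asIdeal → IsFrob (H := H) 𝔭 (art 𝔭.asIdeal)
  /-- the partial zeta functions `ζ_𝔣 (ρ, s)`, continued holomorphically to `s ≠ 1` -/
  zeta : G → ℂ → ℂ
  analytic : ∀ ρ : G, DifferentiableOn ℂ (zeta ρ) {1}ᶜ
  series : ∀ (ρ : G) (s : ℂ), 1 < s.re →
    HasSum (fun 𝔞 : {𝔞 : Ideal (𝓞 K) // 𝔞 ≠ ⊥ ∧ IsCoprime 𝔞 𝔣 ∧ art 𝔞 = ρ} =>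
      ((Ideal.absNorm (𝔞 : Ideal (𝓞 K)) : ℂ)) ^ (-s)) (zeta ρ s)

namespace ZetaData

variable {𝔣 : Ideal (𝓞 K)}

/-- Stark's conjecture for `H / K`, `𝔣` and the place `w₀`, with `e` roots of unity in `H`: the
conditions 1, 2 and 3. -/
def Stark (D : ZetaData K H G 𝔣) (w₀ : InfinitePlace H) : Prop :=
  ∃ u : Hˣ, UnitOff K w₀ (u : H) ∧
    (∀ ρ : G, deriv (D.zeta ρ) 0 =
      -(1 / (Units.torsionOrder H : ℂ)) * (logAbs w₀ (ρ • (u : H)) : ℂ)) ∧
    AbelianRoot K (u : H) (Units.torsionOrder H)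

/-- The version of Stark's conjecture for the prime ideal `𝔭`: there is an `x` in `H^*` with
`|x|_w = 1` at all places `w` which do not lie over the place below `w₀`, with `x ≡ 1` modulo all prime
ideals over `𝔭`, and with `ζ'_(𝔣,𝔭) (ρ, 0) = - log |x^ρ|_(w₀)` for all `ρ`. Here
`ζ_(𝔣,𝔭) (ρ, s) = ζ_𝔣 (ρ, s) - N𝔭^(1-s) ζ_𝔣 (σ_𝔭⁻¹ ρ, s)`, so that
`ζ'_(𝔣,𝔭) (ρ, 0) = ζ'_𝔣 (ρ, 0) - N𝔭 ζ'_𝔣 (σ_𝔭⁻¹ ρ, 0)` because of `ζ_𝔣 (ρ, 0) = 0`. -/
def StarkAt (D : ZetaData K H G 𝔣) (w₀ : InfinitePlace H) (𝔭 : HeightOneSpectrum (𝓞 K)) : Prop :=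
  ∃ x : Hˣ, UnitOff K w₀ (x : H) ∧
    (∀ P : HeightOneSpectrum (𝓞 H), P.asIdeal.comap (algebraMap (𝓞 K) (𝓞 H)) = 𝔭.asIdeal →
      P.valuation H ((x : H) - 1) < 1) ∧
    ∀ ρ : G, deriv (D.zeta ρ) 0 -
      (Ideal.absNorm 𝔭.asIdeal : ℂ) * deriv (D.zeta ((D.art 𝔭.asIdeal)⁻¹ * ρ)) 0 =
        -(logAbs w₀ (ρ • (x : H)) : ℂ)

end ZetaData

end Pool.Agent.J6H32.SR
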