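import Pool.Agent.J6H32.SR.Grp
import Pool.Agent.J6H32.SR.Defs
import Pool.Agent.J6H32.RU.Fld
import Pool.Agent.J6H32.RU.Dns

/-!
# The rank one Stark conjecture: the Frobenius automorphism
-/

set_option autoImplicit false
set_option linter.unusedSectionVars false

open NumberField IsDedekindDomain Filter Topology

noncomputable section

namespace Pool.Agent.J6H32.SR

open Pool.Agent.K3h30.RS Pool.Agent.K3h8.RS Pool.Agent.J6H32.RU

variable {K H G : Type} [Field K] [NumberField K] [Field H] [NumberField H] [Algebra K H]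
  [CommGroup G] [Finite G] [MulSemiringAction G H]

/-- the version for the prime ideal `v` -/
def TS (K : Type) [Field K] [NumberField K] [Algebra K H] (z : G → ℂ) (w₀ : InfinitePlace H)
    (σ : G) (v : HeightOneSpectrum (𝓞 K)) : Prop :=
  ∃ x : Hˣ, UnitOff K w₀ (x : H) ∧
    (∀ P : HeightOneSpectrum (𝓞 H), P.asIdeal.comap (algebraMap (𝓞 K) (𝓞 H)) = v.asIdeal →
      P.valuation H ((x : H) - 1) < 1) ∧
    ∀ ρ : G, z ρ - (Ideal.absNorm v.asIdeal : ℂ) * z (σ⁻¹ * ρ) = -(logAbs w₀ (ρ • (x : H)) : ℂ)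

theorem logAbs_mul (w : InfinitePlace H) (x y : Hˣ) :
    logAbs w ((x : H) * (y : H)) = logAbs w (x : H) + logAbs w (y : H) := by
  unfold logAbs
  rw [map_mul, Real.log_mul ((map_ne_zero w).2 x.ne_zero) ((map_ne_zero w).2 y.ne_zero), mul_add]

theorem logAbs_pow (w : InfinitePlace H) (x : H) (n : ℕ) :
    logAbs w (x ^ n) = n * logAbs w x := by
  unfold logAbs
  rw [map_pow, Real.log_pow]
  ring

theorem logAbs_inv (w : InfinitePlace H) (x : H) : logAbs w (x⁻¹) = -logAbs w x := by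
  unfold logAbs
  rw [map_inv₀, Real.log_inv]
  ring

/-- the units -/
def uo (K : Type) [Field K] [Algebra K H] (w₀ : InfinitePlace H) : Subgroup Hˣ where
  carrier := {x | UnitOff K w₀ (x : H)}
  one_mem' := ⟨fun w _ => by rw [Units.val_one, map_one], fun P => by rw [Units.val_one, map_one]⟩
  mul_mem' := by
    rintro x y ⟨h1, h2⟩ ⟨h3, h4⟩
    refine ⟨fun w hw => ?_, fun P => ?_⟩
    · rw [Units.val_mul, map_mul, h1 w hw, h3 w hw, one_mul]
    · rw [Units.val_mul, map_mul, h2 P, h4 P, one_mul]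
  inv_mem' := by
    rintro x ⟨h1, h2⟩
    refine ⟨fun w hw => ?_, fun P => ?_⟩
    · rw [Units.val_inv_eq_inv_val, map_inv₀, h1 w hw, inv_one]
    · rw [Units.val_inv_eq_inv_val, map_inv₀, h2 P, inv_one]

theorem mem_uo {w₀ : InfinitePlace H} {x : Hˣ} : x ∈ uo K w₀ ↔ UnitOff K w₀ (x : H) := Iff.rfl

theorem uo_of_pow {w₀ : InfinitePlace H} {x : Hˣ} {n : ℕ} (hn : 0 < n) (h : x ^ n ∈ uo K w₀) :
    x ∈ uo K w₀ := by
  obtain ⟨h1, h2⟩ := h
  refine ⟨fun w hw => ?_, fun P => ?_⟩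
  · have h3 := h1 w hw
    rw [Units.val_pow_eq_pow_val, map_pow] at h3
    exact (pow_eq_one_iff_of_nonneg (apply_nonneg _ _) hn.ne').mp h3
  · have h3 := h2 P
    rw [Units.val_pow_eq_pow_val, map_pow] at h3
    exact (pow_eq_one_iff_of_nonneg zero_le hn.ne').mp h3

variable [hG : IsGaloisGroup G K H]

/-- the action of `G` on the archimedean places -/
theorem inf_act (w₀ : InfinitePlace H) (γ : G) (w : InfinitePlace H)
    (hw : w.comap (algebraMap K H) ≠ w₀.comap (algebraMap K H)) :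
    ∃ w' : InfinitePlace H, w'.comap (algebraMap K H) ≠ w₀.comap (algebraMap K H) ∧
      ∀ x : H, w (γ • x) = w' x := by
  refine ⟨w.comap (MulSemiringAction.toRingHom G H γ), ?_, fun x => rfl⟩
  rw [← InfinitePlace.comap_comp]
  have h1 : (MulSemiringAction.toRingHom G H γ).comp (algebraMap K H) = algebraMap K H := by
    ext x
    have hs : SMulCommClass G K H := hG.commutes
    exact smul_algebraMap γ x
  rw [h1]
  exact hw

theorem inf_trans (w w₀ : InfinitePlace H)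
    (hw : w.comap (algebraMap K H) = w₀.comap (algebraMap K H)) :
    ∃ γ : G, ∀ x : H, w x = w₀ (γ • x) := by
  have hgal : IsGalois K H := IsGaloisGroup.isGalois G K H
  obtain ⟨σ, hσ⟩ := InfinitePlace.exists_smul_eq_of_comap_eq (k := K) hw.symm
  refine ⟨(IsGaloisGroup.mulEquivAlgEquiv G K H).symm σ⁻¹, fun x => ?_⟩
  have h1 : ((IsGaloisGroup.mulEquivAlgEquiv G K H).symm σ⁻¹) • x = σ⁻¹ x := by
    have h2 := DFunLike.congr_fun ((IsGaloisGroup.mulEquivAlgEquiv G K H).apply_symm_apply σ⁻¹) x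
    exact h2
  rw [h1, ← hσ, InfinitePlace.smul_apply]
  rfl

theorem uo_act {w₀ : InfinitePlace H} {x : Hˣ} (h : x ∈ uo K w₀) (γ : G) :
    act γ x ∈ uo K w₀ := by
  refine ⟨fun w hw => ?_, fun P => ?_⟩
  · obtain ⟨w', hw', h'⟩ := inf_act w₀ γ w hw
    rw [act_val, h']
    exact h.1 w' hw'
  · obtain ⟨v, hv⟩ : ∃ v : HeightOneSpectrum (𝓞 K), Above {v} P := by
      have hp := P.isPrime
      refine ⟨⟨P.asIdeal.comap (algebraMap (𝓞 K) (𝓞 H)), Ideal.comap_isPrime _ _, ?_⟩, ?_⟩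
      · intro h0
        exact P.ne_bot (Ideal.eq_bot_of_comap_eq_bot h0)
      · exact ⟨_, rfl, rfl⟩
    obtain ⟨P', -, hP'⟩ := (Pool.Agent.K3h25.RS.t_TRANS K H G v P hv).1 γ
    rw [act_val, ← hP']
    exact h.2 P'

/-- elements with the same absolute values -/
theorem unique_tors {w₀ : InfinitePlace H} {a b : Hˣ} (ha : a ∈ uo K w₀) (hb : b ∈ uo K w₀)
    (h : ∀ ρ : G, logAbs w₀ (ρ • (a : H)) = logAbs w₀ (ρ • (b : H))) :
    ∃ n : ℕ, 0 < n ∧ (a * b⁻¹) ^ n = 1 := by
  set c : Hˣ := a * b⁻¹ with hc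
  have hcu : c ∈ uo K w₀ := (uo K w₀).mul_mem ha ((uo K w₀).inv_mem hb)
  have h0 : ∀ ρ : G, w₀ (ρ • (c : H)) = 1 := by
    intro ρ
    have h1 : logAbs w₀ (ρ • (c : H)) = 0 := by
      have e : ρ • (c : H) = ((act ρ a : Hˣ) : H) * (((act ρ b)⁻¹ : Hˣ) : H) := by
        rw [← Units.val_mul, ← act_val, hc, act_map_mul]
        rfl
      rw [e, logAbs_mul, Units.val_inv_eq_inv_val, logAbs_inv, act_val, act_val, h ρ, add_neg_cancel]
    have hm : (w₀.mult : ℝ) ≠ 0 := by exact_mod_cast InfinitePlace.mult_pos.ne'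
    have h2 : Real.log (w₀ (ρ • (c : H))) = 0 := by
      rcases mul_eq_zero.mp h1 with h2 | h2
      · exact absurd h2 hm
      · exact h2
    have hpos : 0 < w₀ (ρ • (c : H)) := by
      rw [← act_val]
      exact (InfinitePlace.pos_iff).2 (act ρ c).ne_zero
    exact Real.eq_one_of_pos_of_log_eq_zero hpos h2
  have hinf : ∀ w : InfinitePlace H, w (c : H) = 1 := by
    intro w
    by_cases hw : w.comap (algebraMap K H) = w₀.comap (algebraMap K H)
    · obtain ⟨γ, hγ⟩ := inf_trans (G := G) w w₀ hw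
      rw [hγ, h0]
    · exact hcu.1 w hw
  have hint : _root_.IsIntegral ℤ (c : H) := by
    have h3 : ∀ P : HeightOneSpectrum (𝓞 H), P.valuation H (c : H) ≤ 1 := fun P => (hcu.2 P).le
    obtain ⟨x, hx⟩ := HeightOneSpectrum.mem_integers_of_valuation_le_one H (c : H) h3
    rw [← hx]
    exact x.isIntegral_coe
  obtain ⟨n, hn, hcn⟩ := Embeddings.pow_eq_one_of_norm_eq_one H ℂ hint (fun φ => by
    have h4 := hinf (InfinitePlace.mk φ)
    rwa [InfinitePlace.apply] at h4)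
  exact ⟨n, hn, Units.ext (by rw [Units.val_pow_eq_pow_val, hcn, Units.val_one])⟩

end Pool.Agent.J6H32.SR
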