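import Pool.Agent.J6H32.SR.Pair
import Pool.Agent.J6H32.RT.Lim

/-!
# Counting pairs of prime ideals
-/

set_option autoImplicit false
set_option linter.unusedSectionVars false

open NumberField IsDedekindDomain Filter Topology

noncomputable section

namespace Pool.Agent.J6H32.SR

open Pool.Agent.K3h30.RS Pool.Agent.K3h8.RS Pool.Agent.K3h43.RS Pool.Agent.J6H32.RU

variable {K : Type} [Field K] [NumberField K]

/-- The number of the pairs of different prime ideals of norm at most `X` with the property `R`,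
divided by the square of the number of the prime numbers up to `X`. -/
def pairProp (R : HeightOneSpectrum (𝓞 K) → HeightOneSpectrum (𝓞 K) → Prop) (X : ℕ) : ℝ :=
  (Nat.card {p : HeightOneSpectrum (𝓞 K) × HeightOneSpectrum (𝓞 K) // p.1 ≠ p.2 ∧ R p.1 p.2 ∧
    Ideal.absNorm p.1.asIdeal ≤ X ∧ Ideal.absNorm p.2.asIdeal ≤ X} : ℝ) /
    (Nat.primeCounting X : ℝ) ^ 2

/-- the prime ideals of norm at most `X` -/
def V (K : Type) [Field K] [NumberField K] (X : ℕ) : Finset (HeightOneSpectrum (𝓞 K)) :=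
  (Pool.Agent.W352.ChAbs.finite_le (K := K) X).toFinset

theorem mem_V (X : ℕ) (v : HeightOneSpectrum (𝓞 K)) :
    v ∈ V K X ↔ Ideal.absNorm v.asIdeal ≤ X := by
  unfold V
  rw [Set.Finite.mem_toFinset]
  rfl

open Classical in
theorem card_pairs (R : HeightOneSpectrum (𝓞 K) → HeightOneSpectrum (𝓞 K) → Prop) (X : ℕ) :
    Nat.card {p : HeightOneSpectrum (𝓞 K) × HeightOneSpectrum (𝓞 K) // p.1 ≠ p.2 ∧ R p.1 p.2 ∧
      Ideal.absNorm p.1.asIdeal ≤ X ∧ Ideal.absNorm p.2.asIdeal ≤ X} =
      (((V K X) ×ˢ (V K X)).filter (fun p => p.1 ≠ p.2 ∧ R p.1 p.2)).card := by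
  rw [← Set.ncard_coe_finset, ← Nat.card_coe_set_eq]
  refine Nat.card_congr (Equiv.subtypeEquivRight fun p => ?_)
  rw [Finset.coe_filter]
  change _ ↔ (p ∈ (V K X) ×ˢ (V K X) ∧ p.1 ≠ p.2 ∧ R p.1 p.2)
  rw [Finset.mem_product, mem_V, mem_V]
  tauto

open Classical in
theorem card_one (P : HeightOneSpectrum (𝓞 K) → Prop) (X : ℕ) :
    Nat.card {v : HeightOneSpectrum (𝓞 K) // P v ∧ Ideal.absNorm v.asIdeal ≤ X} =
      ((V K X).filter P).card := by
  rw [← Set.ncard_coe_finset, ← Nat.card_coe_set_eq]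
  refine Nat.card_congr (Equiv.subtypeEquivRight fun v => ?_)
  rw [Finset.coe_filter]
  change _ ↔ (v ∈ V K X ∧ P v)
  rw [mem_V]
  tauto

theorem pi_top : Tendsto (fun X : ℕ => (Nat.primeCounting X : ℝ)) atTop atTop :=
  tendsto_natCast_atTop_atTop.comp Nat.tendsto_primeCounting

/-- the prime number theorem for `K` -/
theorem card_V : Tendsto (fun X : ℕ => ((V K X).card : ℝ) / (Nat.primeCounting X : ℝ)) atTop
    (𝓝 1) := by
  classical
  have h := Pool.Agent.J6H32.RT.density_set (F := K) (L := K) Set.univ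
    (fun g _ h => Set.mem_univ _) (bad := ∅) (R := fun _ => True)
    (fun v _ Q g _ => by simp)
  rw [Set.ncard_univ, div_self (by exact_mod_cast Nat.card_pos.ne')] at h
  refine h.congr fun X => ?_
  rw [card_one, Finset.filter_true]

/-- almost all pairs -/
theorem pairProp_one (R : HeightOneSpectrum (𝓞 K) → HeightOneSpectrum (𝓞 K) → Prop)
    (bad : Finset (HeightOneSpectrum (𝓞 K)))
    (h : ∀ v v' : HeightOneSpectrum (𝓞 K), v ∉ bad → v' ∉ bad → v ≠ v' → R v v') :
    Tendsto (pairProp R) atTop (𝓝 1) := by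
  classical
  have hup : Tendsto (fun X : ℕ => (((V K X).card : ℝ) / (Nat.primeCounting X : ℝ)) ^ 2) atTop
      (𝓝 1) := by
    have := (card_V (K := K)).pow 2
    rwa [one_pow] at this
  have hA : Tendsto (fun X : ℕ => (((V K X) \ bad).card : ℝ) / (Nat.primeCounting X : ℝ)) atTop
      (𝓝 1) := by
    refine Pool.Agent.J6H32.RT.shift pi_top (fun X => ((V K X).card : ℝ)) _ bad.card 1 ?_ card_V
    intro X
    have h1 := Finset.card_le_card (Finset.sdiff_subset (s := V K X) (t := bad))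
    have h2 := Finset.card_le_card_sdiff_add_card (s := V K X) (t := bad)
    have h1' : (((V K X) \ bad).card : ℝ) ≤ (V K X).card := by exact_mod_cast h1
    have h2' : ((V K X).card : ℝ) ≤ ((V K X) \ bad).card + bad.card := by exact_mod_cast h2
    rw [abs_le]
    constructor <;> linarith
  have hlow : Tendsto (fun X : ℕ => ((((V K X) \ bad).card : ℝ) / (Nat.primeCounting X : ℝ)) ^ 2 -
      ((((V K X) \ bad).card : ℝ) / (Nat.primeCounting X : ℝ)) * (1 / (Nat.primeCounting X : ℝ)))
      atTop (𝓝 1) := by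
    have h1 := Pool.Agent.J6H32.RT.const_div pi_top 1
    have h2 := (hA.pow 2).sub (hA.mul h1)
    rwa [one_pow, one_mul, sub_zero] at h2
  refine tendsto_of_tendsto_of_tendsto_of_le_of_le' hlow hup ?_ ?_
  · filter_upwards [pi_top.eventually_gt_atTop 0] with X hX
    unfold pairProp
    rw [card_pairs]
    have h1 : (((V K X) \ bad).offDiag).card ≤
        (((V K X) ×ˢ (V K X)).filter (fun p => p.1 ≠ p.2 ∧ R p.1 p.2)).card := by
      refine Finset.card_le_card fun p hp => ?_
      rw [Finset.mem_offDiag, Finset.mem_sdiff, Finset.mem_sdiff] at hp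
      rw [Finset.mem_filter, Finset.mem_product]
      exact ⟨⟨hp.1.1, hp.2.1.1⟩, hp.2.2, h _ _ hp.1.2 hp.2.1.2 hp.2.2⟩
    rw [Finset.offDiag_card] at h1
    have h2 : (((V K X) \ bad).card : ℝ) * ((V K X) \ bad).card - ((V K X) \ bad).card ≤
        ((((V K X) ×ˢ (V K X)).filter (fun p => p.1 ≠ p.2 ∧ R p.1 p.2)).card : ℝ) := by
      have h3 : ((V K X) \ bad).card * ((V K X) \ bad).card ≤
          (((V K X) ×ˢ (V K X)).filter (fun p => p.1 ≠ p.2 ∧ R p.1 p.2)).card +
            ((V K X) \ bad).card := by omega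
      have h4 : (((V K X) \ bad).card : ℝ) * ((V K X) \ bad).card ≤
          ((((V K X) ×ˢ (V K X)).filter (fun p => p.1 ≠ p.2 ∧ R p.1 p.2)).card : ℝ) +
            ((V K X) \ bad).card := by exact_mod_cast h3
      linarith
    rw [le_div_iff₀ (by positivity)]
    refine le_trans (le_of_eq ?_) h2
    field_simp
  · filter_upwards [pi_top.eventually_gt_atTop 0] with X hX
    unfold pairProp
    rw [card_pairs, div_pow]
    refine div_le_div_of_nonneg_right ?_ (by positivity)
    have h1 := Finset.card_filter_le ((V K X) ×ˢ (V K X)) (fun p => p.1 ≠ p.2 ∧ R p.1 p.2)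
    rw [Finset.card_product] at h1
    rw [pow_two]
    exact_mod_cast h1

/-- an upper bound by classes -/
theorem pairProp_le {ι : Type} [Fintype ι] (cl : HeightOneSpectrum (𝓞 K) → ι) (d : ι → ℝ)
    (hd : ∀ c : ι, Tendsto (fun X : ℕ => (Nat.card {v : HeightOneSpectrum (𝓞 K) //
      cl v = c ∧ Ideal.absNorm v.asIdeal ≤ X} : ℝ) / (Nat.primeCounting X : ℝ)) atTop (𝓝 (d c)))
    (good : Finset (ι × ι)) (R : HeightOneSpectrum (𝓞 K) → HeightOneSpectrum (𝓞 K) → Prop)
    (bad : Finset (HeightOneSpectrum (𝓞 K)))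
    (h : ∀ v v' : HeightOneSpectrum (𝓞 K), v ∉ bad → v' ∉ bad → R v v' → (cl v, cl v') ∈ good)
    (c : ℝ) (hc : ∑ s ∈ good, d s.1 * d s.2 < c) : ∀ᶠ X : ℕ in atTop, pairProp R X < c := by
  classical
  have hlim : Tendsto (fun X : ℕ => 2 * ((V K X).card : ℝ) / (Nat.primeCounting X : ℝ) *
      ((bad.card : ℝ) / (Nat.primeCounting X : ℝ)) + ∑ s ∈ good,
        ((((V K X).filter (fun v => cl v = s.1)).card : ℝ) / (Nat.primeCounting X : ℝ)) *
        ((((V K X).filter (fun v => cl v = s.2)).card : ℝ) / (Nat.primeCounting X : ℝ))) atTop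
      (𝓝 (∑ s ∈ good, d s.1 * d s.2)) := by
    have h1 := (card_V (K := K)).const_mul 2
    have h2 := Pool.Agent.J6H32.RT.const_div pi_top (bad.card : ℝ)
    have h3 := h1.mul h2
    rw [mul_zero] at h3
    have h4 : Tendsto (fun X : ℕ => ∑ s ∈ good,
        ((((V K X).filter (fun v => cl v = s.1)).card : ℝ) / (Nat.primeCounting X : ℝ)) *
        ((((V K X).filter (fun v => cl v = s.2)).card : ℝ) / (Nat.primeCounting X : ℝ))) atTop
        (𝓝 (∑ s ∈ good, d s.1 * d s.2)) := by
      refine tendsto_finsetSum _ fun s _ => ?_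
      have h5 := (hd s.1).mul (hd s.2)
      refine h5.congr fun X => ?_
      rw [card_one, card_one]
    have h5 := h3.add h4
    rw [zero_add] at h5
    refine h5.congr fun X => ?_
    rw [mul_div_assoc]
  have hev := hlim.eventually_lt_const hc
  filter_upwards [hev, pi_top.eventually_gt_atTop 0] with X hX hpi
  refine lt_of_le_of_lt ?_ hX
  unfold pairProp
  rw [card_pairs]
  have hsub : ((V K X) ×ˢ (V K X)).filter (fun p => p.1 ≠ p.2 ∧ R p.1 p.2) ⊆
      (bad ×ˢ (V K X) ∪ (V K X) ×ˢ bad) ∪ good.biUnion (fun s =>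
        (V K X).filter (fun v => cl v = s.1) ×ˢ (V K X).filter (fun v => cl v = s.2)) := by
    rintro ⟨v, v'⟩ hp
    rw [Finset.mem_filter, Finset.mem_product] at hp
    rw [Finset.mem_union, Finset.mem_union, Finset.mem_product, Finset.mem_product]
    by_cases hv : v ∈ bad
    · exact Or.inl (Or.inl ⟨hv, hp.1.2⟩)
    by_cases hv' : v' ∈ bad
    · exact Or.inl (Or.inr ⟨hp.1.1, hv'⟩)
    right
    rw [Finset.mem_biUnion]
    refine ⟨(cl v, cl v'), h v v' hv hv' hp.2.2, ?_⟩
    rw [Finset.mem_product, Finset.mem_filter, Finset.mem_filter]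
    exact ⟨⟨hp.1.1, rfl⟩, ⟨hp.1.2, rfl⟩⟩
  have hcard := (Finset.card_le_card hsub).trans (Finset.card_union_le _ _)
  have h1 := Finset.card_union_le (bad ×ˢ (V K X)) ((V K X) ×ˢ bad)
  have h2 := Finset.card_biUnion_le (s := good) (t := fun s =>
        (V K X).filter (fun v => cl v = s.1) ×ˢ (V K X).filter (fun v => cl v = s.2))
  rw [Finset.card_product, Finset.card_product] at h1
  simp only [Finset.card_product] at h2
  have h3 : ((((V K X) ×ˢ (V K X)).filter (fun p => p.1 ≠ p.2 ∧ R p.1 p.2)).card : ℝ) ≤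
      2 * (V K X).card * bad.card + ∑ s ∈ good,
        (((V K X).filter (fun v => cl v = s.1)).card : ℝ) *
          (((V K X).filter (fun v => cl v = s.2)).card : ℝ) := by
    have h4 : (((V K X) ×ˢ (V K X)).filter (fun p => p.1 ≠ p.2 ∧ R p.1 p.2)).card ≤
        2 * (V K X).card * bad.card + ∑ s ∈ good,
        ((V K X).filter (fun v => cl v = s.1)).card *
          ((V K X).filter (fun v => cl v = s.2)).card := by nlinarith
    exact_mod_cast h4
  rw [div_le_iff₀ (by positivity)]
  refine h3.trans (le_of_eq ?_)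
  rw [add_mul, Finset.sum_mul]
  congr 1
  · field_simp
  · refine Finset.sum_congr rfl fun s _ => ?_
    field_simp

end Pool.Agent.J6H32.SR
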