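import Pool.Agent.J6H32.SR.Defs

/-!
# The rank one Stark conjecture: the version for two prime ideals
-/

set_option autoImplicit false

open NumberField IsDedekindDomain Filter Topology

noncomputable section

namespace Pool.Agent.J6H32.SR

variable {K H G : Type} [Field K] [NumberField K] [Field H] [NumberField H] [Algebra K H]
  [CommGroup G] [MulSemiringAction G H] {𝔣 : Ideal (𝓞 K)}

/-- The version of Stark's conjecture for the set of the prime ideals `𝔭` and `𝔮`: there is an `x` in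
`H^*` with `|x|_w = 1` at all places `w` which do not lie over the place below `w₀`, with `x ≡ 1` modulo
all prime ideals over `𝔭` and over `𝔮`, and with `ζ'_(𝔣,{𝔭,𝔮}) (ρ, 0) = - log |x^ρ|_(w₀)` for all `ρ`.
Here `ζ_(𝔣,{𝔭,𝔮}) (ρ, s) = ζ_(𝔣,𝔭) (ρ, s) - N𝔮^(1-s) ζ_(𝔣,𝔭) (σ_𝔮⁻¹ ρ, s)` with
`ζ_(𝔣,𝔭) (ρ, s) = ζ_𝔣 (ρ, s) - N𝔭^(1-s) ζ_𝔣 (σ_𝔭⁻¹ ρ, s)`, and the formula for the derivative at `0`
follows from `ζ_𝔣 (ρ, 0) = 0`. -/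
def ZetaData.StarkAtPair (D : ZetaData K H G 𝔣) (w₀ : InfinitePlace H)
    (𝔭 𝔮 : HeightOneSpectrum (𝓞 K)) : Prop :=
  ∃ x : Hˣ, UnitOff K w₀ (x : H) ∧
    (∀ P : HeightOneSpectrum (𝓞 H), (P.asIdeal.comap (algebraMap (𝓞 K) (𝓞 H)) = 𝔭.asIdeal ∨
      P.asIdeal.comap (algebraMap (𝓞 K) (𝓞 H)) = 𝔮.asIdeal) →
      P.valuation H ((x : H) - 1) < 1) ∧
    ∀ ρ : G, (deriv (D.zeta ρ) 0 -
      (Ideal.absNorm 𝔭.asIdeal : ℂ) * deriv (D.zeta ((D.art 𝔭.asIdeal)⁻¹ * ρ)) 0) -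
      (Ideal.absNorm 𝔮.asIdeal : ℂ) * (deriv (D.zeta ((D.art 𝔮.asIdeal)⁻¹ * ρ)) 0 -
        (Ideal.absNorm 𝔭.asIdeal : ℂ) *
          deriv (D.zeta ((D.art 𝔭.asIdeal)⁻¹ * ((D.art 𝔮.asIdeal)⁻¹ * ρ))) 0) =
        -(logAbs w₀ (ρ • (x : H)) : ℂ)

end Pool.Agent.J6H32.SR
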