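import Pool.Agent.J6H32.SR.Defs

/-!
# The rank one Stark conjecture: the power condition and the prime ideals with a given Artin symbol
-/

set_option autoImplicit false

open NumberField IsDedekindDomain Filter Topology

noncomputable section

namespace Pool.Agent.J6H32.SR

/-- `ρ (u) / u ^ k` is an `e`-th power in `H` for all `ρ` in `G` and all `k` for which `ρ` acts on the
roots `ζ` of `ζ ^ e = 1` in `H` as `ζ ↦ ζ ^ k`. -/
def PowerCond (G : Type) {H : Type} [Field H] [Group G] [MulSemiringAction G H] (u : H) (e : ℕ) :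
    Prop :=
  ∀ (ρ : G) (k : ℕ), (∀ ζ : H, ζ ^ e = 1 → ρ • ζ = ζ ^ k) → ∃ h : H, ρ • u = u ^ k * h ^ e

variable {K H G : Type} [Field K] [NumberField K] [Field H] [NumberField H] [Algebra K H]
  [CommGroup G] [MulSemiringAction G H] {𝔣 : Ideal (𝓞 K)}

namespace ZetaData

/-- The conditions 1, 2 and the power condition, for the place `w₀` of `H`. -/
def PowerStark (D : ZetaData K H G 𝔣) (w₀ : InfinitePlace H) : Prop :=
  ∃ u : Hˣ, UnitOff K w₀ (u : H) ∧
    (∀ ρ : G, deriv (D.zeta ρ) 0 =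
      -(1 / (Units.torsionOrder H : ℂ)) * (logAbs w₀ (ρ • (u : H)) : ℂ)) ∧
    PowerCond G (u : H) (Units.torsionOrder H)

/-- The prime ideal `𝔭` does not divide `𝔣` and its Artin symbol is `σ`. -/
def Symbol (D : ZetaData K H G 𝔣) (σ : G) (𝔭 : HeightOneSpectrum (𝓞 K)) : Prop :=
  ¬ 𝔣 ≤ 𝔭.asIdeal ∧ D.art 𝔭.asIdeal = σ

end ZetaData

/-- The number of the prime ideals `𝔭` of norm at most `X` with the properties `S 𝔭` and `P 𝔭`, divided
by the number of the prime ideals `𝔭` of norm at most `X` with the property `S 𝔭`. -/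
def proportionIn (S P : HeightOneSpectrum (𝓞 K) → Prop) (X : ℕ) : ℝ :=
  (Nat.card {𝔭 : HeightOneSpectrum (𝓞 K) // (S 𝔭 ∧ P 𝔭) ∧ Ideal.absNorm 𝔭.asIdeal ≤ X} : ℝ) /
    (Nat.card {𝔭 : HeightOneSpectrum (𝓞 K) // S 𝔭 ∧ Ideal.absNorm 𝔭.asIdeal ≤ X} : ℝ)

end Pool.Agent.J6H32.SR
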