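import Pool.Agent.J6H32.SR.Defs

/-!
# The rank one Stark conjecture: the parts at the prime numbers
-/

set_option autoImplicit false

open NumberField IsDedekindDomain Filter Topology

noncomputable section

namespace Pool.Agent.J6H32.SR

variable {K H G : Type} [Field K] [NumberField K] [Field H] [NumberField H] [Algebra K H]
  [CommGroup G] [MulSemiringAction G H] {𝔣 : Ideal (𝓞 K)}

namespace ZetaData

/-- The part at `ℓ` of Stark's conjecture: for a number `n` which is not divisible by `ℓ` the conditions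
1, 2, 3 with `n ζ'_𝔣 (ρ, 0)` in place of `ζ'_𝔣 (ρ, 0)`. -/
def StarkPart (D : ZetaData K H G 𝔣) (w₀ : InfinitePlace H) (ℓ : ℕ) : Prop :=
  ∃ n : ℕ, ¬ ℓ ∣ n ∧ ∃ u : Hˣ, UnitOff K w₀ (u : H) ∧
    (∀ ρ : G, (n : ℂ) * deriv (D.zeta ρ) 0 =
      -(1 / (Units.torsionOrder H : ℂ)) * (logAbs w₀ (ρ • (u : H)) : ℂ)) ∧
    AbelianRoot K (u : H) (Units.torsionOrder H)

/-- The part at `ℓ` of the version `StarkAt 𝔭` for the prime ideal `𝔭`: the same conditions as in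
`StarkAt` with the `n ζ'_𝔣 (ρ, 0)` for a number `n` which is not divisible by `ℓ`. -/
def StarkAtPart (D : ZetaData K H G 𝔣) (w₀ : InfinitePlace H) (ℓ : ℕ)
    (𝔭 : HeightOneSpectrum (𝓞 K)) : Prop :=
  ∃ n : ℕ, ¬ ℓ ∣ n ∧ ∃ x : Hˣ, UnitOff K w₀ (x : H) ∧
    (∀ P : HeightOneSpectrum (𝓞 H), P.asIdeal.comap (algebraMap (𝓞 K) (𝓞 H)) = 𝔭.asIdeal →
      P.valuation H ((x : H) - 1) < 1) ∧
    ∀ ρ : G, (n : ℂ) * deriv (D.zeta ρ) 0 - (Ideal.absNorm 𝔭.asIdeal : ℂ) *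
      ((n : ℂ) * deriv (D.zeta ((D.art 𝔭.asIdeal)⁻¹ * ρ)) 0) = -(logAbs w₀ (ρ • (x : H)) : ℂ)

end ZetaData

end Pool.Agent.J6H32.SR
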