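import Pool.Agent.J6H32.SR.Fin

/-!
# The rank one Stark conjecture: the final statements
-/

set_option autoImplicit false
set_option linter.unusedSectionVars false

open NumberField IsDedekindDomain Filter Topology

noncomputable section

namespace Pool.Agent.J6H32.SR

open Pool.Agent.K3h30.RS Pool.Agent.K3h8.RS Pool.Agent.K3h43.RS Pool.Agent.J6H32.RU

variable {K H G : Type} [Field K] [NumberField K] [Field H] [NumberField H] [Algebra K H]
  [CommGroup G] [Finite G] [MulSemiringAction G H] [hG : IsGaloisGroup G K H]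

/-- the main theorem if the rational version is true -/
theorem main_of_sq (z : G → ℂ) (w₀ : InfinitePlace H) (bad₀ : Finset (HeightOneSpectrum (𝓞 K)))
    (hsq : ∀ v : HeightOneSpectrum (𝓞 K), v ∉ bad₀ →
      Squarefree (v.asIdeal.map (algebraMap (𝓞 K) (𝓞 H))))
    (σ : HeightOneSpectrum (𝓞 K) → G)
    (hσ : ∀ v : HeightOneSpectrum (𝓞 K), v ∉ bad₀ → IsFrob (H := H) v (σ v))
    (hQ : SQ K z w₀) :
    ∃ (K' : Type) (_ : Field K') (_ : NumberField K') (_ : Algebra K K')
      (bad : Finset (HeightOneSpectrum (𝓞 K))), IsGalois K K' ∧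
      (∀ v : HeightOneSpectrum (𝓞 K), v ∉ bad → (TS K z w₀ (σ v) v ↔ SplitsIn K' v)) ∧
      Tendsto (fun X : ℕ => (Nat.card {v : HeightOneSpectrum (𝓞 K) //
        TS K z w₀ (σ v) v ∧ Ideal.absNorm v.asIdeal ≤ X} : ℝ) / (Nat.primeCounting X : ℝ))
        atTop (𝓝 (1 / (Module.finrank K K' : ℝ))) ∧
      (SK K z w₀ ↔ Module.finrank K K' = 1) ∧
      (IsCyclic (K' ≃ₐ[K] K') → Module.finrank K K' = 1) ∧
      (Module.finrank K K' = 1 ∨ 4 ≤ Module.finrank K K') := by
  classical
  · obtain ⟨u, m, hm, hu, hz⟩ := hQ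
    obtain ⟨L, _, _, _, _, _, hgal, ⟨θ, hθ⟩, hroot⟩ := exists_field K H m
      (m * Units.torsionOrder H) hm (Nat.mul_pos hm (Units.torsionOrder_pos H)) {u}
    obtain ⟨y, hy⟩ := hroot u (Subgroup.subset_closure (by simp))
    obtain ⟨fin, hfin⟩ := exists_bad (K := K) L
    let Γ₀ : Subgroup (L ≃ₐ[K] L) := cen (L ≃ₐ[K] L) (y : L)
    have hR : ∀ v : HeightOneSpectrum (𝓞 K), v ∉ fin ∪ bad₀ → ∀ (Q : HeightOneSpectrum (𝓞 L))
        (g : L ≃ₐ[K] L), FrobAt v Q g → (TS K z w₀ (σ v) v ↔ g ∈ Γ₀) := by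
      intro v hv Q g hg
      rw [Finset.mem_union, not_or] at hv
      exact ts_iff z w₀ u m hm hu hz y hy (Units.torsionOrder L) (fun ξ hξ => root_pow ξ hξ) v
        (hsq v hv.2) (σ v) (hσ v hv.2) Q g hg (hfin v hv.1 Q hg.1)
    have hnorm : Γ₀.Normal := cen_normal _
    obtain ⟨bad', hbad'⟩ := split_iff hR
    have hdens := density_of hR
    rw [← finrank_fixed] at hdens
    have hiff : SK K z w₀ ↔ Γ₀ = ⊤ := by
      constructor
      · intro h
        obtain ⟨fin', hfin'⟩ := ts_of_sk z w₀ bad₀ hsq σ hσ h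
        exact top_iff hR fin' hfin'
      · intro h
        exact sk_of_top z w₀ u m hm hu hz y hy θ hθ h
    refine ⟨IntermediateField.fixedField Γ₀, inferInstance, inferInstance, inferInstance, bad',
      IsGalois.of_fixedField_normal_subgroup Γ₀, hbad', hdens, ?_, ?_, ?_⟩
    · rw [finrank_fixed, Subgroup.index_eq_one]
      exact hiff
    · intro hcyc
      rw [finrank_fixed, Subgroup.index_eq_one]
      have e := IsGalois.normalAutEquivQuotient Γ₀
      exact cen_top_of_cyclic _ (isCyclic_of_injective e.toMonoidHom e.injective)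
    · rw [finrank_fixed]
      exact cen_index _

end Pool.Agent.J6H32.SR
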