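import Pool.Agent.J6H32.SR.EllGrp
import Pool.Agent.J6H32.SR.Fin2

/-!
# The part at a prime number `ℓ` of the rank one Stark conjecture
-/

set_option autoImplicit false
set_option linter.unusedSectionVars false

open NumberField IsDedekindDomain Filter Topology

noncomputable section

namespace Pool.Agent.J6H32.SR

open Pool.Agent.K3h30.RS Pool.Agent.K3h8.RS Pool.Agent.K3h43.RS Pool.Agent.J6H32.RU
open scoped commutatorElement

section

variable {K H L G : Type} [Field K] [NumberField K] [Field H] [NumberField H] [Algebra K H]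
  [Field L] [NumberField L] [Algebra H L] [Algebra K L] [IsScalarTower K H L]
  [CommGroup G] [Finite G] [MulSemiringAction G H] [hG : IsGaloisGroup G K H]

theorem um_one' (y : Lˣ) : um (1 : L ≃ₐ[K] L) y = y := Units.ext rfl

/-- the powers of a commutator on the orbit of the root -/
theorem comm_exp [IsGalois K L] (res : (L ≃ₐ[K] L) →* G)
    (hres : ∀ (g : L ≃ₐ[K] L) (x : H), g (algebraMap H L x) = algebraMap H L (res g • x))
    (u : Hˣ) (q : ℕ) (hq : 0 < q) (y : Lˣ) (hy : y ^ q = inj H L u) (a b : L ≃ₐ[K] L) :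
    ⁅a, b⁆ ^ q ∈ fixOrb (L ≃ₐ[K] L) (y : L) := by
  obtain ⟨η, hη⟩ := exists_gen L
  obtain ⟨i, hi⟩ := exists_kappa η hη a
  obtain ⟨j, hj⟩ := exists_kappa η hη b
  set c := ⁅a, b⁆ with hc
  have hab : a * b = c * (b * a) := by rw [hc, commutatorElement_def]; group
  have hres1 : res c = 1 := by
    rw [hc, commutatorElement_def, map_mul, map_mul, map_mul, map_inv, map_inv, mul_comm (res a)]
    group
  have hroot : ∀ ξ : Lˣ, IsOfFinOrder ξ → um c ξ = ξ := by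
    intro ξ hξ
    have e1 : um (a * b) ξ = ξ ^ (i * j) := by
      rw [um_mul, hj ξ hξ, map_pow, hi ξ hξ, ← pow_mul]
    have e2 : ∀ ζ : Lˣ, IsOfFinOrder ζ → um (b * a) ζ = ζ ^ (i * j) := by
      intro ζ hζ
      rw [um_mul, hi ζ hζ, map_pow, hj ζ hζ, ← pow_mul, mul_comm]
    -- `ξ = (b a) ξ'`
    have hfin : IsOfFinOrder (um (b * a)⁻¹ ξ) := by
      obtain ⟨n, hn, hn'⟩ := isOfFinOrder_iff_pow_eq_one.1 hξ
      exact isOfFinOrder_iff_pow_eq_one.2 ⟨n, hn, by rw [← map_pow, hn', map_one]⟩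
    have e3 : um (b * a) (um (b * a)⁻¹ ξ) = ξ := by
      rw [← um_mul, mul_inv_cancel, um_one']
    have e4 : um (a * b) (um (b * a)⁻¹ ξ) = um c ξ := by
      rw [hab, um_mul, e3]
    have e5 : um (a * b) (um (b * a)⁻¹ ξ) = (um (b * a)⁻¹ ξ) ^ (i * j) := by
      rw [um_mul, hj _ hfin, map_pow, hi _ hfin, ← pow_mul]
    rw [← e4, e5, ← e2 _ hfin, e3]
  rw [mem_fixOrb]
  intro k
  set y' := um k y with hy'
  have hyq : y' ^ q = inj H L (act (res k) u) := by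
    rw [hy', ← map_pow, hy, um_inj res hres]
  have hξq : (um c y' * y'⁻¹) ^ q = 1 := by
    rw [mul_pow, ← map_pow, hyq, um_inj res hres, hres1, act_one, inv_pow, hyq, mul_inv_cancel]
  have hξ : IsOfFinOrder (um c y' * y'⁻¹) := isOfFinOrder_iff_pow_eq_one.2 ⟨q, hq, hξq⟩
  have key : ∀ n : ℕ, um (c ^ n) y' = (um c y' * y'⁻¹) ^ n * y' := by
    intro n
    induction n with
    | zero => rw [pow_zero, pow_zero, one_mul, um_one']
    | succ n ih =>
      rw [pow_succ' c, um_mul, ih, map_mul, map_pow, hroot _ hξ, pow_succ, mul_assoc _ _ y',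
        inv_mul_cancel_right]
  have h1 := key q
  rw [hξq, one_mul] at h1
  exact congrArg Units.val h1

/-- powers prime to the order -/
theorem cen_pow [IsGalois K L] (res : (L ≃ₐ[K] L) →* G)
    (hres : ∀ (g : L ≃ₐ[K] L) (x : H), g (algebraMap H L x) = algebraMap H L (res g • x))
    (u : Hˣ) (q : ℕ) (y : Lˣ) (hy : y ^ q = inj H L u) (n : ℕ) (hn : Nat.Coprime n q)
    (g : L ≃ₐ[K] L) (h : g ∈ cen (L ≃ₐ[K] L) ((y ^ n : Lˣ) : L)) :
    g ∈ cen (L ≃ₐ[K] L) (y : L) := by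
  rw [mem_cen_iff] at h ⊢
  intro k
  have h1 := h k
  rw [map_pow, map_pow, map_pow, map_pow] at h1
  have h2 : (um k (um g y)) ^ q = (um g (um k y)) ^ q := by
    rw [← map_pow, ← map_pow, ← map_pow, ← map_pow, hy, um_inj res hres, um_inj res hres,
      um_inj res hres, um_inj res hres, ← act_mul, ← act_mul, mul_comm]
  rw [← mul_inv_eq_one]
  have h3 : (um k (um g y) * (um g (um k y))⁻¹) ^ n = 1 := by
    rw [mul_pow, h1, inv_pow, mul_inv_cancel]
  have h4 : (um k (um g y) * (um g (um k y))⁻¹) ^ q = 1 := by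
    rw [mul_pow, h2, inv_pow, mul_inv_cancel]
  rw [← orderOf_eq_one_iff, ← Nat.dvd_one, ← hn]
  exact Nat.dvd_gcd (orderOf_dvd_of_pow_eq_one h3) (orderOf_dvd_of_pow_eq_one h4)

end

variable {K H G : Type} [Field K] [NumberField K] [Field H] [NumberField H] [Algebra K H]
  [CommGroup G] [Finite G] [MulSemiringAction G H]

/-- the part at `ℓ` of Stark's conjecture -/
def SL (K : Type) [Field K] [NumberField K] [Algebra K H] (z : G → ℂ) (w₀ : InfinitePlace H)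
    (ℓ : ℕ) : Prop :=
  ∃ n : ℕ, ¬ ℓ ∣ n ∧ SK K (fun ρ => (n : ℂ) * z ρ) w₀

/-- the part at `ℓ` of the version for the prime ideal `v` -/
def TL (K : Type) [Field K] [NumberField K] [Algebra K H] (z : G → ℂ) (w₀ : InfinitePlace H)
    (ℓ : ℕ) (σ : G) (v : HeightOneSpectrum (𝓞 K)) : Prop :=
  ∃ n : ℕ, ¬ ℓ ∣ n ∧ TS K (fun ρ => (n : ℂ) * z ρ) w₀ σ v

theorem not_dvd_pos {ℓ n : ℕ} (h : ¬ ℓ ∣ n) : 0 < n := by
  rcases Nat.eq_zero_or_pos n with h1 | h1
  · rw [h1] at h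
    exact absurd (dvd_zero ℓ) h
  · exact h1

variable [hG : IsGaloisGroup G K H]

theorem sq_mul {z : G → ℂ} {w₀ : InfinitePlace H} {n : ℕ} (hn : 0 < n)
    (h : SQ K (fun ρ => (n : ℂ) * z ρ) w₀) : SQ K z w₀ := by
  obtain ⟨u, m, hm, hu, hz⟩ := h
  refine ⟨u, m * n, Nat.mul_pos hm hn, hu, fun ρ => ?_⟩
  rw [← hz ρ]
  push_cast
  ring

theorem rat_of_sl (z : G → ℂ) (w₀ : InfinitePlace H) (ℓ : ℕ) (h : SL K z w₀ ℓ) : SQ K z w₀ := by
  obtain ⟨n, hn, h⟩ := h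
  exact sq_mul (not_dvd_pos hn) (rat_of_sk _ w₀ h)

theorem rat_of_tl (z : G → ℂ) (w₀ : InfinitePlace H) (ℓ : ℕ) (σ : G)
    (v : HeightOneSpectrum (𝓞 K)) (h : TL K z w₀ ℓ σ v) : SQ K z w₀ := by
  obtain ⟨n, hn, h⟩ := h
  exact sq_mul (not_dvd_pos hn) (rat_of_ts _ w₀ σ v h)

/-- **the part at `ℓ`** -/
theorem ell_main (z : G → ℂ) (w₀ : InfinitePlace H) (bad₀ : Finset (HeightOneSpectrum (𝓞 K)))
    (hsq : ∀ v : HeightOneSpectrum (𝓞 K), v ∉ bad₀ →
      Squarefree (v.asIdeal.map (algebraMap (𝓞 K) (𝓞 H))))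
    (σ : HeightOneSpectrum (𝓞 K) → G)
    (hσ : ∀ v : HeightOneSpectrum (𝓞 K), v ∉ bad₀ → IsFrob (H := H) v (σ v))
    (hQ : SQ K z w₀) (ℓ : ℕ) (hℓ : ℓ.Prime) :
    ∃ (K' : Type) (_ : Field K') (_ : NumberField K') (_ : Algebra K K')
      (bad : Finset (HeightOneSpectrum (𝓞 K))), IsGalois K K' ∧
      (∀ v : HeightOneSpectrum (𝓞 K), v ∉ bad → (TL K z w₀ ℓ (σ v) v ↔ SplitsIn K' v)) ∧
      Tendsto (fun X : ℕ => (Nat.card {v : HeightOneSpectrum (𝓞 K) //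
        TL K z w₀ ℓ (σ v) v ∧ Ideal.absNorm v.asIdeal ≤ X} : ℝ) / (Nat.primeCounting X : ℝ))
        atTop (𝓝 (1 / (Module.finrank K K' : ℝ))) ∧
      (SL K z w₀ ℓ ↔ Module.finrank K K' = 1) ∧
      (IsCyclic (K' ≃ₐ[K] K') → Module.finrank K K' = 1) ∧
      (Module.finrank K K' = 1 ∨ (ℓ ∣ Module.finrank K K' ∧ 2 * ℓ ≤ Module.finrank K K')) := by
  classical
  obtain ⟨u, m, hm, hu, hz⟩ := hQ
  have he0 := Units.torsionOrder_pos H
  set r := m.factorization ℓ with hr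
  set m' := m / ℓ ^ r with hm'
  have hmm : ℓ ^ r * m' = m := Nat.ordProj_mul_ordCompl_eq_self m ℓ
  have hm'ℓ : ¬ ℓ ∣ m' := Nat.not_dvd_ordCompl hℓ hm.ne'
  have hq0 : 0 < ℓ ^ r := pow_pos hℓ.pos r
  have hcop : ∀ n : ℕ, ¬ ℓ ∣ n → Nat.Coprime n (ℓ ^ r) := fun n hn =>
    Nat.Prime.coprime_pow_of_not_dvd hℓ hn
  obtain ⟨L, _, _, _, _, _, hgal, ⟨θ, hθ⟩, hroot⟩ := exists_field K H m
    (ℓ ^ r * Units.torsionOrder H) hm (Nat.mul_pos hq0 he0) {u}
  obtain ⟨y₀, hy₀⟩ := hroot u (Subgroup.subset_closure (by simp))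
  obtain ⟨res, hsurj, hres⟩ := exists_res' K H L G
  set y : Lˣ := y₀ ^ m' with hydef
  have hy : y ^ (ℓ ^ r) = inj H L u := by
    rw [hydef, ← pow_mul, mul_comm, hmm]
    exact hy₀
  have hz1 : ∀ ρ : G, ((ℓ ^ r : ℕ) : ℂ) * ((m' : ℂ) * z ρ) = -(logAbs w₀ (ρ • (u : H)) : ℂ) := by
    intro ρ
    rw [← hz ρ, ← mul_assoc, ← Nat.cast_mul, hmm]
  obtain ⟨fin, hfin⟩ := exists_bad (K := K) L
  let Γ₀ : Subgroup (L ≃ₐ[K] L) := cen (L ≃ₐ[K] L) (y : L)
  have hR : ∀ v : HeightOneSpectrum (𝓞 K), v ∉ fin ∪ bad₀ → ∀ (Q : HeightOneSpectrum (𝓞 L))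
      (g : L ≃ₐ[K] L), FrobAt v Q g → (TL K z w₀ ℓ (σ v) v ↔ g ∈ Γ₀) := by
    intro v hv Q g hg
    rw [Finset.mem_union, not_or] at hv
    constructor
    · rintro ⟨n, hn, h⟩
      -- the version for `n * m' * z`
      have h1 : TS K (fun ρ => (n : ℂ) * ((m' : ℂ) * z ρ)) w₀ (σ v) v := by
        obtain ⟨x, hx, hxv, hxz⟩ := h
        refine ⟨x ^ m', (uo K w₀).pow_mem hx m', fun P hP => ?_, fun ρ => ?_⟩
        · have h2 := hxv P hP
          have h3 : ((x ^ m' : Hˣ) : H) - 1 = ((x : H) - 1) *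
              (∑ i ∈ Finset.range m', (x : H) ^ i) := by
            rw [Units.val_pow_eq_pow_val, mul_geom_sum]
          rw [h3, map_mul]
          have hx1 : P.valuation H (x : H) = 1 := hx.2 P
          have h4 : P.valuation H (∑ i ∈ Finset.range m', (x : H) ^ i) ≤ 1 := by
            refine Valuation.map_sum_le _ fun i _ => ?_
            rw [map_pow, hx1, one_pow]
          exact mul_lt_one_of_nonneg_of_lt_one_left zero_le h2 h4
        · rw [la_pow]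
          have h2 := hxz ρ
          simp only at h2 ⊢
          push_cast
          linear_combination (m' : ℂ) * h2
      have hu' : u ^ n ∈ uo K w₀ := (uo K w₀).pow_mem hu n
      have h2 := (ts_iff (fun ρ => (n : ℂ) * ((m' : ℂ) * z ρ)) w₀ (u ^ n) (ℓ ^ r) hq0 hu'
        (fun ρ => by
          rw [la_pow]
          have h3 := hz1 ρ
          push_cast at h3 ⊢
          linear_combination (n : ℂ) * h3) (y ^ n) (by
          rw [← pow_mul, mul_comm, pow_mul, hy, map_pow]) (Units.torsionOrder L)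
        (fun ξ hξ => root_pow ξ hξ) v (hsq v hv.2) (σ v) (hσ v hv.2) Q g hg
        (hfin v hv.1 Q hg.1)).1 h1
      exact cen_pow res hres u (ℓ ^ r) y hy n (hcop n hn) g h2
    · intro h
      exact ⟨m', hm'ℓ, (ts_iff (fun ρ => (m' : ℂ) * z ρ) w₀ u (ℓ ^ r) hq0 hu hz1 y hy
        (Units.torsionOrder L) (fun ξ hξ => root_pow ξ hξ) v (hsq v hv.2) (σ v) (hσ v hv.2) Q g hg
        (hfin v hv.1 Q hg.1)).2 h⟩
  have hnorm : Γ₀.Normal := cen_normal _
  obtain ⟨bad', hbad'⟩ := split_iff hR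
  have hdens := density_of hR
  rw [← finrank_fixed] at hdens
  have hiff : SL K z w₀ ℓ ↔ Γ₀ = ⊤ := by
    constructor
    · rintro ⟨n, hn, h⟩
      obtain ⟨fin', hfin'⟩ := ts_of_sk _ w₀ bad₀ hsq σ hσ h
      exact top_iff hR fin' (fun v hv => ⟨n, hn, hfin' v hv⟩)
    · intro h
      exact ⟨m', hm'ℓ, sk_of_top _ w₀ u (ℓ ^ r) hq0 hu hz1 y hy θ hθ h⟩
  refine ⟨IntermediateField.fixedField Γ₀, inferInstance, inferInstance, inferInstance, bad',
    IsGalois.of_fixedField_normal_subgroup Γ₀, hbad', hdens, ?_, ?_, ?_⟩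
  · rw [finrank_fixed, Subgroup.index_eq_one]
    exact hiff
  · intro hcyc
    rw [finrank_fixed, Subgroup.index_eq_one]
    have e := IsGalois.normalAutEquivQuotient Γ₀
    exact cen_top_of_cyclic _ (isCyclic_of_injective e.toMonoidHom e.injective)
  · rw [finrank_fixed]
    exact index_ell (y : L) ℓ hℓ r (fun a b => comm_exp res hres u (ℓ ^ r) hq0 y hy a b)

/-- Stark's conjecture and its parts at the prime numbers -/
theorem sk_iff_sl (z : G → ℂ) (w₀ : InfinitePlace H) (bad₀ : Finset (HeightOneSpectrum (𝓞 K)))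
    (hsq : ∀ v : HeightOneSpectrum (𝓞 K), v ∉ bad₀ →
      Squarefree (v.asIdeal.map (algebraMap (𝓞 K) (𝓞 H))))
    (σ : HeightOneSpectrum (𝓞 K) → G)
    (hσ : ∀ v : HeightOneSpectrum (𝓞 K), v ∉ bad₀ → IsFrob (H := H) v (σ v)) :
    SK K z w₀ ↔ ∀ ℓ : ℕ, ℓ.Prime → SL K z w₀ ℓ := by
  classical
  constructor
  · intro h ℓ hℓ
    refine ⟨1, hℓ.one_lt.ne' ∘ Nat.dvd_one.1, ?_⟩
    simpa using h
  · intro h
    obtain ⟨u, m, hm, hu, hz⟩ := rat_of_sl z w₀ 2 (h 2 Nat.prime_two)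
    have he0 := Units.torsionOrder_pos H
    obtain ⟨L, _, _, _, _, _, hgal, ⟨θ, hθ⟩, hroot⟩ := exists_field K H m
      (m * Units.torsionOrder H) hm (Nat.mul_pos hm he0) {u}
    obtain ⟨y, hy⟩ := hroot u (Subgroup.subset_closure (by simp))
    obtain ⟨res, hsurj, hres⟩ := exists_res' K H L G
    obtain ⟨fin, hfin⟩ := exists_bad (K := K) L
    refine sk_of_top z w₀ u m hm hu hz y hy θ hθ ?_
    rw [eq_top_iff]
    intro g _
    rw [mem_cen_iff]
    intro k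
    rw [← mul_inv_eq_one, ← orderOf_eq_one_iff]
    by_contra hne
    obtain ⟨ℓ, hℓ, hℓo⟩ := Nat.exists_prime_and_dvd hne
    obtain ⟨n, hn, hs⟩ := h ℓ hℓ
    obtain ⟨fin', hfin'⟩ := ts_of_sk _ w₀ bad₀ hsq σ hσ hs
    obtain ⟨v, hv, Q, hg⟩ := exists_frobAt g ((fin ∪ bad₀) ∪ fin')
    rw [Finset.mem_union, Finset.mem_union, not_or, not_or] at hv
    have h1 := (ts_iff (fun ρ => (n : ℂ) * z ρ) w₀ (u ^ n) m hm ((uo K w₀).pow_mem hu n)
      (fun ρ => by
        rw [la_pow]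
        have h3 := hz ρ
        push_cast
        linear_combination (n : ℂ) * h3) (y ^ n) (by
        rw [← pow_mul, mul_comm, pow_mul, hy, map_pow]
        rfl) (Units.torsionOrder L)
      (fun ξ hξ => root_pow ξ hξ) v (hsq v hv.1.2) (σ v) (hσ v hv.1.2) Q g hg
      (hfin v hv.1.1 Q hg.1)).1 (hfin' v hv.2)
    rw [mem_cen_iff] at h1
    have h2 := h1 k
    rw [map_pow, map_pow, map_pow, map_pow] at h2
    have h3 : (um k (um g y) * (um g (um k y))⁻¹) ^ n = 1 := by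
      rw [mul_pow, h2, inv_pow, mul_inv_cancel]
    exact hn (hℓo.trans (orderOf_dvd_of_pow_eq_one h3))

end Pool.Agent.J6H32.SR
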