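import Pool.Agent.J6H32.SR.Syl

/-!
# The index of the centre if the commutators have order a power of `ℓ`
-/

set_option autoImplicit false

namespace Pool.Agent.J6H32.SR

open scoped commutatorElement

variable {Γ X : Type} [Group Γ] [MulAction Γ X]

/-- the elements which fix the orbit -/
def fixOrb (Γ : Type) {X : Type} [Group Γ] [MulAction Γ X] (y : X) : Subgroup Γ where
  carrier := {a | ∀ k : Γ, a • k • y = k • y}
  one_mem' := fun k => one_smul Γ _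
  mul_mem' := by
    intro a b ha hb k
    rw [mul_smul, hb k, ha k]
  inv_mem' := by
    intro a ha k
    rw [inv_smul_eq_iff, ha k]

theorem mem_fixOrb {y : X} {a : Γ} : a ∈ fixOrb Γ y ↔ ∀ k : Γ, a • k • y = k • y := Iff.rfl

instance fixOrb_normal (y : X) : (fixOrb Γ y).Normal := by
  constructor
  intro a ha g
  rw [mem_fixOrb] at ha ⊢
  intro k
  have h1 := ha (g⁻¹ * k)
  rw [mul_smul, mul_smul, ← mul_smul g⁻¹ k, h1, ← mul_smul, mul_inv_cancel_left]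

theorem fixOrb_le (y : X) : fixOrb Γ y ≤ cen Γ y := by
  intro a ha
  rw [mem_cen]
  intro g
  rw [mem_fixOrb] at ha
  have h1 := ha 1
  rw [one_smul] at h1
  rw [mul_smul, mul_smul, h1, ha g]

/-- `cen` is the preimage of the centre of the group of the permutations of the orbit -/
theorem cen_iff_quot (y : X) (a : Γ) : a ∈ cen Γ y ↔
    ∀ x : Γ ⧸ fixOrb Γ y, (a : Γ ⧸ fixOrb Γ y) * x = x * (a : Γ ⧸ fixOrb Γ y) := by
  constructor
  · intro ha x
    obtain ⟨g, rfl⟩ := QuotientGroup.mk_surjective x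
    change ((a * g : Γ) : Γ ⧸ fixOrb Γ y) = ((g * a : Γ) : Γ ⧸ fixOrb Γ y)
    rw [QuotientGroup.eq, mem_fixOrb]
    intro k
    have h1 := cen_orbit (mem_cen.1 ha) g k
    rw [mul_smul, inv_smul_eq_iff, ← mul_smul, ← mul_smul]
    exact h1
  · intro h
    rw [mem_cen]
    intro g
    have h1 := h (g : Γ ⧸ fixOrb Γ y)
    change ((a * g : Γ) : Γ ⧸ fixOrb Γ y) = ((g * a : Γ) : Γ ⧸ fixOrb Γ y) at h1
    rw [QuotientGroup.eq, mem_fixOrb] at h1
    have h2 := h1 1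
    rw [one_smul, mul_smul, inv_smul_eq_iff] at h2
    exact h2

/-- if the commutators have order a power of `ℓ` and the index is prime to `ℓ` -/
theorem top_of_ell [Finite Γ] (y : X) (ℓ : ℕ) (hℓ : ℓ.Prime) (r : ℕ)
    (hexp : ∀ a b : Γ, ⁅a, b⁆ ^ (ℓ ^ r) ∈ fixOrb Γ y) (hidx : ¬ ℓ ∣ (cen Γ y).index) :
    cen Γ y = ⊤ := by
  set j := (cen Γ y).index with hj
  have hcop : Nat.Coprime (ℓ ^ r) j := (Nat.Prime.coprime_pow_of_not_dvd hℓ hidx).symm
  have hpow : ∀ a : Γ, a ^ j ∈ cen Γ y := fun a => Subgroup.pow_index_mem (cen Γ y) a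
  rw [eq_top_iff]
  intro a _
  rw [cen_iff_quot]
  intro x
  obtain ⟨b, rfl⟩ := QuotientGroup.mk_surjective x
  set c := ⁅a, b⁆ with hc
  -- the commutator is in `cen`
  have hcc : c ∈ cen Γ y := by
    have h1 : c ^ (ℓ ^ r) ∈ cen Γ y := fixOrb_le y (hexp a b)
    have h2 := hpow c
    have h3 := Nat.gcd_eq_gcd_ab (ℓ ^ r) j
    rw [hcop] at h3
    have h4 : c = (c ^ (ℓ ^ r)) ^ (Nat.gcdA (ℓ ^ r) j) * (c ^ j) ^ (Nat.gcdB (ℓ ^ r) j) := by
      rw [← zpow_natCast c, ← zpow_natCast c, ← zpow_mul, ← zpow_mul, ← zpow_add, ← h3]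
      simp
    rw [h4]
    exact (cen Γ y).mul_mem ((cen Γ y).zpow_mem h1 _) ((cen Γ y).zpow_mem h2 _)
  have hcen := (cen_iff_quot y c).1 hcc
  have hab : (a : Γ ⧸ fixOrb Γ y) * b = c * (b * a) := by
    have h1 : a * b = c * (b * a) := by rw [hc, commutatorElement_def]; group
    exact congrArg (fun t : Γ => (t : Γ ⧸ fixOrb Γ y)) h1
  have h2 := comm_pow_left hcen hab j
  have h3 := (cen_iff_quot y (a ^ j)).1 (hpow a) (b : Γ ⧸ fixOrb Γ y)
  rw [QuotientGroup.mk_pow] at h3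
  rw [h3] at h2
  have h4 : (c : Γ ⧸ fixOrb Γ y) ^ j = 1 := by
    have h5 : 1 * ((b : Γ ⧸ fixOrb Γ y) * (a : Γ ⧸ fixOrb Γ y) ^ j) =
        (c : Γ ⧸ fixOrb Γ y) ^ j * ((b : Γ ⧸ fixOrb Γ y) * (a : Γ ⧸ fixOrb Γ y) ^ j) := by
      rw [one_mul]; exact h2
    exact (mul_right_cancel h5).symm
  have h6 : (c : Γ ⧸ fixOrb Γ y) ^ (ℓ ^ r) = 1 := by
    rw [← QuotientGroup.mk_pow, QuotientGroup.eq_one_iff]
    exact hexp a b
  have h7 : (c : Γ ⧸ fixOrb Γ y) = 1 := by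
    rw [← orderOf_eq_one_iff, ← Nat.dvd_one, ← hcop]
    exact Nat.dvd_gcd (orderOf_dvd_of_pow_eq_one h6) (orderOf_dvd_of_pow_eq_one h4)
  rw [hab, h7, one_mul]

/-- the index is `1` or a proper multiple of `ℓ` -/
theorem index_ell [Finite Γ] (y : X) (ℓ : ℕ) (hℓ : ℓ.Prime) (r : ℕ)
    (hexp : ∀ a b : Γ, ⁅a, b⁆ ^ (ℓ ^ r) ∈ fixOrb Γ y) :
    (cen Γ y).index = 1 ∨ (ℓ ∣ (cen Γ y).index ∧ 2 * ℓ ≤ (cen Γ y).index) := by
  by_cases h : ℓ ∣ (cen Γ y).index
  · obtain ⟨j, hj⟩ := h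
    have h0 : (cen Γ y).index ≠ 0 := Subgroup.index_ne_zero_of_finite
    rcases Nat.lt_or_ge j 2 with h2 | h2
    · left
      have h3 : j = 0 ∨ j = 1 := by omega
      rcases h3 with rfl | rfl
      · rw [mul_zero] at hj
        exact absurd hj h0
      · rw [mul_one] at hj
        have : Fact ℓ.Prime := ⟨hℓ⟩
        have hc : IsCyclic (Γ ⧸ cen Γ y) := isCyclic_of_prime_card (p := ℓ) (by
          rw [← hj]; rfl)
        rw [cen_top_of_cyclic y hc]
        exact Subgroup.index_top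
    · right
      refine ⟨Dvd.intro j hj.symm, ?_⟩
      rw [hj, mul_comm 2 ℓ]
      exact Nat.mul_le_mul_left ℓ h2
  · left
    rw [top_of_ell y ℓ hℓ r hexp h]
    exact Subgroup.index_top

end Pool.Agent.J6H32.SR
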