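import Pool.Agent.J6H32.SR.Root

/-!
# The rank one Stark conjecture: the final statements
-/

set_option autoImplicit false
set_option linter.unusedSectionVars false

open NumberField IsDedekindDomain Filter Topology

noncomputable section

namespace Pool.Agent.J6H32.SR

open Pool.Agent.K3h30.RS Pool.Agent.K3h8.RS Pool.Agent.K3h43.RS Pool.Agent.J6H32.RU

variable {K H G : Type} [Field K] [NumberField K] [Field H] [NumberField H] [Algebra K H]
  [CommGroup G] [Finite G] [MulSemiringAction G H]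

/-- Stark's conjecture for the numbers `z` -/
def SK (K : Type) [Field K] [NumberField K] [Algebra K H] (z : G → ℂ) (w₀ : InfinitePlace H) :
    Prop :=
  ∃ u : Hˣ, UnitOff K w₀ (u : H) ∧
    (∀ ρ : G, z ρ = -(1 / (Units.torsionOrder H : ℂ)) * (logAbs w₀ (ρ • (u : H)) : ℂ)) ∧
    AbelianRoot K (u : H) (Units.torsionOrder H)

/-- the rational version -/
def SQ (K : Type) [Field K] [NumberField K] [Algebra K H] (z : G → ℂ) (w₀ : InfinitePlace H) :
    Prop :=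
  ∃ (u : Hˣ) (m : ℕ), 0 < m ∧ u ∈ uo K w₀ ∧
    ∀ ρ : G, (m : ℂ) * z ρ = -(logAbs w₀ (ρ • (u : H)) : ℂ)

theorem la_mul (w : InfinitePlace H) (ρ : G) (a b : Hˣ) :
    logAbs w (ρ • ((a * b : Hˣ) : H)) = logAbs w (ρ • (a : H)) + logAbs w (ρ • (b : H)) := by
  rw [Units.val_mul, smul_mul', ← act_val, ← act_val, logAbs_mul]

theorem la_pow (w : InfinitePlace H) (ρ : G) (a : Hˣ) (n : ℕ) :
    logAbs w (ρ • ((a ^ n : Hˣ) : H)) = n * logAbs w (ρ • (a : H)) := by
  rw [Units.val_pow_eq_pow_val, smul_pow', logAbs_pow]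

theorem la_one (w : InfinitePlace H) (ρ : G) : logAbs w (ρ • ((1 : Hˣ) : H)) = 0 := by
  rw [Units.val_one, smul_one]
  unfold logAbs
  rw [map_one, Real.log_one, mul_zero]

theorem la_inv (w : InfinitePlace H) (ρ : G) (a : Hˣ) :
    logAbs w (ρ • ((a⁻¹ : Hˣ) : H)) = -logAbs w (ρ • (a : H)) := by
  have h := la_mul w ρ a⁻¹ a
  rw [inv_mul_cancel, la_one] at h
  linarith

theorem absNorm_ge_two (v : HeightOneSpectrum (𝓞 K)) : 2 ≤ Ideal.absNorm v.asIdeal := by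
  have h0 : Ideal.absNorm v.asIdeal ≠ 0 := by
    intro h
    exact v.ne_bot (Ideal.absNorm_eq_zero_iff.mp h)
  have h1 : Ideal.absNorm v.asIdeal ≠ 1 := by
    intro h
    exact v.isPrime.ne_top (Ideal.absNorm_eq_one_iff.mp h)
  omega

variable [hG : IsGaloisGroup G K H]

/-- the version for `v` implies the rational version -/
theorem rat_of_ts (z : G → ℂ) (w₀ : InfinitePlace H) (σ : G) (v : HeightOneSpectrum (𝓞 K))
    (h : TS K z w₀ σ v) : SQ K z w₀ := by
  obtain ⟨x, hx, -, hz⟩ := h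
  set N := Ideal.absNorm v.asIdeal with hN
  have hN2 : 2 ≤ N := absNorm_ge_two v
  have hσ : σ⁻¹ ^ (Nat.card G) = 1 := pow_card_eq_one'
  have hprod : ∀ k : ℕ, (∏ i ∈ Finset.range k, (act (σ⁻¹ ^ i) x) ^ (N ^ i)) ∈ uo K w₀ ∧
      ∀ ρ : G, ((logAbs w₀ (ρ • ((∏ i ∈ Finset.range k,
        (act (σ⁻¹ ^ i) x) ^ (N ^ i) : Hˣ) : H)) : ℝ) : ℂ) =
          -(z ρ - (N : ℂ) ^ k * z (σ⁻¹ ^ k * ρ)) := by
    intro k
    induction k with
    | zero =>
      refine ⟨(uo K w₀).one_mem, fun ρ => ?_⟩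
      rw [Finset.prod_range_zero, la_one, pow_zero, one_mul, pow_zero, one_mul, sub_self]
      simp
    | succ k ih =>
      obtain ⟨h1, h2⟩ := ih
      refine ⟨?_, fun ρ => ?_⟩
      · rw [Finset.prod_range_succ]
        exact (uo K w₀).mul_mem h1 ((uo K w₀).pow_mem (uo_act hx _) _)
      · rw [Finset.prod_range_succ, la_mul, la_pow, act_val, smul_smul]
        have h3 := h2 ρ
        have h4 := hz (σ⁻¹ ^ k * ρ)
        rw [← mul_assoc, ← pow_succ'] at h4
        rw [mul_comm ρ, Complex.ofReal_add, Complex.ofReal_mul, h3, Complex.ofReal_natCast,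
          Nat.cast_pow]
        have h5 : ((logAbs w₀ ((σ⁻¹ ^ k * ρ) • (x : H)) : ℝ) : ℂ) =
            -(z (σ⁻¹ ^ k * ρ) - (N : ℂ) * z (σ⁻¹ ^ (k + 1) * ρ)) := by
          rw [h4, neg_neg]
        rw [h5, pow_succ (N : ℂ)]
        ring
  obtain ⟨h1, h2⟩ := hprod (Nat.card G)
  refine ⟨(∏ i ∈ Finset.range (Nat.card G), (act (σ⁻¹ ^ i) x) ^ (N ^ i))⁻¹, N ^ (Nat.card G) - 1,
    ?_, (uo K w₀).inv_mem h1, fun ρ => ?_⟩
  · have h3 : 1 < N ^ (Nat.card G) := Nat.one_lt_pow Nat.card_pos.ne' (by omega)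
    omega
  · rw [la_inv]
    have h3 := h2 ρ
    rw [hσ, one_mul] at h3
    have h4 : 1 ≤ N ^ (Nat.card G) := Nat.one_le_pow _ _ (by omega)
    rw [Nat.cast_sub h4, Complex.ofReal_neg, h3, Nat.cast_pow, Nat.cast_one]
    ring

/-- Stark's conjecture implies the rational version -/
theorem rat_of_sk (z : G → ℂ) (w₀ : InfinitePlace H) (h : SK K z w₀) : SQ K z w₀ := by
  obtain ⟨u, hu, hz, -⟩ := h
  refine ⟨u, Units.torsionOrder H, Units.torsionOrder_pos H, hu, fun ρ => ?_⟩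
  have h1 : (Units.torsionOrder H : ℂ) ≠ 0 := by exact_mod_cast Units.torsionOrder_ne_zero H
  rw [hz ρ]
  field_simp

/-- the bad prime ideals for `L` -/
theorem exists_bad (L : Type) [Field L] [NumberField L] [Algebra K L] :
    ∃ fin : Finset (HeightOneSpectrum (𝓞 K)), ∀ v : HeightOneSpectrum (𝓞 K), v ∉ fin →
      ∀ Q : HeightOneSpectrum (𝓞 L), Q.asIdeal.comap (algebraMap (𝓞 K) (𝓞 L)) = v.asIdeal →
        Q.valuation L ((Units.torsionOrder L : ℕ) : L) = 1 := by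
  have h0 : ((Units.torsionOrder L : ℕ) : L) ≠ 0 := by exact_mod_cast Units.torsionOrder_ne_zero L
  refine ⟨(finite_under (F := K) _ h0).toFinset, fun v hv Q hQ => ?_⟩
  rw [Set.Finite.mem_toFinset] at hv
  by_contra hne
  apply hv
  refine ⟨Q, lt_of_le_of_ne ?_ hne, hQ⟩
  have h1 := Q.valuation_le_one (K := L) ((Units.torsionOrder L : ℕ) : 𝓞 L)
  have h2 : (((Units.torsionOrder L : ℕ) : 𝓞 L) : L) = ((Units.torsionOrder L : ℕ) : L) :=
    map_natCast (algebraMap (𝓞 L) L) _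
  exact (congrArg (fun t : L => Q.valuation L t ≤ 1) h2).mp h1

/-- Stark's conjecture implies the version for almost all `v` -/
theorem ts_of_sk (z : G → ℂ) (w₀ : InfinitePlace H) (bad₀ : Finset (HeightOneSpectrum (𝓞 K)))
    (hsq : ∀ v : HeightOneSpectrum (𝓞 K), v ∉ bad₀ →
      Squarefree (v.asIdeal.map (algebraMap (𝓞 K) (𝓞 H))))
    (σ : HeightOneSpectrum (𝓞 K) → G)
    (hσ : ∀ v : HeightOneSpectrum (𝓞 K), v ∉ bad₀ → IsFrob (H := H) v (σ v)) (h : SK K z w₀) :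
    ∃ fin : Finset (HeightOneSpectrum (𝓞 K)), ∀ v : HeightOneSpectrum (𝓞 K), v ∉ fin →
      TS K z w₀ (σ v) v := by
  classical
  obtain ⟨u, hu, hz, L, _, _, _, _, _, y, hy, -, hab⟩ := h
  have hgal : IsGalois K L := hab.toIsGalois
  have hy0 : y ≠ 0 := by
    rintro rfl
    rw [zero_pow (Units.torsionOrder_ne_zero H)] at hy
    exact u.ne_zero ((map_eq_zero _).mp hy.symm)
  obtain ⟨fin, hfin⟩ := exists_bad (K := K) L
  refine ⟨fin ∪ bad₀, fun v hv => ?_⟩
  rw [Finset.mem_union, not_or] at hv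
  obtain ⟨Q, hQ⟩ := exists_over (L := L) v
  obtain ⟨g, hg⟩ := exists_frob K L v Q hQ
  rw [ts_iff z w₀ u (Units.torsionOrder H) (Units.torsionOrder_pos H) hu ?_ (Units.mk0 y hy0) ?_
    (Units.torsionOrder L) (fun ξ hξ => root_pow ξ hξ) v (hsq v hv.2) (σ v) (hσ v hv.2) Q g
    ⟨hQ, hg⟩ (hfin v hv.1 Q hQ)]
  · rw [mem_cen]
    intro k
    rw [hab.is_comm.comm k g]
  · intro ρ
    have h1 : (Units.torsionOrder H : ℂ) ≠ 0 := by exact_mod_cast Units.torsionOrder_ne_zero H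
    rw [hz ρ]
    field_simp
  · apply Units.ext
    rw [Units.val_pow_eq_pow_val, Units.val_mk0, inj_val]
    exact hy

/-- Stark's conjecture if the Galois group acts commutatively on the conjugates of the root -/
theorem sk_of_top {L : Type} [Field L] [NumberField L] [Algebra H L] [Algebra K L]
    [IsScalarTower K H L] [IsGalois K L] (z : G → ℂ) (w₀ : InfinitePlace H) (u : Hˣ) (m : ℕ)
    (hm : 0 < m) (hu : u ∈ uo K w₀)
    (hz : ∀ ρ : G, (m : ℂ) * z ρ = -(logAbs w₀ (ρ • (u : H)) : ℂ))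
    (y : Lˣ) (hy : y ^ m = inj H L u) (θ : Lˣ) (hθ : orderOf θ = m * Units.torsionOrder H)
    (htop : cen (L ≃ₐ[K] L) (y : L) = ⊤) : SK K z w₀ := by
  obtain ⟨res, hsurj, hres⟩ := exists_res' K H L G
  set e := Units.torsionOrder H with he
  have he0 : 0 < e := Units.torsionOrder_pos H
  have hc : ∀ a b : L ≃ₐ[K] L, um a (um b y) = um b (um a y) := by
    intro a b
    have h1 : b ∈ cen (L ≃ₐ[K] L) (y : L) := by rw [htop]; exact Subgroup.mem_top _
    exact (mem_cen_iff y b).1 h1 a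
  obtain ⟨u', ζ, hζ, hu'⟩ := exists_in_H res hres u m hm y hy hc
  rw [← he] at hu'
  -- an `e`-th root of `ζ`
  obtain ⟨ξ, hξ1, hξ2⟩ : ∃ ξ : Lˣ, ξ ^ e = ζ ∧ IsOfFinOrder ξ := by
    have h1 : IsPrimitiveRoot θ (m * e) := by rw [← hθ]; exact IsPrimitiveRoot.orderOf θ
    have h2 : IsPrimitiveRoot (θ ^ e) m := h1.pow (Nat.mul_pos hm he0) (mul_comm m e)
    have h3 : IsPrimitiveRoot ((θ ^ e : Lˣ) : L) m := (IsPrimitiveRoot.coe_units_iff).2 h2
    have : NeZero m := ⟨hm.ne'⟩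
    obtain ⟨i, -, hi⟩ := h3.eq_pow_of_pow_eq_one (ξ := (ζ : L)) (by
      rw [← Units.val_pow_eq_pow_val, hζ, Units.val_one])
    refine ⟨θ ^ i, ?_, ?_⟩
    · rw [← pow_mul, mul_comm, pow_mul]
      exact Units.ext (by rw [Units.val_pow_eq_pow_val, hi])
    · exact (isOfFinOrder_iff_pow_eq_one.2 ⟨m * e, Nat.mul_pos hm he0, h1.pow_eq_one⟩).pow
  have hpow : u' ^ m = u ^ e := by
    apply inj_injective (H := H) (L := L)
    rw [map_pow, hu', mul_pow, hζ, mul_one, ← pow_mul, mul_comm e m, pow_mul, hy, map_pow]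
  refine ⟨u', ?_, fun ρ => ?_, ?_⟩
  · refine uo_of_pow hm ?_
    rw [hpow]
    exact (uo K w₀).pow_mem hu e
  · have h1 := la_pow w₀ ρ u' m
    rw [hpow, la_pow] at h1
    have h2 : ((e * logAbs w₀ (ρ • (u : H)) : ℝ) : ℂ) =
        ((m * logAbs w₀ (ρ • (u' : H)) : ℝ) : ℂ) := by rw [h1]
    push_cast at h2
    have h3 := hz ρ
    have hm' : (m : ℂ) ≠ 0 := by exact_mod_cast hm.ne'
    have he' : (e : ℂ) ≠ 0 := by exact_mod_cast he0.ne'
    apply mul_left_cancel₀ (mul_ne_zero hm' he')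
    have e1 : (m : ℂ) * e * (-(1 / (e : ℂ)) * (logAbs w₀ (ρ • (u' : H)) : ℂ)) =
        -(m * (logAbs w₀ (ρ • (u' : H)) : ℂ)) := by
      field_simp
    rw [e1, ← h2]
    linear_combination (e : ℂ) * h3
  · obtain ⟨η, hη⟩ := exists_gen L
    have hcξ : cen (L ≃ₐ[K] L) (ξ : L) = ⊤ := by
      rw [eq_top_iff]
      intro a _
      rw [mem_cen_iff]
      intro k
      obtain ⟨i, hi⟩ := exists_kappa η hη a
      obtain ⟨j, hj⟩ := exists_kappa η hη k
      rw [hi ξ hξ2, hj ξ hξ2, map_pow, map_pow, hi ξ hξ2, hj ξ hξ2, ← pow_mul, ← pow_mul, mul_comm]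
    refine abelianRoot_of res hres (u' : H) e ((y * ξ : Lˣ) : L) ?_ ?_
    · rw [← Units.val_pow_eq_pow_val, mul_pow, hξ1, ← hu', inj_val]
    · intro c hcc
      have h1 : c (y : L) = (y : L) := commutator_fix htop c hcc
      have h2 : c (ξ : L) = (ξ : L) := commutator_fix hcξ c hcc
      rw [Units.val_mul, map_mul, h1, h2]

/-- **the main theorem** -/
theorem main (z : G → ℂ) (w₀ : InfinitePlace H) (bad₀ : Finset (HeightOneSpectrum (𝓞 K)))
    (hsq : ∀ v : HeightOneSpectrum (𝓞 K), v ∉ bad₀ →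
      Squarefree (v.asIdeal.map (algebraMap (𝓞 K) (𝓞 H))))
    (σ : HeightOneSpectrum (𝓞 K) → G)
    (hσ : ∀ v : HeightOneSpectrum (𝓞 K), v ∉ bad₀ → IsFrob (H := H) v (σ v)) :
    (¬ SK K z w₀ ∧ ∀ v : HeightOneSpectrum (𝓞 K), ¬ TS K z w₀ (σ v) v) ∨
    ∃ (K' : Type) (_ : Field K') (_ : NumberField K') (_ : Algebra K K')
      (bad : Finset (HeightOneSpectrum (𝓞 K))), IsGalois K K' ∧
      (∀ v : HeightOneSpectrum (𝓞 K), v ∉ bad → (TS K z w₀ (σ v) v ↔ SplitsIn K' v)) ∧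
      Tendsto (fun X : ℕ => (Nat.card {v : HeightOneSpectrum (𝓞 K) //
        TS K z w₀ (σ v) v ∧ Ideal.absNorm v.asIdeal ≤ X} : ℝ) / (Nat.primeCounting X : ℝ))
        atTop (𝓝 (1 / (Module.finrank K K' : ℝ))) ∧
      (SK K z w₀ ↔ Module.finrank K K' = 1) ∧
      (IsCyclic (K' ≃ₐ[K] K') → Module.finrank K K' = 1) ∧
      (Module.finrank K K' = 1 ∨ 4 ≤ Module.finrank K K') := by
  classical
  by_cases hQ : SQ K z w₀
  · right
    obtain ⟨u, m, hm, hu, hz⟩ := hQ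
    obtain ⟨L, _, _, _, _, _, hgal, ⟨θ, hθ⟩, hroot⟩ := exists_field K H m
      (m * Units.torsionOrder H) hm (Nat.mul_pos hm (Units.torsionOrder_pos H)) {u}
    obtain ⟨y, hy⟩ := hroot u (Subgroup.subset_closure (by simp))
    obtain ⟨fin, hfin⟩ := exists_bad (K := K) L
    let Γ₀ : Subgroup (L ≃ₐ[K] L) := cen (L ≃ₐ[K] L) (y : L)
    have hR : ∀ v : HeightOneSpectrum (𝓞 K), v ∉ fin ∪ bad₀ → ∀ (Q : HeightOneSpectrum (𝓞 L))
        (g : L ≃ₐ[K] L), FrobAt v Q g → (TS K z w₀ (σ v) v ↔ g ∈ Γ₀) := by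
      intro v hv Q g hg
      rw [Finset.mem_union, not_or] at hv
      exact ts_iff z w₀ u m hm hu hz y hy (Units.torsionOrder L) (fun ξ hξ => root_pow ξ hξ) v
        (hsq v hv.2) (σ v) (hσ v hv.2) Q g hg (hfin v hv.1 Q hg.1)
    have hnorm : Γ₀.Normal := cen_normal _
    obtain ⟨bad', hbad'⟩ := split_iff hR
    have hdens := density_of hR
    rw [← finrank_fixed] at hdens
    have hiff : SK K z w₀ ↔ Γ₀ = ⊤ := by
      constructor
      · intro h
        obtain ⟨fin', hfin'⟩ := ts_of_sk z w₀ bad₀ hsq σ hσ h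
        exact top_iff hR fin' hfin'
      · intro h
        exact sk_of_top z w₀ u m hm hu hz y hy θ hθ h
    refine ⟨IntermediateField.fixedField Γ₀, inferInstance, inferInstance, inferInstance, bad',
      IsGalois.of_fixedField_normal_subgroup Γ₀, hbad', hdens, ?_, ?_, ?_⟩
    · rw [finrank_fixed, Subgroup.index_eq_one]
      exact hiff
    · intro hcyc
      rw [finrank_fixed, Subgroup.index_eq_one]
      have e := IsGalois.normalAutEquivQuotient Γ₀
      exact cen_top_of_cyclic _ (isCyclic_of_injective e.toMonoidHom e.injective)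
    · rw [finrank_fixed]
      exact cen_index _
  · left
    exact ⟨fun h => hQ (rat_of_sk z w₀ h), fun v h => hQ (rat_of_ts z w₀ (σ v) v h)⟩

end Pool.Agent.J6H32.SR
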