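import Mathlib

/-!
# The elements which commute with a group on an orbit
-/

set_option autoImplicit false

namespace Pool.Agent.J6H32.SR

open scoped commutatorElement

variable {Γ X : Type} [Group Γ] [MulAction Γ X]

theorem cen_orbit {y : X} {a : Γ} (ha : ∀ g : Γ, (g * a) • y = (a * g) • y) (g k : Γ) :
    (g * a * k) • y = (a * g * k) • y := by
  calc (g * a * k) • y = g • (a * k) • y := by rw [mul_assoc, mul_smul]
    _ = g • (k * a) • y := by rw [ha k]
    _ = (g * k * a) • y := by rw [← mul_smul, mul_assoc]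
    _ = (a * g * k) • y := by rw [ha (g * k), mul_assoc]

/-- the subgroup of the elements which commute with `Γ` on the orbit of `y` -/
def cen (Γ : Type) {X : Type} [Group Γ] [MulAction Γ X] (y : X) : Subgroup Γ where
  carrier := {a | ∀ g : Γ, (g * a) • y = (a * g) • y}
  one_mem' := fun g => by rw [mul_one, one_mul]
  mul_mem' := by
    intro a b ha hb g
    calc (g * (a * b)) • y = g • (a * b) • y := by rw [mul_smul]
      _ = g • (b * a) • y := by rw [← ha b]
      _ = (g * b * a) • y := by rw [← mul_smul, mul_assoc]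
      _ = (a * (g * b)) • y := ha (g * b)
      _ = a • (b * g) • y := by rw [mul_smul, hb g]
      _ = (a * b * g) • y := by rw [← mul_smul, mul_assoc]
  inv_mem' := by
    intro a ha g
    have h := cen_orbit ha g a⁻¹
    rw [mul_inv_cancel_right] at h
    calc (g * a⁻¹) • y = a⁻¹ • (a * g * a⁻¹) • y := by
          rw [← mul_smul]; congr 1; group
      _ = a⁻¹ • g • y := by rw [← h]
      _ = (a⁻¹ * g) • y := by rw [mul_smul]

theorem mem_cen {y : X} {a : Γ} : a ∈ cen Γ y ↔ ∀ g : Γ, (g * a) • y = (a * g) • y := Iff.rfl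

instance cen_normal (y : X) : (cen Γ y).Normal := by
  constructor
  intro a ha k
  rw [mem_cen] at ha ⊢
  have h1 : (k * a * k⁻¹) • y = a • y := by
    calc (k * a * k⁻¹) • y = k • (a * k⁻¹) • y := by rw [← mul_smul, mul_assoc]
      _ = k • (k⁻¹ * a) • y := by rw [ha k⁻¹]
      _ = a • y := by rw [← mul_smul]; congr 1; group
  intro g
  calc (g * (k * a * k⁻¹)) • y = g • (k * a * k⁻¹) • y := by rw [mul_smul]
    _ = (g * a) • y := by rw [h1, mul_smul]
    _ = (k * (k⁻¹ * g * a)) • y := by congr 1; group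
    _ = k • (a * (k⁻¹ * g)) • y := by rw [mul_smul, ha (k⁻¹ * g)]
    _ = (k * a * k⁻¹ * g) • y := by rw [← mul_smul]; congr 1; group

/-- the quotient is cyclic only if it is trivial -/
theorem cen_top_of_cyclic (y : X) (h : IsCyclic (Γ ⧸ cen Γ y)) : cen Γ y = ⊤ := by
  obtain ⟨t', ht'⟩ := h.exists_generator
  obtain ⟨t, rfl⟩ := QuotientGroup.mk_surjective t'
  have hdec : ∀ g : Γ, ∃ (i : ℤ) (a : Γ), a ∈ cen Γ y ∧ g = t ^ i * a := by
    intro g
    obtain ⟨i, hi⟩ := Subgroup.mem_zpowers_iff.mp (ht' (g : Γ ⧸ cen Γ y))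
    refine ⟨i, (t ^ i)⁻¹ * g, ?_, by group⟩
    rw [← QuotientGroup.eq]
    exact hi
  rw [eq_top_iff]
  intro h' _
  rw [mem_cen]
  intro g
  obtain ⟨i, a, ha, rfl⟩ := hdec g
  obtain ⟨j, b, hb, rfl⟩ := hdec h'
  have key : ∀ (i j : ℤ) (a b : Γ), a ∈ cen Γ y →
      (t ^ i * a * (t ^ j * b)) • y = (t ^ (i + j) * (a * b)) • y := by
    intro i j a b ha
    have h1 := cen_orbit (mem_cen.1 ha) (t ^ j) b
    calc (t ^ i * a * (t ^ j * b)) • y = t ^ i • (a * t ^ j * b) • y := by
          rw [← mul_smul]; congr 1; group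
      _ = t ^ i • (t ^ j * a * b) • y := by rw [← h1]
      _ = (t ^ (i + j) * (a * b)) • y := by
          rw [← mul_smul, zpow_add]; congr 1; group
  rw [key i j a b ha, key j i b a hb, add_comm j i, mul_smul, mul_smul (t ^ (i + j))]
  congr 1
  exact mem_cen.1 hb a

theorem cen_index [Finite Γ] (y : X) : (cen Γ y).index = 1 ∨ 4 ≤ (cen Γ y).index := by
  have h0 : (cen Γ y).index ≠ 0 := Subgroup.index_ne_zero_of_finite
  have hp : ∀ p : ℕ, p.Prime → (cen Γ y).index = p → (cen Γ y).index = 1 := by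
    intro p hp h
    have : Fact p.Prime := ⟨hp⟩
    have hc : IsCyclic (Γ ⧸ cen Γ y) := isCyclic_of_prime_card (p := p) (by
      rw [← h]; rfl)
    rw [cen_top_of_cyclic y hc]
    exact Subgroup.index_top
  rcases Nat.lt_or_ge (cen Γ y).index 4 with h | h
  · left
    have h2 : (cen Γ y).index = 1 ∨ (cen Γ y).index = 2 ∨ (cen Γ y).index = 3 := by omega
    rcases h2 with h2 | h2 | h2
    · exact h2
    · exact hp 2 Nat.prime_two h2
    · exact hp 3 Nat.prime_three h2
  · exact Or.inr h

/-- if all elements commute on the orbit then the commutators fix `y` -/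
theorem commutator_fix {y : X} (h : cen Γ y = ⊤) (c : Γ) (hc : c ∈ commutator Γ) : c • y = y := by
  have h1 : commutator Γ ≤ MulAction.stabilizer Γ y := by
    rw [commutator_eq_closure, Subgroup.closure_le]
    rintro _ ⟨a, b, rfl⟩
    change ⁅a, b⁆ • y = y
    have ha : a ∈ cen Γ y := by rw [h]; exact Subgroup.mem_top _
    have h2 := cen_orbit (mem_cen.1 ha) b (a⁻¹ * b⁻¹)
    have h3 : ⁅a, b⁆ • y = (b * a * (a⁻¹ * b⁻¹)) • y := by
      rw [h2]; congr 1; rw [commutatorElement_def]; group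
    rw [h3]
    have h4 : b * a * (a⁻¹ * b⁻¹) = 1 := by group
    rw [h4, one_smul]
  exact h1 hc

end Pool.Agent.J6H32.SR
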