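import Pool.Agent.J6H32.SR.Core

/-!
# The rank one Stark conjecture: the version for `v` holds iff the Frobenius automorphism is central
-/

set_option autoImplicit false
set_option linter.unusedSectionVars false

open NumberField IsDedekindDomain Filter Topology

noncomputable section

namespace Pool.Agent.J6H32.SR

open Pool.Agent.K3h30.RS Pool.Agent.K3h8.RS Pool.Agent.J6H32.RU

variable {K H L G : Type} [Field K] [NumberField K] [Field H] [NumberField H] [Algebra K H]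
  [Field L] [NumberField L] [Algebra H L] [Algebra K L] [IsScalarTower K H L]
  [CommGroup G] [Finite G] [MulSemiringAction G H] [hG : IsGaloisGroup G K H]

variable (K H L G) in
/-- restriction of automorphisms -/
theorem exists_res' [IsGalois K L] : ∃ res : (L ≃ₐ[K] L) →* G, Function.Surjective res ∧
    ∀ (g : L ≃ₐ[K] L) (x : H), g (algebraMap H L x) = algebraMap H L (res g • x) := by
  have hgal : IsGalois K H := IsGaloisGroup.isGalois G K H
  have hn : Normal K L := inferInstance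
  refine ⟨(IsGaloisGroup.mulEquivAlgEquiv G K H).symm.toMonoidHom.comp
    (AlgEquiv.restrictNormalHom H), ?_, fun g x => ?_⟩
  · exact (IsGaloisGroup.mulEquivAlgEquiv G K H).symm.surjective.comp
      (AlgEquiv.restrictNormalHom_surjective L)
  have h1 : ∀ e : H ≃ₐ[K] H, ((IsGaloisGroup.mulEquivAlgEquiv G K H).symm e) • x = e x := by
    intro e
    have h2 := DFunLike.congr_fun ((IsGaloisGroup.mulEquivAlgEquiv G K H).apply_symm_apply e) x
    exact h2
  change _ = algebraMap H L ((IsGaloisGroup.mulEquivAlgEquiv G K H).symm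
    (AlgEquiv.restrictNormalHom H g) • x)
  rw [h1]
  exact (AlgEquiv.restrictNormal_commutes g H x).symm

/-- the action of an automorphism on the units -/
def um (g : L ≃ₐ[K] L) : Lˣ →* Lˣ := Units.map ((g : L →+* L) : L →* L)

theorem um_val (g : L ≃ₐ[K] L) (x : Lˣ) : ((um g x : Lˣ) : L) = g (x : L) := rfl

theorem um_mul (g h : L ≃ₐ[K] L) (x : Lˣ) : um (g * h) x = um g (um h x) := rfl

/-- the units of `H` in `L` -/
def inj (H L : Type) [Field H] [Field L] [Algebra H L] : Hˣ →* Lˣ :=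
  Units.map (algebraMap H L : H →* L)

theorem inj_val (x : Hˣ) : ((inj H L x : Lˣ) : L) = algebraMap H L (x : H) := rfl

theorem inj_injective : Function.Injective (inj H L) := by
  intro x y h
  apply Units.ext
  apply (algebraMap H L).injective
  rw [← inj_val, ← inj_val, h]

theorem act_inv' (γ : G) (x : Hˣ) : act γ (x⁻¹) = (act γ x)⁻¹ := map_inv _ _

theorem um_one (y : Lˣ) : um (1 : L ≃ₐ[K] L) y = y := Units.ext rfl

theorem act_quot (u : Hˣ) (σ ρ : G) (N : ℕ) : ρ • ((u * ((act σ⁻¹ u) ^ N)⁻¹ : Hˣ) : H) =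
    ((act ρ u : Hˣ) : H) * ((((act (σ⁻¹ * ρ) u) ^ N)⁻¹ : Hˣ) : H) := by
  have e : act ρ (u * ((act σ⁻¹ u) ^ N)⁻¹) = act ρ u * ((act (σ⁻¹ * ρ) u) ^ N)⁻¹ := by
    rw [act_map_mul, act_inv', act_pow, mul_comm σ⁻¹ ρ, act_mul]
  rw [← Units.val_mul, ← e]
  rfl

theorem um_inj (res : (L ≃ₐ[K] L) →* G)
    (hres : ∀ (g : L ≃ₐ[K] L) (x : H), g (algebraMap H L x) = algebraMap H L (res g • x))
    (g : L ≃ₐ[K] L) (x : Hˣ) : um g (inj H L x) = inj H L (act (res g) x) := by
  apply Units.ext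
  rw [um_val, inj_val, inj_val, hres, act_val]

/-- the condition on the Frobenius automorphism -/
theorem mem_cen_iff (y : Lˣ) (g : L ≃ₐ[K] L) :
    g ∈ cen (L ≃ₐ[K] L) (y : L) ↔ ∀ k : L ≃ₐ[K] L, um k (um g y) = um g (um k y) := by
  rw [mem_cen]
  refine forall_congr' fun k => ?_
  constructor
  · intro h
    apply Units.ext
    exact h
  · intro h
    exact congrArg Units.val h

/-- **The version for `v` and the Frobenius automorphism.** -/
theorem ts_iff [IsGalois K L] (z : G → ℂ) (w₀ : InfinitePlace H) (u : Hˣ) (m : ℕ) (hm : 0 < m)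
    (hu : u ∈ uo K w₀) (hz : ∀ ρ : G, (m : ℂ) * z ρ = -(logAbs w₀ (ρ • (u : H)) : ℂ))
    (y : Lˣ) (hy : y ^ m = inj H L u) (M : ℕ)
    (hroot : ∀ ξ : Lˣ, (∃ n : ℕ, 0 < n ∧ ξ ^ n = 1) → ξ ^ M = 1)
    (v : HeightOneSpectrum (𝓞 K)) (hsq : Squarefree (v.asIdeal.map (algebraMap (𝓞 K) (𝓞 H))))
    (σ : G) (hσ : IsFrob (H := H) v σ) (Q : HeightOneSpectrum (𝓞 L))
    (g : L ≃ₐ[K] L) (hg : FrobAt v Q g) (hQM : Q.valuation L (M : L) = 1) :
    TS K z w₀ σ v ↔ g ∈ cen (L ≃ₐ[K] L) (y : L) := by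
  obtain ⟨hQ, hgf⟩ := hg
  obtain ⟨w', hQw, hw'⟩ := exists_under K H L v Q hQ
  have hab : Above {v} w' := above_singleton.2 hw'
  obtain ⟨res, hsurj, hres⟩ := exists_res' K H L G
  have hUI := um_inj res hres
  obtain ⟨htr1, htr2⟩ := Pool.Agent.K3h25.RS.t_TRANS K H G v w' hab
  have hfaith : FaithfulSMul G H := IsGaloisGroup.faithful K
  have hrσ : res g = σ := by
    refine FaithfulSMul.eq_of_smul_eq_smul (α := H) fun x => ?_
    have h1 := Pool.Agent.K3h8.RS.restrict v w' hw' hsq Q hQw g hgf σ (hσ w' hab) x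
    rw [hres] at h1
    exact (algebraMap H L).injective h1
  set N := Ideal.absNorm v.asIdeal with hN
  -- units at `Q`
  have hHu : ∀ x : Hˣ, x ∈ uo K w₀ → inj H L x ∈ unitsAt Q := by
    intro x hx
    exact val_eq w' Q hQw _ (hx.2 w')
  have hyk : ∀ k : L ≃ₐ[K] L, um k y ∈ unitsAt Q := by
    intro k
    have h1 : (um k y) ^ m = inj H L (act (res k) u) := by
      rw [← map_pow, hy, hUI]
    have h2 := hHu _ (uo_act hu (res k))
    rw [← h1] at h2
    change Q.valuation L (((um k y) ^ m : Lˣ) : L) = 1 at h2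
    rw [Units.val_pow_eq_pow_val, map_pow] at h2
    exact (pow_eq_one_iff_of_nonneg zero_le hm.ne').mp h2
  have hfr : ∀ t : Lˣ, t ∈ unitsAt Q → um g t * (t ^ N)⁻¹ ∈ K1 Q :=
    fun t ht => frobK Q (g : L →+* L) N hgf t ht
  have hone : ∀ ξ : Lˣ, (∃ n : ℕ, 0 < n ∧ ξ ^ n = 1) → ξ ∈ K1 Q → ξ = 1 :=
    fun ξ h1 h2 => root_eq_one Q M hQM ξ (hroot ξ h1) h2
  -- congruences
  have hcong : ∀ (γ : G) (x : Hˣ), (w'.valuation H (γ • (x : H) - 1) < 1) ↔
      inj H L (act γ x) ∈ K1 Q := by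
    intro γ x
    rw [mem_K1, inj_val, act_val, ← map_one (algebraMap H L), ← map_sub, val_lt_iff w' Q hQw]
  have hpowc : ∀ k : L ≃ₐ[K] L, (um g (um k y) * ((um k y) ^ N)⁻¹) ^ m =
      um k ((um g y * (y ^ N)⁻¹) ^ m) := by
    intro k
    have e1 : (um g (um k y)) ^ m = inj H L (act (σ * res k) u) := by
      rw [← map_pow, ← map_pow, hy, hUI, hUI, hrσ, act_mul]
    have e2 : (um k y) ^ m = inj H L (act (res k) u) := by
      rw [← map_pow, hy, hUI]
    have e3 : (um g y) ^ m = inj H L (act σ u) := by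
      rw [← map_pow, hy, hUI, hrσ]
    rw [mul_pow, inv_pow, ← pow_mul, mul_comm N m, pow_mul, e1, e2, mul_pow, inv_pow, ← pow_mul,
      mul_comm N m, pow_mul, e3, hy, map_mul, map_inv, map_pow, hUI, hUI, mul_comm σ, act_mul]
  constructor
  · rintro ⟨x, hx, hxv, hxz⟩
    -- the element `x' = σ x`
    have hfin : ∃ n : ℕ, 0 < n ∧ (x ^ m * (u * ((act σ⁻¹ u) ^ N)⁻¹)⁻¹) ^ n = 1 := by
      refine unique_tors (G := G) (w₀ := w₀) ((uo K w₀).pow_mem hx m) ((uo K w₀).mul_mem hu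
        ((uo K w₀).inv_mem ((uo K w₀).pow_mem (uo_act hu σ⁻¹) N))) ?_
      intro ρ
      have e1 : ρ • ((x ^ m : Hˣ) : H) = (ρ • (x : H)) ^ m := by
        rw [Units.val_pow_eq_pow_val, smul_pow']
      have e2 := act_quot u σ ρ N
      rw [e1, logAbs_pow, e2, logAbs_mul, Units.val_inv_eq_inv_val, logAbs_inv,
        Units.val_pow_eq_pow_val, logAbs_pow, act_val, act_val]
      have h1 := hxz ρ
      have h2 := hz ρ
      have h3 := hz (σ⁻¹ * ρ)
      have h4 : ((m * logAbs w₀ (ρ • (x : H)) : ℝ) : ℂ) =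
          ((logAbs w₀ (ρ • (u : H)) + -(N * logAbs w₀ ((σ⁻¹ * ρ) • (u : H))) : ℝ) : ℂ) := by
        push_cast
        linear_combination (m : ℂ) * h1 - h2 + (N : ℂ) * h3
      exact_mod_cast h4
    have hx'1 : ∀ γ : G, inj H L (act γ x) ∈ K1 Q := by
      intro γ
      rw [← hcong]
      obtain ⟨P, hP, hPγ⟩ := htr1 γ
      rw [← smul_one γ, ← smul_sub, ← hPγ]
      exact hxv P (above_singleton.1 hP)
    have hc0 : um g y * (y ^ N)⁻¹ = inj H L (act σ x) := by
      have h1 := hfr y (by have h0 := hyk 1; rwa [um_one] at h0)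
      have h2 := (K1 Q).mul_mem h1 ((K1 Q).inv_mem (hx'1 σ))
      have h3 := hone _ ?_ h2
      · rwa [mul_inv_eq_one] at h3
      · obtain ⟨n, hn, h4⟩ := hfin
        refine ⟨m * n, Nat.mul_pos hm hn, ?_⟩
        have h5 : ((um g y * (y ^ N)⁻¹) * (inj H L (act σ x))⁻¹) ^ m =
            inj H L (act σ ((x ^ m * (u * ((act σ⁻¹ u) ^ N)⁻¹)⁻¹)⁻¹)) := by
          have e3 : (um g y) ^ m = inj H L (act σ u) := by
            rw [← map_pow, hy, hUI, hrσ]
          have e4 : act σ ((x ^ m * (u * ((act σ⁻¹ u) ^ N)⁻¹)⁻¹)⁻¹) =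
              act σ u * (u ^ N)⁻¹ * (act σ x ^ m)⁻¹ := by
            have e5 : ∀ a b : Hˣ, act σ (a * b) = act σ a * act σ b := act_map_mul σ
            have e6 : ∀ a : Hˣ, act σ (a⁻¹) = (act σ a)⁻¹ := fun a => map_inv _ _
            have e7 : act σ (act σ⁻¹ u) = u := by rw [← act_mul, mul_inv_cancel, act_one]
            rw [mul_inv_rev, inv_inv, e5, e5, e6, e6, act_pow, act_pow, e7]
          rw [e4, mul_pow, mul_pow, inv_pow, inv_pow, ← pow_mul, mul_comm N m, pow_mul, hy, e3,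
            map_mul, map_mul, map_inv, map_inv, map_pow, map_pow]
        rw [pow_mul, h5, ← map_pow, ← act_pow, inv_pow, h4, inv_one, act_map_one, map_one]
    rw [mem_cen_iff]
    intro k
    have h1 := hfr _ (hyk k)
    have hkc : um k (um g y * (y ^ N)⁻¹) ∈ K1 Q := by
      rw [hc0, hUI, ← act_mul]
      exact hx'1 _
    have h2 := hone _ ?_ ((K1 Q).mul_mem h1 ((K1 Q).inv_mem hkc))
    · rw [mul_inv_eq_one, map_mul, map_inv, map_pow] at h2
      have h3 := mul_right_cancel h2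
      exact h3.symm
    · refine ⟨m, hm, ?_⟩
      rw [mul_pow, hpowc, inv_pow, ← map_pow, mul_inv_cancel]
  · intro hgc
    rw [mem_cen_iff] at hgc
    set c₀ : Lˣ := um g y * (y ^ N)⁻¹ with hc₀
    have hkc : ∀ k : L ≃ₐ[K] L, um k c₀ = um g (um k y) * ((um k y) ^ N)⁻¹ := by
      intro k
      rw [hc₀, map_mul, map_inv, map_pow, hgc]
    have hkK : ∀ k : L ≃ₐ[K] L, um k c₀ ∈ K1 Q := by
      intro k
      rw [hkc]
      exact hfr _ (hyk k)
    -- `c₀` is in `H`
    have hfix : ∀ k : L ≃ₐ[K] L, res k = 1 → um k c₀ = c₀ := by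
      intro k hk
      obtain ⟨ξ, hξ⟩ : ∃ ξ : Lˣ, um k y = ξ * y := ⟨um k y * y⁻¹, by group⟩
      have hξm : ξ ^ m = 1 := by
        have h1 : (um k y) ^ m = y ^ m := by
          rw [← map_pow, hy, hUI, hk, act_one]
        rw [hξ, mul_pow] at h1
        exact mul_eq_right.mp h1
      have hξ1 : um g ξ = ξ ^ N := by
        have h1 : um g ξ * (ξ ^ N)⁻¹ ∈ K1 Q := by
          refine hfr _ ?_
          have h2 : (Q.valuation L (ξ : L)) ^ m = 1 := by
            rw [← map_pow, ← Units.val_pow_eq_pow_val, hξm, Units.val_one, map_one]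
          exact (pow_eq_one_iff_of_nonneg zero_le hm.ne').mp h2
        have h3 := hone _ ⟨m, hm, by
          rw [mul_pow, ← map_pow, hξm, map_one, inv_pow, ← pow_mul, mul_comm N m, pow_mul, hξm, one_pow,
            inv_one, one_mul]⟩ h1
        rwa [mul_inv_eq_one] at h3
      rw [hkc, hξ, map_mul, hξ1, mul_pow, hc₀, mul_inv, mul_mul_mul_comm, mul_inv_cancel, one_mul]
    have hgalH : IsGalois H L := IsGalois.tower_top_of_isGalois K H L
    obtain ⟨c, hc⟩ : ∃ c : Hˣ, inj H L c = c₀ := by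
      have h1 : (c₀ : L) ∈ (⊥ : IntermediateField H L) := by
        rw [IsGalois.mem_bot_iff_fixed]
        intro f
        have h2 := hfix (f.restrictScalars K) ?_
        · exact congrArg Units.val h2
        · refine FaithfulSMul.eq_of_smul_eq_smul (α := H) fun x => ?_
          apply (algebraMap H L).injective
          rw [← hres, one_smul]
          exact f.commutes x
      rw [IntermediateField.mem_bot] at h1
      obtain ⟨a, ha⟩ := h1
      have ha0 : a ≠ 0 := by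
        rintro rfl
        rw [map_zero] at ha
        exact c₀.ne_zero ha.symm
      refine ⟨Units.mk0 a ha0, ?_⟩
      apply Units.ext
      rw [inj_val, Units.val_mk0, ha]
    have hcm : c ^ m = act σ u * (u ^ N)⁻¹ := by
      apply inj_injective (H := H) (L := L)
      rw [map_pow, hc, hc₀, mul_pow, inv_pow, ← pow_mul, mul_comm N m, pow_mul, hy, ← map_pow, hy,
        hUI, hrσ, map_mul, map_inv, map_pow]
    have hxm : (act σ⁻¹ c) ^ m = u * ((act σ⁻¹ u) ^ N)⁻¹ := by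
      have e5 : ∀ a b : Hˣ, act σ⁻¹ (a * b) = act σ⁻¹ a * act σ⁻¹ b := act_map_mul σ⁻¹
      have e6 : ∀ a : Hˣ, act σ⁻¹ (a⁻¹) = (act σ⁻¹ a)⁻¹ := fun a => map_inv _ _
      rw [← act_pow, hcm, e5, e6, act_pow, ← act_mul, inv_mul_cancel, act_one]
    have hxu : act σ⁻¹ c ∈ uo K w₀ := by
      refine uo_of_pow hm ?_
      rw [hxm]
      exact (uo K w₀).mul_mem hu ((uo K w₀).inv_mem ((uo K w₀).pow_mem (uo_act hu σ⁻¹) N))
    refine ⟨act σ⁻¹ c, hxu, ?_, ?_⟩
    · intro P hP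
      obtain ⟨γ, hγ⟩ := htr2 P (above_singleton.2 hP)
      rw [hγ, smul_sub, smul_one, hcong, ← act_mul]
      obtain ⟨k, hk⟩ := hsurj (γ * σ⁻¹)
      rw [← hk, ← hUI, hc]
      exact hkK k
    · intro ρ
      have hm' : (m : ℂ) ≠ 0 := by exact_mod_cast hm.ne'
      have h1 : (m : ℂ) * (logAbs w₀ (ρ • ((act σ⁻¹ c : Hˣ) : H)) : ℂ) =
          (logAbs w₀ (ρ • (u : H)) : ℂ) - N * (logAbs w₀ ((σ⁻¹ * ρ) • (u : H)) : ℂ) := by
        have e1 : ρ • (((act σ⁻¹ c) ^ m : Hˣ) : H) = (ρ • ((act σ⁻¹ c : Hˣ) : H)) ^ m := by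
          rw [Units.val_pow_eq_pow_val, smul_pow']
        have e2 := act_quot u σ ρ N
        have h2 := logAbs_pow w₀ (ρ • ((act σ⁻¹ c : Hˣ) : H)) m
        rw [← e1, hxm, e2, logAbs_mul, Units.val_inv_eq_inv_val, logAbs_inv,
          Units.val_pow_eq_pow_val, logAbs_pow, act_val, act_val] at h2
        have h3 : ((m * logAbs w₀ (ρ • ((act σ⁻¹ c : Hˣ) : H)) : ℝ) : ℂ) =
            ((logAbs w₀ (ρ • (u : H)) + -(N * logAbs w₀ ((σ⁻¹ * ρ) • (u : H))) : ℝ) : ℂ) := by
          rw [← h2]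
        push_cast at h3
        rw [h3]
        ring
      have h2 := hz ρ
      have h3 := hz (σ⁻¹ * ρ)
      apply mul_left_cancel₀ hm'
      linear_combination h2 - (N : ℂ) * h3 + h1

end Pool.Agent.J6H32.SR
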