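import Pool.Agent.J6H32.SR.Main
import Pool.Agent.J6H32.RU.Fin

/-!
# The version for `v` of a group of units, without logarithms
-/

set_option autoImplicit false
set_option linter.unusedSectionVars false

open NumberField IsDedekindDomain Filter Topology

noncomputable section

namespace Pool.Agent.J6H32.SR

open Pool.Agent.K3h30.RS Pool.Agent.K3h8.RS Pool.Agent.J6H32.RU

variable {K H L G : Type} [Field K] [NumberField K] [Field H] [NumberField H] [Algebra K H]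
  [Field L] [NumberField L] [Algebra H L] [Algebra K L] [IsScalarTower K H L]
  [CommGroup G] [Finite G] [MulSemiringAction G H] [hG : IsGaloisGroup G K H]

/-- **The version for `v` of a group of units and the Frobenius automorphism.** -/
theorem core_iff [IsGalois K L] (𝒰 : Subgroup Hˣ)
    (hact : ∀ (γ : G) (x : Hˣ), x ∈ 𝒰 → act γ x ∈ 𝒰)
    (hsat : ∀ (n : ℕ) (x : Hˣ), 0 < n → x ^ n ∈ 𝒰 → x ∈ 𝒰)
    (u : Hˣ) (m : ℕ) (hm : 0 < m) (hu : u ∈ 𝒰)
    (y : Lˣ) (hy : y ^ m = inj H L u) (M : ℕ)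
    (hroot : ∀ ξ : Lˣ, (∃ n : ℕ, 0 < n ∧ ξ ^ n = 1) → ξ ^ M = 1)
    (v : HeightOneSpectrum (𝓞 K)) (hsq : Squarefree (v.asIdeal.map (algebraMap (𝓞 K) (𝓞 H))))
    (σ : G) (hσ : IsFrob (H := H) v σ) (Q : HeightOneSpectrum (𝓞 L))
    (g : L ≃ₐ[K] L) (hg : FrobAt v Q g) (hQM : Q.valuation L (M : L) = 1)
    (hunit : ∀ x : Hˣ, x ∈ 𝒰 → ∀ w : HeightOneSpectrum (𝓞 H),
      w.asIdeal.comap (algebraMap (𝓞 K) (𝓞 H)) = v.asIdeal → w.valuation H (x : H) = 1) :
    (∃ x : Hˣ, x ∈ 𝒰 ∧ (∀ P : HeightOneSpectrum (𝓞 H),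
      P.asIdeal.comap (algebraMap (𝓞 K) (𝓞 H)) = v.asIdeal → P.valuation H ((x : H) - 1) < 1) ∧
      ∃ n : ℕ, 0 < n ∧
        (x ^ m * (u * ((act σ⁻¹ u) ^ (Ideal.absNorm v.asIdeal))⁻¹)⁻¹) ^ n = 1) ↔
    g ∈ cen (L ≃ₐ[K] L) (y : L) := by
  obtain ⟨hQ, hgf⟩ := hg
  obtain ⟨w', hQw, hw'⟩ := exists_under K H L v Q hQ
  have hab : Above {v} w' := above_singleton.2 hw'
  obtain ⟨res, hsurj, hres⟩ := exists_res' K H L G
  have hUI := um_inj res hres
  obtain ⟨htr1, htr2⟩ := Pool.Agent.K3h25.RS.t_TRANS K H G v w' hab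
  have hfaith : FaithfulSMul G H := IsGaloisGroup.faithful K
  have hrσ : res g = σ := by
    refine FaithfulSMul.eq_of_smul_eq_smul (α := H) fun x => ?_
    have h1 := Pool.Agent.K3h8.RS.restrict v w' hw' hsq Q hQw g hgf σ (hσ w' hab) x
    rw [hres] at h1
    exact (algebraMap H L).injective h1
  set N := Ideal.absNorm v.asIdeal with hN
  -- units at `Q`
  have hHu : ∀ x : Hˣ, x ∈ 𝒰 → inj H L x ∈ unitsAt Q := by
    intro x hx
    exact val_eq w' Q hQw _ (hunit x hx w' hw')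
  have hyk : ∀ k : L ≃ₐ[K] L, um k y ∈ unitsAt Q := by
    intro k
    have h1 : (um k y) ^ m = inj H L (act (res k) u) := by
      rw [← map_pow, hy, hUI]
    have h2 := hHu _ (hact (res k) u hu)
    rw [← h1] at h2
    change Q.valuation L (((um k y) ^ m : Lˣ) : L) = 1 at h2
    rw [Units.val_pow_eq_pow_val, map_pow] at h2
    exact (pow_eq_one_iff_of_nonneg zero_le hm.ne').mp h2
  have hfr : ∀ t : Lˣ, t ∈ unitsAt Q → um g t * (t ^ N)⁻¹ ∈ K1 Q :=
    fun t ht => frobK Q (g : L →+* L) N hgf t ht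
  have hone : ∀ ξ : Lˣ, (∃ n : ℕ, 0 < n ∧ ξ ^ n = 1) → ξ ∈ K1 Q → ξ = 1 :=
    fun ξ h1 h2 => root_eq_one Q M hQM ξ (hroot ξ h1) h2
  -- congruences
  have hcong : ∀ (γ : G) (x : Hˣ), (w'.valuation H (γ • (x : H) - 1) < 1) ↔
      inj H L (act γ x) ∈ K1 Q := by
    intro γ x
    rw [mem_K1, inj_val, act_val, ← map_one (algebraMap H L), ← map_sub, val_lt_iff w' Q hQw]
  have hpowc : ∀ k : L ≃ₐ[K] L, (um g (um k y) * ((um k y) ^ N)⁻¹) ^ m =
      um k ((um g y * (y ^ N)⁻¹) ^ m) := by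
    intro k
    have e1 : (um g (um k y)) ^ m = inj H L (act (σ * res k) u) := by
      rw [← map_pow, ← map_pow, hy, hUI, hUI, hrσ, act_mul]
    have e2 : (um k y) ^ m = inj H L (act (res k) u) := by
      rw [← map_pow, hy, hUI]
    have e3 : (um g y) ^ m = inj H L (act σ u) := by
      rw [← map_pow, hy, hUI, hrσ]
    rw [mul_pow, inv_pow, ← pow_mul, mul_comm N m, pow_mul, e1, e2, mul_pow, inv_pow, ← pow_mul,
      mul_comm N m, pow_mul, e3, hy, map_mul, map_inv, map_pow, hUI, hUI, mul_comm σ, act_mul]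
  constructor
  · rintro ⟨x, hx, hxv, hfin⟩
    have hx'1 : ∀ γ : G, inj H L (act γ x) ∈ K1 Q := by
      intro γ
      rw [← hcong]
      obtain ⟨P, hP, hPγ⟩ := htr1 γ
      rw [← smul_one γ, ← smul_sub, ← hPγ]
      exact hxv P (above_singleton.1 hP)
    have hc0 : um g y * (y ^ N)⁻¹ = inj H L (act σ x) := by
      have h1 := hfr y (by have h0 := hyk 1; rwa [um_one] at h0)
      have h2 := (K1 Q).mul_mem h1 ((K1 Q).inv_mem (hx'1 σ))
      have h3 := hone _ ?_ h2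
      · rwa [mul_inv_eq_one] at h3
      · obtain ⟨n, hn, h4⟩ := hfin
        refine ⟨m * n, Nat.mul_pos hm hn, ?_⟩
        have h5 : ((um g y * (y ^ N)⁻¹) * (inj H L (act σ x))⁻¹) ^ m =
            inj H L (act σ ((x ^ m * (u * ((act σ⁻¹ u) ^ N)⁻¹)⁻¹)⁻¹)) := by
          have e3 : (um g y) ^ m = inj H L (act σ u) := by
            rw [← map_pow, hy, hUI, hrσ]
          have e4 : act σ ((x ^ m * (u * ((act σ⁻¹ u) ^ N)⁻¹)⁻¹)⁻¹) =
              act σ u * (u ^ N)⁻¹ * (act σ x ^ m)⁻¹ := by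
            have e5 : ∀ a b : Hˣ, act σ (a * b) = act σ a * act σ b := act_map_mul σ
            have e6 : ∀ a : Hˣ, act σ (a⁻¹) = (act σ a)⁻¹ := fun a => map_inv _ _
            have e7 : act σ (act σ⁻¹ u) = u := by rw [← act_mul, mul_inv_cancel, act_one]
            rw [mul_inv_rev, inv_inv, e5, e5, e6, e6, act_pow, act_pow, e7]
          rw [e4, mul_pow, mul_pow, inv_pow, inv_pow, ← pow_mul, mul_comm N m, pow_mul, hy, e3,
            map_mul, map_mul, map_inv, map_inv, map_pow, map_pow]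
        rw [pow_mul, h5, ← map_pow, ← act_pow, inv_pow, h4, inv_one, act_map_one, map_one]
    rw [mem_cen_iff]
    intro k
    have h1 := hfr _ (hyk k)
    have hkc : um k (um g y * (y ^ N)⁻¹) ∈ K1 Q := by
      rw [hc0, hUI, ← act_mul]
      exact hx'1 _
    have h2 := hone _ ?_ ((K1 Q).mul_mem h1 ((K1 Q).inv_mem hkc))
    · rw [mul_inv_eq_one, map_mul, map_inv, map_pow] at h2
      have h3 := mul_right_cancel h2
      exact h3.symm
    · refine ⟨m, hm, ?_⟩
      rw [mul_pow, hpowc, inv_pow, ← map_pow, mul_inv_cancel]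
  · intro hgc
    rw [mem_cen_iff] at hgc
    set c₀ : Lˣ := um g y * (y ^ N)⁻¹ with hc₀
    have hkc : ∀ k : L ≃ₐ[K] L, um k c₀ = um g (um k y) * ((um k y) ^ N)⁻¹ := by
      intro k
      rw [hc₀, map_mul, map_inv, map_pow, hgc]
    have hkK : ∀ k : L ≃ₐ[K] L, um k c₀ ∈ K1 Q := by
      intro k
      rw [hkc]
      exact hfr _ (hyk k)
    -- `c₀` is in `H`
    have hfix : ∀ k : L ≃ₐ[K] L, res k = 1 → um k c₀ = c₀ := by
      intro k hk
      obtain ⟨ξ, hξ⟩ : ∃ ξ : Lˣ, um k y = ξ * y := ⟨um k y * y⁻¹, by group⟩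
      have hξm : ξ ^ m = 1 := by
        have h1 : (um k y) ^ m = y ^ m := by
          rw [← map_pow, hy, hUI, hk, act_one]
        rw [hξ, mul_pow] at h1
        exact mul_eq_right.mp h1
      have hξ1 : um g ξ = ξ ^ N := by
        have h1 : um g ξ * (ξ ^ N)⁻¹ ∈ K1 Q := by
          refine hfr _ ?_
          have h2 : (Q.valuation L (ξ : L)) ^ m = 1 := by
            rw [← map_pow, ← Units.val_pow_eq_pow_val, hξm, Units.val_one, map_one]
          exact (pow_eq_one_iff_of_nonneg zero_le hm.ne').mp h2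
        have h3 := hone _ ⟨m, hm, by
          rw [mul_pow, ← map_pow, hξm, map_one, inv_pow, ← pow_mul, mul_comm N m, pow_mul, hξm, one_pow,
            inv_one, one_mul]⟩ h1
        rwa [mul_inv_eq_one] at h3
      rw [hkc, hξ, map_mul, hξ1, mul_pow, hc₀, mul_inv, mul_mul_mul_comm, mul_inv_cancel, one_mul]
    have hgalH : IsGalois H L := IsGalois.tower_top_of_isGalois K H L
    obtain ⟨c, hc⟩ : ∃ c : Hˣ, inj H L c = c₀ := by
      have h1 : (c₀ : L) ∈ (⊥ : IntermediateField H L) := by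
        rw [IsGalois.mem_bot_iff_fixed]
        intro f
        have h2 := hfix (f.restrictScalars K) ?_
        · exact congrArg Units.val h2
        · refine FaithfulSMul.eq_of_smul_eq_smul (α := H) fun x => ?_
          apply (algebraMap H L).injective
          rw [← hres, one_smul]
          exact f.commutes x
      rw [IntermediateField.mem_bot] at h1
      obtain ⟨a, ha⟩ := h1
      have ha0 : a ≠ 0 := by
        rintro rfl
        rw [map_zero] at ha
        exact c₀.ne_zero ha.symm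
      refine ⟨Units.mk0 a ha0, ?_⟩
      apply Units.ext
      rw [inj_val, Units.val_mk0, ha]
    have hcm : c ^ m = act σ u * (u ^ N)⁻¹ := by
      apply inj_injective (H := H) (L := L)
      rw [map_pow, hc, hc₀, mul_pow, inv_pow, ← pow_mul, mul_comm N m, pow_mul, hy, ← map_pow, hy,
        hUI, hrσ, map_mul, map_inv, map_pow]
    have hxm : (act σ⁻¹ c) ^ m = u * ((act σ⁻¹ u) ^ N)⁻¹ := by
      have e5 : ∀ a b : Hˣ, act σ⁻¹ (a * b) = act σ⁻¹ a * act σ⁻¹ b := act_map_mul σ⁻¹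
      have e6 : ∀ a : Hˣ, act σ⁻¹ (a⁻¹) = (act σ⁻¹ a)⁻¹ := fun a => map_inv _ _
      rw [← act_pow, hcm, e5, e6, act_pow, ← act_mul, inv_mul_cancel, act_one]
    have hxu : act σ⁻¹ c ∈ 𝒰 := by
      refine hsat m _ hm ?_
      rw [hxm]
      exact 𝒰.mul_mem hu (𝒰.inv_mem (𝒰.pow_mem (hact σ⁻¹ u hu) N))
    refine ⟨act σ⁻¹ c, hxu, ?_, 1, one_pos, ?_⟩
    · intro P hP
      obtain ⟨γ, hγ⟩ := htr2 P (above_singleton.2 hP)
      rw [hγ, smul_sub, smul_one, hcong, ← act_mul]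
      obtain ⟨k, hk⟩ := hsurj (γ * σ⁻¹)
      rw [← hk, ← hUI, hc]
      exact hkK k
    · rw [hxm, mul_inv_cancel, one_pow]

end Pool.Agent.J6H32.SR
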