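import Pool.Agent.J6H32.SR.OneA

/-!
# Rubin's conjecture for `r = 1` and one prime ideal
-/

set_option autoImplicit false
set_option linter.unusedSectionVars false

open NumberField IsDedekindDomain Filter Topology

noncomputable section

namespace Pool.Agent.J6H32.SR

open Pool.Agent.K3h30.RS Pool.Agent.K3h8.RS Pool.Agent.J6H32.RU

variable {F H G : Type} [Field F] [NumberField F] [Field H] [NumberField H] [Algebra F H]
  [CommGroup G] [Finite G] [MulSemiringAction G H]

/-- an element of `ℚ[G]` times an `S`-unit, up to a denominator -/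
theorem exists_mul [hG : IsGaloisGroup G F H] (D : RubinData F H G) (q : MonoidAlgebra ℚ G)
    (a : US D) :
    ∃ (m : ℕ) (x : US D), 0 < m ∧ ∀ f : Additive (US D) →+ MonoidAlgebra ℚ G, IsEquiv D f →
      m • (q * f (Additive.ofMul a)) = f (Additive.ofMul x) := by
  induction q using MonoidAlgebra.induction_linear with
  | zero =>
    refine ⟨1, 1, one_pos, fun f _ => ?_⟩
    rw [zero_mul, smul_zero, ofMul_one, map_zero]
  | add p q hp hq =>
    obtain ⟨m, x, hm, h1⟩ := hp
    obtain ⟨m', x', hm', h2⟩ := hq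
    refine ⟨m * m', x ^ m' * x' ^ m, Nat.mul_pos hm hm', fun f hf => ?_⟩
    rw [ofMul_mul, ofMul_pow, ofMul_pow, map_add, map_nsmul, map_nsmul, ← h1 f hf, ← h2 f hf,
      add_mul, smul_add, smul_smul, smul_smul, mul_comm m' m]
  | single γ r =>
    refine ⟨r.den, (⟨act γ (a : Hˣ), act_mem Pool.Agent.K3h25.RS.t_TRANS _ _ γ a.2⟩ : US D) ^ r.num,
      r.den_pos, fun f hf => ?_⟩
    rw [ofMul_zpow, map_zsmul, hf γ a ⟨act γ (a : Hˣ), _⟩ rfl, ← smul_mul_assoc, ← smul_mul_assoc]
    congr 1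
    rw [MonoidAlgebra.smul_single, MonoidAlgebra.smul_single]
    congr 1
    rw [nsmul_eq_mul, zsmul_eq_mul, mul_one]
    exact_mod_cast Rat.den_mul_eq_num r

theorem exists_sum [hG : IsGaloisGroup G F H] (D : RubinData F H G) {ι : Type} (s : Finset ι)
    (c : ι → MonoidAlgebra ℚ G) (a : ι → US D) :
    ∃ (m : ℕ) (x : US D), 0 < m ∧ ∀ f : Additive (US D) →+ MonoidAlgebra ℚ G, IsEquiv D f →
      m • (∑ k ∈ s, c k * f (Additive.ofMul (a k))) = f (Additive.ofMul x) := by
  classical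
  induction s using Finset.induction_on with
  | empty =>
    refine ⟨1, 1, one_pos, fun f _ => ?_⟩
    rw [Finset.sum_empty, smul_zero, ofMul_one, map_zero]
  | insert k s hk ih =>
    obtain ⟨m, x, hm, h1⟩ := ih
    obtain ⟨m', x', hm', h2⟩ := exists_mul D (c k) (a k)
    refine ⟨m * m', x ^ m' * x' ^ m, Nat.mul_pos hm hm', fun f hf => ?_⟩
    rw [Finset.sum_insert hk, ofMul_mul, ofMul_pow, ofMul_pow, map_add, map_nsmul, map_nsmul,
      ← h1 f hf, ← h2 f hf, smul_add, smul_smul, smul_smul, mul_comm m' m, add_comm]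

/-- the values of a homomorphism at torsion elements -/
theorem val_tors (D : RubinData F H G) (f : Additive (US D) →+ MonoidAlgebra ℚ G) (a : US D)
    (n : ℕ) (hn : 0 < n) (h : a ^ n = 1) : f (Additive.ofMul a) = 0 := by
  have h1 : n • f (Additive.ofMul a) = 0 := by
    rw [← map_nsmul, ← ofMul_pow, h, ofMul_one, map_zero]
  have h2 : ((n : ℚ)) • f (Additive.ofMul a) = 0 := by
    rw [Nat.cast_smul_eq_nsmul]
    exact h1
  have hn' : (n : ℚ) ≠ 0 := by positivity
  exact (smul_eq_zero.mp h2).resolve_left hn'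

/-- duality -/
theorem dual_iff [hG : IsGaloisGroup G F H] (D : RubinData F H G)
    (T : Finset (HeightOneSpectrum (𝓞 F))) (m : ℕ) (hm : 0 < m) (t : US D) :
    (∀ f : Additive (US D) →+ MonoidAlgebra ℚ G, IsEquiv D f → IntOn D T f →
      ∃ q ∈ (toQ (G := G)).range, m • q = f (Additive.ofMul t)) ↔
    ∃ x : US D, (x : Hˣ) ∈ D.U T ∧ ∃ n : ℕ, 0 < n ∧ (x ^ m * t⁻¹) ^ n = 1 := by
  constructor
  · intro h
    let _ : DistribMulAction G (Additive (US D)) :=
      actionA (H := H) (G := G) Pool.Agent.K3h25.RS.t_TRANS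
        (D.S : Set (HeightOneSpectrum (𝓞 F))) ∅
    have hfg : AddGroup.FG (Additive (US D)) := fgA Pool.Agent.K3h25.RS.t_OVER D.S
    -- the subgroup
    let B : AddSubgroup (Additive (US D)) :=
      { carrier := {a | ∃ x : US D, (x : Hˣ) ∈ D.U T ∧ ∃ n : ℕ, 0 < n ∧
          (x ^ m * (Additive.toMul a)⁻¹) ^ n = 1}
        zero_mem' := ⟨1, (D.U T).one_mem, 1, one_pos, by simp⟩
        add_mem' := by
          rintro a b ⟨x, hx, n, hn, h1⟩ ⟨x', hx', n', hn', h2⟩
          refine ⟨x * x', (D.U T).mul_mem hx hx', n * n', Nat.mul_pos hn hn', ?_⟩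
          have e : (x * x') ^ m * (Additive.toMul (a + b))⁻¹ =
              (x ^ m * (Additive.toMul a)⁻¹) * (x' ^ m * (Additive.toMul b)⁻¹) := by
            rw [toMul_add, mul_pow, mul_inv, mul_mul_mul_comm]
          rw [e, mul_pow, pow_mul, h1, one_pow, one_mul, mul_comm n n', pow_mul, h2, one_pow]
        neg_mem' := by
          rintro a ⟨x, hx, n, hn, h1⟩
          refine ⟨x⁻¹, (D.U T).inv_mem hx, n, hn, ?_⟩
          have e : x⁻¹ ^ m * (Additive.toMul (-a))⁻¹ = (x ^ m * (Additive.toMul a)⁻¹)⁻¹ := by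
            rw [toMul_neg, inv_pow, mul_inv]
          rw [e, inv_pow, h1, inv_one] }
    by_contra hcon
    have htB : Additive.ofMul t ∉ B := fun h1 => hcon h1
    have hne : (QuotientAddGroup.mk (Additive.ofMul t) : Additive (US D) ⧸ B) ≠ 0 := by
      rw [Ne, QuotientAddGroup.eq_zero_iff]
      exact htB
    obtain ⟨χ', hχ'⟩ := CharacterModule.exists_character_apply_ne_zero_of_ne_zero hne
    let χ : Additive (US D) →+ QZ :=
      (χ' : (Additive (US D) ⧸ B) →+ AddCircle (1 : ℚ)).comp (QuotientAddGroup.mk' B)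
    have hχB : ∀ b ∈ B, χ b = 0 := by
      intro b hb
      change χ' (QuotientAddGroup.mk b) = 0
      rw [(QuotientAddGroup.eq_zero_iff b).2 hb, map_zero]
    have hχt : χ (Additive.ofMul t) ≠ 0 := hχ'
    let Kt : AddSubgroup (Additive (US D)) := AddCommGroup.torsion (Additive (US D))
    obtain ⟨E, hE, -⟩ := lift_prescribed Kt (by
      intro n p hn hp
      have h1 : IsOfFinAddOrder (n • p) := hp
      rw [isOfFinAddOrder_iff_nsmul_eq_zero] at h1
      obtain ⟨k, hk, h2⟩ := h1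
      change IsOfFinAddOrder p
      rw [isOfFinAddOrder_iff_nsmul_eq_zero]
      exact ⟨k * n, Nat.mul_pos hk hn, by rw [mul_smul, h2]⟩) χ 0 (by
      intro p hp
      have h1 : IsOfFinAddOrder p := hp
      rw [isOfFinAddOrder_iff_nsmul_eq_zero] at h1
      obtain ⟨k, hk, h2⟩ := h1
      rw [AddMonoidHom.zero_apply]
      symm
      rw [hχB p ?_]
      · rfl
      · refine ⟨1, (D.U T).one_mem, k, hk, ?_⟩
        rw [one_pow, one_mul, inv_pow]
        have h3 : (Additive.toMul p) ^ k = 1 := by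
          rw [← toMul_nsmul, h2, toMul_zero]
        rw [h3, inv_one])
    obtain ⟨f, hf1, hf2⟩ := exists_hat (G := G) (m • E)
    have hfe : IsEquiv D f := by
      intro γ x y hxy
      have h1 : Additive.ofMul y = γ • Additive.ofMul x := by
        apply Additive.toMul.injective
        apply Subtype.ext
        exact hxy
      rw [h1, hf1]
    have hfi : IntOn D T f := by
      intro x hx
      rw [mem_range_toQ]
      intro γ
      rw [hf2]
      have h1 : ((m • E) (γ⁻¹ • Additive.ofMul x) : ℚ) = E (m • (γ⁻¹ • Additive.ofMul x)) := by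
        rw [AddMonoidHom.nsmul_apply, map_nsmul]
      rw [h1, ← QZ_zero, hE]
      apply hχB
      refine ⟨⟨act γ⁻¹ (x : Hˣ), act_mem Pool.Agent.K3h25.RS.t_TRANS _ _ γ⁻¹ x.2⟩,
        act_mem Pool.Agent.K3h25.RS.t_TRANS _ _ γ⁻¹ hx, 1, one_pos, ?_⟩
      rw [pow_one, toMul_nsmul]
      exact mul_inv_cancel _
    obtain ⟨q, hq, hqm⟩ := h f hfe hfi
    rw [mem_range_toQ] at hq
    obtain ⟨z, hz⟩ := hq 1
    have h1 := congrArg (fun p : MonoidAlgebra ℚ G => p.coeff 1) hqm
    simp only [hf2] at h1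
    rw [inv_one, one_smul, AddMonoidHom.nsmul_apply] at h1
    have h2 : ((m • q : MonoidAlgebra ℚ G)).coeff 1 = m • q.coeff 1 := by
      rw [MonoidAlgebra.coeff_smul]
      rfl
    rw [h2, hz, nsmul_eq_mul, nsmul_eq_mul] at h1
    have hm' : (m : ℚ) ≠ 0 := by positivity
    have h3 : (z : ℚ) = E (Additive.ofMul t) := mul_left_cancel₀ hm' h1
    apply hχt
    rw [← hE, QZ_zero]
    exact ⟨z, h3.symm⟩
  · rintro ⟨x, hx, n, hn, h⟩ f hf hi
    refine ⟨f (Additive.ofMul x), hi x hx, ?_⟩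
    have h1 := val_tors D f _ n hn h
    rw [ofMul_mul, ofMul_pow, ofMul_inv, map_add, map_nsmul, map_neg] at h1
    exact add_neg_eq_zero.mp h1

end Pool.Agent.J6H32.SR
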