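import Pool.Agent.J6H32.SR.Syl
import Pool.Agent.J6H32.SR.Defs3
import Pool.Agent.J6H32.SR.Count
import Pool.Agent.J6H32.RT.Cls

/-!
# Densities in the classes of prime ideals with a given image of the Frobenius automorphism
-/

set_option autoImplicit false
set_option linter.unusedSectionVars false

open NumberField IsDedekindDomain Filter Topology

noncomputable section

namespace Pool.Agent.J6H32.SR

open Pool.Agent.K3h30.RS Pool.Agent.K3h8.RS Pool.Agent.K3h43.RS Pool.Agent.J6H32.RU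

/-- the action of a group with a cyclic quotient modulo elements of `cen` -/
theorem top_of_cyc_quot {Γ X G : Type} [Group Γ] [MulAction Γ X] [CommGroup G] (res : Γ →* G)
    (hsurj : Function.Surjective res) (y : X)
    (hrel : ∀ a : Γ, res a = 1 → a ∈ cen Γ y) (S : Set G) (hS : ∀ a : Γ, res a ∈ S → a ∈ cen Γ y)
    (hcyc : IsCyclic (G ⧸ Subgroup.closure S)) : cen Γ y = ⊤ := by
  apply cen_top_of_cyclic
  have hcl : ∀ a : Γ, res a ∈ Subgroup.closure S → a ∈ cen Γ y := by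
    have h1 : Subgroup.closure S ≤ (cen Γ y).map res := by
      rw [Subgroup.closure_le]
      intro g hg
      obtain ⟨a, rfl⟩ := hsurj g
      exact ⟨a, hS a hg, rfl⟩
    intro a ha
    obtain ⟨b, hb, hab⟩ := h1 ha
    have h2 : res (a * b⁻¹) = 1 := by rw [map_mul, map_inv, hab, mul_inv_cancel]
    have h3 := (cen Γ y).mul_mem (hrel _ h2) hb
    rwa [inv_mul_cancel_right] at h3
  let q : Γ →* G ⧸ Subgroup.closure S := (QuotientGroup.mk' _).comp res
  have hq : Function.Surjective q := (QuotientGroup.mk'_surjective _).comp hsurj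
  have h1 : IsCyclic (Γ ⧸ q.ker) :=
    isCyclic_of_injective (QuotientGroup.quotientKerEquivOfSurjective q hq).toMonoidHom
      (QuotientGroup.quotientKerEquivOfSurjective q hq).injective
  have h2 : q.ker ≤ (cen Γ y).comap (MonoidHom.id Γ) := by
    intro a ha
    refine hcl a ?_
    have h3 : ((res a : G) : G ⧸ Subgroup.closure S) = 1 := ha
    exact (QuotientGroup.eq_one_iff _).1 h3
  refine isCyclic_of_surjective (QuotientGroup.map q.ker (cen Γ y) (MonoidHom.id Γ) h2) ?_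
  intro t
  obtain ⟨g, rfl⟩ := QuotientGroup.mk_surjective t
  exact ⟨(g : Γ ⧸ q.ker), rfl⟩

variable {K L G : Type} [Field K] [NumberField K] [Field L] [NumberField L] [Algebra K L]
  [CommGroup G] [Finite G]

/-- **the densities in the classes** -/
theorem class_gen [IsGalois K L] (res : (L ≃ₐ[K] L) →* G) (hsurj : Function.Surjective res) (y : L)
    (bad : Finset (HeightOneSpectrum (𝓞 K))) (R : HeightOneSpectrum (𝓞 K) → Prop)
    (hR : ∀ v : HeightOneSpectrum (𝓞 K), v ∉ bad → ∀ (Q : HeightOneSpectrum (𝓞 L))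
      (g : L ≃ₐ[K] L), FrobAt v Q g → (R v ↔ g ∈ cen (L ≃ₐ[K] L) y))
    (S : G → HeightOneSpectrum (𝓞 K) → Prop)
    (hS : ∀ (ρ : G) (v : HeightOneSpectrum (𝓞 K)), v ∉ bad → ∀ (Q : HeightOneSpectrum (𝓞 L))
      (g : L ≃ₐ[K] L), FrobAt v Q g → (S ρ v ↔ res g = ρ)) :
    ∃ d : G → ℝ,
      (∀ ρ : G, Tendsto (proportionIn (S ρ) R) atTop (𝓝 (d ρ))) ∧
      (∀ T : Set G, T.Nonempty → IsCyclic (G ⧸ Subgroup.closure T) →
        (cen (L ≃ₐ[K] L) y = ⊤ ↔ ∀ ρ ∈ T, 1 / 2 < d ρ)) ∧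
      ∃ (B : Subgroup G) (n : ℕ), 0 < n ∧
        (∀ ρ ∈ B, d ρ = 1 / n) ∧ ∀ ρ : G, ρ ∉ B → d ρ = 0 := by
  classical
  have hnorm : (cen (L ≃ₐ[K] L) y).Normal := cen_normal _
  let C₁ : G → Set (L ≃ₐ[K] L) := fun ρ => {g | res g = ρ}
  let C₀ : G → Set (L ≃ₐ[K] L) := fun ρ => {g | res g = ρ ∧ g ∈ cen (L ≃ₐ[K] L) y}
  have hconj : ∀ g h : L ≃ₐ[K] L, res (h * g * h⁻¹) = res g := by
    intro g h
    rw [map_mul, map_mul, map_inv, mul_comm (res h), mul_inv_cancel_right]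
  have hn : (0 : ℝ) < (Nat.card (L ≃ₐ[K] L) : ℝ) := by exact_mod_cast Nat.card_pos
  have hc1 : ∀ ρ : G, (C₁ ρ).ncard = (C₁ 1).ncard := by
    intro ρ
    obtain ⟨g₀, hg₀⟩ := hsurj ρ
    rw [← Set.ncard_image_of_injective (C₁ 1) (mul_right_injective g₀)]
    congr 1
    ext g
    constructor
    · intro hg
      refine ⟨g₀⁻¹ * g, ?_, mul_inv_cancel_left _ _⟩
      change res (g₀⁻¹ * g) = 1
      rw [map_mul, map_inv, hg₀, show res g = ρ from hg, inv_mul_cancel]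
    · rintro ⟨g', hg', rfl⟩
      change res (g₀ * g') = ρ
      rw [map_mul, hg₀, show res g' = 1 from hg', mul_one]
  have hc0 : ∀ g₀ : L ≃ₐ[K] L, g₀ ∈ cen (L ≃ₐ[K] L) y →
      (C₀ (res g₀)).ncard = (C₀ 1).ncard := by
    intro g₀ hg₀
    rw [← Set.ncard_image_of_injective (C₀ 1) (mul_right_injective g₀)]
    congr 1
    ext g
    constructor
    · intro hg
      refine ⟨g₀⁻¹ * g, ⟨?_, Subgroup.mul_mem _ (Subgroup.inv_mem _ hg₀) hg.2⟩,
        mul_inv_cancel_left _ _⟩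
      rw [map_mul, map_inv, hg.1, inv_mul_cancel]
    · rintro ⟨g', hg', rfl⟩
      refine ⟨?_, Subgroup.mul_mem _ hg₀ hg'.2⟩
      change res (g₀ * g') = res g₀
      rw [map_mul, hg'.1, mul_one]
  have hc1pos : (0 : ℝ) < ((C₁ 1).ncard : ℝ) := by
    have : 0 < (C₁ 1).ncard := by
      rw [Set.ncard_pos (Set.toFinite (C₁ 1))]
      exact ⟨1, map_one res⟩
    exact_mod_cast this
  obtain ⟨n, hn0, hcn, hn1⟩ : ∃ n : ℕ, 0 < n ∧ (C₀ 1).ncard * n = (C₁ 1).ncard ∧
      (n = 1 ↔ ∀ a : L ≃ₐ[K] L, res a = 1 → a ∈ cen (L ≃ₐ[K] L) y) := by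
    have h1 := Subgroup.relIndex_mul_relIndex (⊥ : Subgroup (L ≃ₐ[K] L))
      (cen (L ≃ₐ[K] L) y ⊓ res.ker) res.ker bot_le inf_le_right
    rw [Subgroup.relIndex_bot_left, Subgroup.relIndex_bot_left, Subgroup.inf_relIndex_right] at h1
    refine ⟨(cen (L ≃ₐ[K] L) y).relIndex res.ker, ?_, ?_, ?_⟩
    · refine Nat.pos_of_ne_zero fun h => ?_
      rw [h, mul_zero] at h1
      exact Nat.card_pos.ne h1
    · have e0 : (C₀ 1).ncard = Nat.card (cen (L ≃ₐ[K] L) y ⊓ res.ker : Subgroup _) := by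
        rw [← Nat.card_coe_set_eq]
        exact Nat.card_congr (Equiv.subtypeEquivRight fun g => and_comm)
      have e1 : (C₁ 1).ncard = Nat.card res.ker := by
        rw [← Nat.card_coe_set_eq]
        exact Nat.card_congr (Equiv.subtypeEquivRight fun g => Iff.rfl)
      rw [e0, e1, h1]
    · rw [Subgroup.relIndex_eq_one]
      exact Iff.rfl
  let d : G → ℝ := fun ρ => ((C₀ ρ).ncard : ℝ) / ((C₁ ρ).ncard : ℝ)
  have hdn : (0 : ℝ) < (n : ℝ) := by exact_mod_cast hn0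
  have hc0pos : (0 : ℝ) < ((C₀ 1).ncard : ℝ) := by
    have : 0 < (C₀ 1).ncard := by
      rw [Set.ncard_pos (Set.toFinite (C₀ 1))]
      exact ⟨1, map_one res, Subgroup.one_mem _⟩
    exact_mod_cast this
  have hdB : ∀ g₀ : L ≃ₐ[K] L, g₀ ∈ cen (L ≃ₐ[K] L) y → d (res g₀) = 1 / n := by
    intro g₀ hg₀
    change ((C₀ (res g₀)).ncard : ℝ) / ((C₁ (res g₀)).ncard : ℝ) = 1 / n
    rw [hc0 g₀ hg₀, hc1, ← hcn, Nat.cast_mul]
    field_simp
  have hdB' : ∀ ρ : G, ρ ∉ (cen (L ≃ₐ[K] L) y).map res → d ρ = 0 := by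
    intro ρ hρ
    have h1 : C₀ ρ = ∅ := by
      rw [Set.eq_empty_iff_forall_notMem]
      intro g hg
      exact hρ ⟨g, hg.2, hg.1⟩
    change ((C₀ ρ).ncard : ℝ) / ((C₁ ρ).ncard : ℝ) = 0
    rw [h1, Set.ncard_empty, Nat.cast_zero, zero_div]
  have hhalf : (1 : ℝ) / 2 < 1 / n ↔ n = 1 := by
    constructor
    · intro h
      have h1 := (one_div_lt_one_div (by norm_num) hdn).1 h
      have h2 : n < 2 := by exact_mod_cast h1
      omega
    · rintro rfl
      norm_num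
  refine ⟨d, fun ρ => ?_, fun T hT hcyc => ?_, (cen (L ≃ₐ[K] L) y).map res, n, hn0, ?_, hdB'⟩
  · -- the densities
    have hd1 := Pool.Agent.J6H32.RT.density_set (C₁ ρ)
      (fun g hg h => (hconj g h).trans hg) (bad := bad) (R := S ρ)
      (fun v hv Q g hg => hS ρ v hv Q g hg)
    have hd0 := Pool.Agent.J6H32.RT.density_set (C₀ ρ)
      (fun g hg h => ⟨(hconj g h).trans hg.1, hnorm.conj_mem g hg.2 h⟩)
      (bad := bad) (R := fun v => S ρ v ∧ R v)
      (fun v hv Q g hg => and_congr (hS ρ v hv Q g hg) (hR v hv Q g hg))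
    have hc1' : (0 : ℝ) < ((C₁ ρ).ncard : ℝ) := by rw [hc1]; exact hc1pos
    have hlim := hd0.div hd1 (div_pos hc1' hn).ne'
    rw [div_div_div_cancel_right₀ hn.ne'] at hlim
    refine hlim.congr' ?_
    filter_upwards [pi_top.eventually_gt_atTop 0] with X hX
    simp only [Pi.div_apply]
    unfold proportionIn
    rw [div_div_div_cancel_right₀ hX.ne']
  · constructor
    · intro htop ρ _
      obtain ⟨g₀, rfl⟩ := hsurj ρ
      rw [hdB g₀ (by rw [htop]; exact Subgroup.mem_top _), hhalf, hn1]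
      intro a _
      rw [htop]
      exact Subgroup.mem_top _
    · intro h
      have hmem : ∀ ρ ∈ T, ∃ g₀ : L ≃ₐ[K] L, g₀ ∈ cen (L ≃ₐ[K] L) y ∧ res g₀ = ρ := by
        intro ρ hρ
        by_contra hcon
        have h1 := hdB' ρ (fun ⟨g, h1, h2⟩ => hcon ⟨g, h1, h2⟩)
        have h2 := h ρ hρ
        rw [h1] at h2
        norm_num at h2
      have hrel : ∀ a : L ≃ₐ[K] L, res a = 1 → a ∈ cen (L ≃ₐ[K] L) y := by
        obtain ⟨ρ, hρ⟩ := hT
        obtain ⟨g₀, h1, h2⟩ := hmem ρ hρ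
        have h3 := h ρ hρ
        rw [← h2, hdB g₀ h1, hhalf] at h3
        exact hn1.1 h3
      refine top_of_cyc_quot res hsurj y hrel T (fun a ha => ?_) hcyc
      obtain ⟨g₀, h1, h2⟩ := hmem _ ha
      have h4 : res (a * g₀⁻¹) = 1 := by rw [map_mul, map_inv, h2, mul_inv_cancel]
      have h5 := (cen (L ≃ₐ[K] L) y).mul_mem (hrel _ h4) h1
      rwa [inv_mul_cancel_right] at h5
  · rintro _ ⟨g₀, h1, rfl⟩
    exact hdB g₀ h1

end Pool.Agent.J6H32.SR
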