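import Pool.Agent.J6H32.SR.Grp

/-!
# Groups whose commutators are central
-/

set_option autoImplicit false

namespace Pool.Agent.J6H32.SR

open scoped commutatorElement

section

variable {Γ : Type} [Group Γ]

theorem comm_pow_left {a b c : Γ} (hc : ∀ x : Γ, c * x = x * c) (h : a * b = c * (b * a)) (n : ℕ) :
    a ^ n * b = c ^ n * (b * a ^ n) := by
  induction n with
  | zero => simp
  | succ n ih =>
    have hcn : ∀ x : Γ, c ^ n * x = x * c ^ n := fun x => by
      have h1 : Commute c x := hc x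
      exact (h1.pow_left n).eq
    calc a ^ (n + 1) * b = a ^ n * (a * b) := by rw [pow_succ, mul_assoc]
      _ = a ^ n * (c * (b * a)) := by rw [h]
      _ = c * (a ^ n * (b * a)) := by rw [← mul_assoc, ← hc, mul_assoc]
      _ = c * (a ^ n * b * a) := by rw [← mul_assoc (a ^ n)]
      _ = c * (c ^ n * (b * a ^ n) * a) := by rw [ih]
      _ = c ^ (n + 1) * (b * a ^ (n + 1)) := by
          rw [pow_succ' c, pow_succ a]; simp only [mul_assoc]

theorem comm_pow_right {a b c : Γ} (hc : ∀ x : Γ, c * x = x * c) (h : a * b = c * (b * a)) (n : ℕ) :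
    a * b ^ n = c ^ n * (b ^ n * a) := by
  induction n with
  | zero => simp
  | succ n ih =>
    calc a * b ^ (n + 1) = a * b ^ n * b := by rw [pow_succ, mul_assoc]
      _ = c ^ n * (b ^ n * (a * b)) := by rw [ih]; simp only [mul_assoc]
      _ = c ^ n * (b ^ n * c * (b * a)) := by rw [h, mul_assoc (b ^ n)]
      _ = c ^ n * (c * b ^ n * (b * a)) := by rw [hc]
      _ = c ^ (n + 1) * (b ^ (n + 1) * a) := by
          rw [pow_succ c, pow_succ b]; simp only [mul_assoc]

/-- Let `π` be a homomorphism of the group `Γ` onto a finite commutative group `Q` with central kernel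
and `e` a multiple of the orders of all commutators. If the Sylow subgroups of `Q` for the prime divisors
of `e` are cyclic, then `Γ` is commutative. -/
theorem comm_of_sylow {Q : Type} [CommGroup Q] [Finite Q] (π : Γ →* Q)
    (hπ : Function.Surjective π) (hker : ∀ a : Γ, π a = 1 → ∀ x : Γ, a * x = x * a) (e : ℕ)
    (hexp : ∀ a b : Γ, ⁅a, b⁆ ^ e = 1)
    (hcyc : ∀ p : ℕ, p.Prime → p ∣ e → ∀ P : Sylow p Q, IsCyclic P) (a b : Γ) : a * b = b * a := by
  set c := ⁅a, b⁆ with hcdef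
  have hcπ : π c = 1 := by
    rw [hcdef, commutatorElement_def, map_mul, map_mul, map_mul, map_inv, map_inv,
      mul_comm (π a) (π b)]
    group
  have hc := hker c hcπ
  have hab : a * b = c * (b * a) := by
    rw [hcdef, commutatorElement_def]; group
  suffices h1 : c = 1 by rw [hab, h1, one_mul]
  rw [← orderOf_eq_one_iff]
  by_contra hne
  obtain ⟨p, hp, hpc⟩ := Nat.exists_prime_and_dvd hne
  have : Fact p.Prime := ⟨hp⟩
  have hpe : p ∣ e := hpc.trans (orderOf_dvd_of_pow_eq_one (hexp a b))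
  set m := Nat.card Q / p ^ (Nat.card Q).factorization p with hm
  have hmp : ¬ p ∣ m := Nat.not_dvd_ordCompl hp Nat.card_pos.ne'
  have hmem : ∀ x : Γ, π (x ^ m) ∈ CommGroup.primaryComponent Q p := by
    intro x
    rw [CommGroup.mem_primaryComponent]
    refine ⟨(Nat.card Q).factorization p, ?_⟩
    rw [map_pow, ← pow_mul, mul_comm m, hm, Nat.ordProj_mul_ordCompl_eq_self]
    exact pow_card_eq_one'
  obtain ⟨P, hP⟩ := IsPGroup.exists_le_sylow
    (CommGroup.primaryComponent.isPGroup (G := Q) (p := p))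
  obtain ⟨⟨t, ht⟩, htgen⟩ := (hcyc p hp hpe P).exists_generator
  obtain ⟨s, hs⟩ := hπ t
  have hdec : ∀ x : Γ, ∃ (i : ℤ) (z : Γ), (∀ y : Γ, z * y = y * z) ∧ x ^ m = s ^ i * z := by
    intro x
    obtain ⟨i, hi⟩ := Subgroup.mem_zpowers_iff.mp (htgen ⟨π (x ^ m), hP (hmem x)⟩)
    have hi' : t ^ i = π (x ^ m) := congrArg Subtype.val hi
    refine ⟨i, (s ^ i)⁻¹ * x ^ m, hker _ ?_, by group⟩
    rw [map_mul, map_inv, map_zpow, hs, hi', inv_mul_cancel]
  obtain ⟨i, z, hz, hi⟩ := hdec a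
  obtain ⟨j, z', hz', hj⟩ := hdec b
  have hcomm : a ^ m * b ^ m = b ^ m * a ^ m := by
    have h1 : Commute z (s ^ j) := hz _
    have h2 : Commute z z' := hz _
    have h3 : Commute z' (s ^ i) := hz' _
    have h4 : Commute (s ^ i) (s ^ j) := (Commute.refl s).zpow_zpow i j
    rw [hi, hj]
    have h5 : Commute (s ^ i * z) (s ^ j * z') :=
      ((h4.mul_right h3.symm).mul_left (h1.mul_right h2))
    exact h5.eq
  have h2 := comm_pow_left hc hab m
  have hcm : ∀ x : Γ, c ^ m * x = x * c ^ m := fun x => by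
    have h1 : Commute c x := hc x
    exact (h1.pow_left m).eq
  have h3 := comm_pow_right hcm h2 m
  rw [hcomm] at h3
  have h4 : (c ^ m) ^ m = 1 := by
    have h5 : 1 * (b ^ m * a ^ m) = (c ^ m) ^ m * (b ^ m * a ^ m) := by rw [one_mul]; exact h3
    exact (mul_right_cancel h5).symm
  rw [← pow_mul] at h4
  have h5 := hpc.trans (orderOf_dvd_of_pow_eq_one h4)
  rcases hp.dvd_mul.mp h5 with h6 | h6 <;> exact hmp h6

end

/-- the version for the action -/
theorem top_of_sylow {Γ X G : Type} [Group Γ] [MulAction Γ X] [CommGroup G] [Finite G]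
    (res : Γ →* G) (hsurj : Function.Surjective res) (y : X)
    (hrel : ∀ a : Γ, res a = 1 → a ∈ cen Γ y) (e : ℕ)
    (hexp : ∀ a : Γ, res a = 1 → a ^ e • y = y) (S : Set G) (hS : ∀ a : Γ, res a ∈ S → a ∈ cen Γ y)
    (hcyc : ∀ p : ℕ, p.Prime → p ∣ e → ∀ P : Sylow p (G ⧸ Subgroup.closure S), IsCyclic P) :
    cen Γ y = ⊤ := by
  let Δ : Subgroup Γ := res.ker ⊓ MulAction.stabilizer Γ y
  have hΔ : ∀ a : Γ, a ∈ Δ ↔ res a = 1 ∧ a • y = y := fun a => Iff.rfl
  have hcon : ∀ a k : Γ, res a = 1 → res (k * a * k⁻¹) = 1 := by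
    intro a k ha
    rw [map_mul, map_mul, ha, mul_one, ← map_mul, mul_inv_cancel, map_one]
  have hΔn : Δ.Normal := by
    constructor
    intro a ha k
    rw [hΔ] at ha ⊢
    refine ⟨hcon a k ha.1, ?_⟩
    have h1 := mem_cen.1 (hrel a ha.1) k⁻¹
    rw [mul_assoc, mul_smul, ← h1, mul_smul, ha.2, smul_inv_smul]
  -- the elements of `cen` are central modulo `Δ`
  have hcen : ∀ a : Γ, a ∈ cen Γ y → ∀ x : Γ ⧸ Δ, (a : Γ ⧸ Δ) * x = x * (a : Γ ⧸ Δ) := by
    intro a ha x
    obtain ⟨g, rfl⟩ := QuotientGroup.mk_surjective x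
    change ((a * g : Γ) : Γ ⧸ Δ) = ((g * a : Γ) : Γ ⧸ Δ)
    rw [QuotientGroup.eq, hΔ]
    refine ⟨?_, ?_⟩
    · rw [map_mul, map_inv, map_mul, map_mul, mul_comm (res g), inv_mul_cancel]
    · rw [mul_smul, mem_cen.1 ha g, inv_smul_smul]
  have hcl : ∀ a : Γ, res a ∈ Subgroup.closure S → a ∈ cen Γ y := by
    have h1 : Subgroup.closure S ≤ (cen Γ y).map res := by
      rw [Subgroup.closure_le]
      intro g hg
      obtain ⟨a, rfl⟩ := hsurj g
      exact ⟨a, hS a hg, rfl⟩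
    intro a ha
    obtain ⟨b, hb, hab⟩ := h1 ha
    have h2 : res (a * b⁻¹) = 1 := by rw [map_mul, map_inv, hab, mul_inv_cancel]
    have h3 := (cen Γ y).mul_mem (hrel _ h2) hb
    rwa [inv_mul_cancel_right] at h3
  let π : Γ ⧸ Δ →* G ⧸ Subgroup.closure S :=
    QuotientGroup.map Δ (Subgroup.closure S) res (fun a ha => by
      rw [Subgroup.mem_comap, ((hΔ a).1 ha).1]
      exact Subgroup.one_mem _)
  have hπ : Function.Surjective π := by
    intro t
    obtain ⟨g, rfl⟩ := QuotientGroup.mk_surjective t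
    obtain ⟨a, rfl⟩ := hsurj g
    exact ⟨(a : Γ ⧸ Δ), rfl⟩
  have hker : ∀ a : Γ ⧸ Δ, π a = 1 → ∀ x : Γ ⧸ Δ, a * x = x * a := by
    intro a ha
    obtain ⟨g, rfl⟩ := QuotientGroup.mk_surjective a
    have h1 : ((res g : G) : G ⧸ Subgroup.closure S) = 1 := ha
    rw [QuotientGroup.eq_one_iff] at h1
    exact hcen g (hcl g h1)
  have hexp' : ∀ a b : Γ ⧸ Δ, ⁅a, b⁆ ^ e = 1 := by
    intro a b
    obtain ⟨g, rfl⟩ := QuotientGroup.mk_surjective a
    obtain ⟨h, rfl⟩ := QuotientGroup.mk_surjective b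
    have h1 : res ⁅g, h⁆ = 1 := by
      rw [commutatorElement_def, map_mul, map_mul, map_mul, map_inv, map_inv, mul_comm (res g)]
      group
    change ((⁅g, h⁆ ^ e : Γ) : Γ ⧸ Δ) = 1
    rw [QuotientGroup.eq_one_iff, hΔ]
    exact ⟨by rw [map_pow, h1, one_pow], hexp _ h1⟩
  have hall := comm_of_sylow π hπ hker e hexp' hcyc
  rw [eq_top_iff]
  intro a _
  rw [mem_cen]
  intro g
  have h1 : ((a * g : Γ) : Γ ⧸ Δ) = ((g * a : Γ) : Γ ⧸ Δ) := hall (a : Γ ⧸ Δ) (g : Γ ⧸ Δ)
  rw [QuotientGroup.eq, hΔ] at h1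
  have h2 := h1.2
  rw [mul_smul] at h2
  have h3 := congrArg (fun t => (a * g) • t) h2
  simp only [smul_inv_smul] at h3
  exact h3

end Pool.Agent.J6H32.SR
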