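import Pool.Agent.J6H32.SR.Rel
import Pool.Agent.J6H32.SR.Count
import Pool.Agent.J6H32.SR.Defs3
import Pool.Agent.J6H32.SR.Syl

/-!
# The rank one Stark conjecture and the prime ideals with a given Artin symbol
-/

set_option autoImplicit false
set_option linter.unusedSectionVars false

open NumberField IsDedekindDomain Filter Topology

noncomputable section

namespace Pool.Agent.J6H32.SR

open Pool.Agent.K3h30.RS Pool.Agent.K3h8.RS Pool.Agent.K3h43.RS Pool.Agent.J6H32.RU

section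

variable {K H L G : Type} [Field K] [NumberField K] [Field H] [NumberField H] [Algebra K H]
  [Field L] [NumberField L] [Algebra H L] [Algebra K L] [IsScalarTower K H L]
  [CommGroup G] [Finite G] [MulSemiringAction G H]

/-- the roots of unity of order dividing the number of roots of unity in `H` are in `H` -/
theorem root_in_H (ξ : Lˣ) (hξ : ξ ^ (Units.torsionOrder H) = 1) :
    ∃ t : Hˣ, t ^ (Units.torsionOrder H) = 1 ∧ inj H L t = ξ := by
  obtain ⟨η, hη⟩ := exists_gen H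
  have he0 := Units.torsionOrder_pos H
  have : NeZero (Units.torsionOrder H) := ⟨he0.ne'⟩
  have h1 : IsPrimitiveRoot (inj H L η) (Units.torsionOrder H) :=
    hη.map_of_injective inj_injective
  have h2 : IsPrimitiveRoot ((inj H L η : Lˣ) : L) (Units.torsionOrder H) :=
    (IsPrimitiveRoot.coe_units_iff).2 h1
  obtain ⟨i, -, hi⟩ := h2.eq_pow_of_pow_eq_one (ξ := (ξ : L)) (by
    rw [← Units.val_pow_eq_pow_val, hξ, Units.val_one])
  refine ⟨η ^ i, ?_, ?_⟩
  · rw [← pow_mul, mul_comm, pow_mul, hη.pow_eq_one, one_pow]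
  · apply Units.ext
    rw [map_pow, Units.val_pow_eq_pow_val, hi]

/-- the action on the roots of unity -/
theorem act_roots (ρ : G) : ∃ k : ℕ, ∀ ζ : H, ζ ^ (Units.torsionOrder H) = 1 → ρ • ζ = ζ ^ k := by
  obtain ⟨η, hη⟩ := exists_gen H
  have he0 := Units.torsionOrder_pos H
  have : NeZero (Units.torsionOrder H) := ⟨he0.ne'⟩
  have h2 : IsPrimitiveRoot (η : H) (Units.torsionOrder H) := (IsPrimitiveRoot.coe_units_iff).2 hη
  obtain ⟨k, -, hk⟩ := h2.eq_pow_of_pow_eq_one (ξ := ρ • (η : H)) (by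
    rw [← smul_pow', h2.pow_eq_one, smul_one])
  refine ⟨k, fun ζ hζ => ?_⟩
  obtain ⟨i, -, hi⟩ := h2.eq_pow_of_pow_eq_one hζ
  rw [← hi, smul_pow', ← hk, ← pow_mul, ← pow_mul, mul_comm]

variable [IsGalois K L]

/-- the power condition and the group -/
theorem cen_of_power [hG : IsGaloisGroup G K H] (res : (L ≃ₐ[K] L) →* G)
    (hres : ∀ (g : L ≃ₐ[K] L) (x : H), g (algebraMap H L x) = algebraMap H L (res g • x))
    (u : Hˣ) (hu : PowerCond G (u : H) (Units.torsionOrder H)) (y : Lˣ)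
    (hy : y ^ (Units.torsionOrder H) = inj H L u) (a : L ≃ₐ[K] L) (ha : res a = 1) :
    a ∈ cen (L ≃ₐ[K] L) (y : L) := by
  set e := Units.torsionOrder H with he
  rw [mem_cen_iff]
  intro k
  obtain ⟨κ, hκ⟩ := act_roots (H := H) (res k)
  obtain ⟨h0, hh0⟩ := hu (res k) κ hκ
  have he0 : 0 < e := Units.torsionOrder_pos H
  have hne : h0 ≠ 0 := by
    rintro rfl
    rw [zero_pow he0.ne', mul_zero, ← act_val] at hh0
    exact (act (res k) u).ne_zero hh0
  obtain ⟨h, rfl⟩ : ∃ h : Hˣ, (h : H) = h0 := ⟨Units.mk0 h0 hne, rfl⟩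
  have hh : act (res k) u = u ^ κ * h ^ e := by
    apply Units.ext
    rw [act_val, hh0, Units.val_mul, Units.val_pow_eq_pow_val, Units.val_pow_eq_pow_val]
  obtain ⟨t, ht, hξ⟩ := root_in_H (H := H) (um a y * y⁻¹) (by
    rw [mul_pow, ← map_pow, ← he, hy, um_inj res hres, ha, act_one, inv_pow, hy, mul_inv_cancel])
  obtain ⟨s, hs, hζ⟩ := root_in_H (H := H) (um k y * (y ^ κ * inj H L h)⁻¹) (by
    rw [mul_pow, ← map_pow, ← he, hy, um_inj res hres, hh, inv_pow, mul_pow, ← pow_mul, mul_comm κ,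
      pow_mul, hy, map_mul, map_pow, map_pow, mul_inv_cancel])
  have e1 : um a y = inj H L t * y := by rw [hξ, inv_mul_cancel_right]
  have e2 : um k y = inj H L s * (y ^ κ * inj H L h) := by rw [hζ, inv_mul_cancel_right]
  have e3 : act (res k) t = t ^ κ := by
    apply Units.ext
    rw [act_val, Units.val_pow_eq_pow_val]
    apply hκ
    rw [← Units.val_pow_eq_pow_val, ht, Units.val_one]
  rw [e1, map_mul, um_inj res hres, e3, e2, map_mul, map_mul, map_pow (um a), e1,
    um_inj res hres, um_inj res hres, ha, act_one, act_one, mul_pow, map_pow, mul_left_comm,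
    mul_assoc (inj H L t ^ κ)]

/-- the group and the power condition -/
theorem power_of_cen [hG : IsGaloisGroup G K H] (res : (L ≃ₐ[K] L) →* G)
    (hsurj : Function.Surjective res)
    (hres : ∀ (g : L ≃ₐ[K] L) (x : H), g (algebraMap H L x) = algebraMap H L (res g • x))
    (u : Hˣ) (y : Lˣ) (hy : y ^ (Units.torsionOrder H) = inj H L u)
    (hrel : ∀ a : L ≃ₐ[K] L, res a = 1 → a ∈ cen (L ≃ₐ[K] L) (y : L)) :
    PowerCond G (u : H) (Units.torsionOrder H) := by
  set e := Units.torsionOrder H with he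
  intro ρ κ hκ
  obtain ⟨k, hk⟩ := hsurj ρ
  obtain ⟨h, hh⟩ := mem_of_fix res hres (um k y * (y ^ κ)⁻¹) (fun a ha => by
    obtain ⟨t, ht, hξ⟩ := root_in_H (H := H) (um a y * y⁻¹) (by
      rw [mul_pow, ← map_pow, ← he, hy, um_inj res hres, ha, act_one, inv_pow, hy,
        mul_inv_cancel])
    have e1 : um a y = inj H L t * y := by rw [hξ, inv_mul_cancel_right]
    have e3 : act ρ t = t ^ κ := by
      apply Units.ext
      rw [act_val, Units.val_pow_eq_pow_val]
      apply hκ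
      rw [← Units.val_pow_eq_pow_val, ht, Units.val_one]
    rw [map_mul, map_inv, map_pow, ← (mem_cen_iff y a).1 (hrel a ha) k, e1, map_mul,
      um_inj res hres, hk, e3, mul_pow, map_pow, mul_inv, mul_mul_mul_comm, mul_inv_cancel,
      one_mul])
  refine ⟨(h : H), ?_⟩
  have e4 : act ρ u = u ^ κ * h ^ e := by
    apply inj_injective (H := H) (L := L)
    rw [← hk, ← um_inj res hres, ← hy, map_mul, map_pow, map_pow, map_pow, hh, ← hy, mul_pow,
      inv_pow, ← pow_mul, ← pow_mul, mul_comm e κ, mul_comm (y ^ (κ * e)), inv_mul_cancel_right]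
  have e5 := congrArg Units.val e4
  rwa [act_val, Units.val_mul, Units.val_pow_eq_pow_val, Units.val_pow_eq_pow_val] at e5

/-- the restriction of a Frobenius automorphism -/
theorem res_frob [hG : IsGaloisGroup G K H] (res : (L ≃ₐ[K] L) →* G)
    (hres : ∀ (g : L ≃ₐ[K] L) (x : H), g (algebraMap H L x) = algebraMap H L (res g • x))
    (v : HeightOneSpectrum (𝓞 K)) (hsq : Squarefree (v.asIdeal.map (algebraMap (𝓞 K) (𝓞 H))))
    (σ : G) (hσ : IsFrob (H := H) v σ) (Q : HeightOneSpectrum (𝓞 L)) (g : L ≃ₐ[K] L)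
    (hg : FrobAt v Q g) : res g = σ := by
  obtain ⟨hQ, hgf⟩ := hg
  obtain ⟨w', hQw, hw'⟩ := exists_under K H L v Q hQ
  have hab : Above {v} w' := above_singleton.2 hw'
  have hfaith : FaithfulSMul G H := IsGaloisGroup.faithful K
  refine FaithfulSMul.eq_of_smul_eq_smul (α := H) fun x => ?_
  have h1 := Pool.Agent.K3h8.RS.restrict v w' hw' hsq Q hQw g hgf σ (hσ w' hab) x
  rw [hres] at h1
  exact (algebraMap H L).injective h1

end

variable {K H G : Type} [Field K] [NumberField K] [Field H] [NumberField H] [Algebra K H]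
  [CommGroup G] [Finite G] [MulSemiringAction G H]

/-- the version with the power condition -/
def SP (K : Type) [Field K] [NumberField K] [Algebra K H] (z : G → ℂ) (w₀ : InfinitePlace H) :
    Prop :=
  ∃ u : Hˣ, UnitOff K w₀ (u : H) ∧
    (∀ ρ : G, z ρ = -(1 / (Units.torsionOrder H : ℂ)) * (logAbs w₀ (ρ • (u : H)) : ℂ)) ∧
    PowerCond G (u : H) (Units.torsionOrder H)

variable [hG : IsGaloisGroup G K H]

theorem rat_of_sp (z : G → ℂ) (w₀ : InfinitePlace H) (h : SP K z w₀) : SQ K z w₀ := by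
  obtain ⟨u, hu, hz, -⟩ := h
  refine ⟨u, Units.torsionOrder H, Units.torsionOrder_pos H, hu, fun ρ => ?_⟩
  have h1 : (Units.torsionOrder H : ℂ) ≠ 0 := by exact_mod_cast Units.torsionOrder_ne_zero H
  rw [hz ρ]
  field_simp

/-- the version for `v` for almost all the `v` with Artin symbol `1` -/
theorem ts_of_sp (z : G → ℂ) (w₀ : InfinitePlace H) (bad₀ : Finset (HeightOneSpectrum (𝓞 K)))
    (hsq : ∀ v : HeightOneSpectrum (𝓞 K), v ∉ bad₀ →
      Squarefree (v.asIdeal.map (algebraMap (𝓞 K) (𝓞 H))))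
    (σ : HeightOneSpectrum (𝓞 K) → G)
    (hσ : ∀ v : HeightOneSpectrum (𝓞 K), v ∉ bad₀ → IsFrob (H := H) v (σ v)) (h : SP K z w₀) :
    ∃ fin : Finset (HeightOneSpectrum (𝓞 K)), ∀ v : HeightOneSpectrum (𝓞 K), v ∉ fin →
      σ v = 1 → TS K z w₀ (σ v) v := by
  classical
  obtain ⟨u, hu, hz, hp⟩ := h
  have he0 := Units.torsionOrder_pos H
  obtain ⟨L, _, _, _, _, _, hgal, -, hroot⟩ := exists_field K H (Units.torsionOrder H) 1 he0
    one_pos {u}
  obtain ⟨y, hy⟩ := hroot u (Subgroup.subset_closure (by simp))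
  obtain ⟨res, hsurj, hres⟩ := exists_res' K H L G
  obtain ⟨fin, hfin⟩ := exists_bad (K := K) L
  refine ⟨fin ∪ bad₀, fun v hv hv1 => ?_⟩
  rw [Finset.mem_union, not_or] at hv
  obtain ⟨Q, hQ⟩ := exists_over (L := L) v
  obtain ⟨g, hg⟩ := exists_frob K L v Q hQ
  rw [ts_iff z w₀ u (Units.torsionOrder H) he0 hu ?_ y hy
    (Units.torsionOrder L) (fun ξ hξ => root_pow ξ hξ) v (hsq v hv.2) (σ v) (hσ v hv.2) Q g
    ⟨hQ, hg⟩ (hfin v hv.1 Q hQ)]
  · refine cen_of_power res hres u hp y hy g ?_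
    rw [res_frob res hres v (hsq v hv.2) (σ v) (hσ v hv.2) Q g ⟨hQ, hg⟩, hv1]
  · intro ρ
    have h1 : (Units.torsionOrder H : ℂ) ≠ 0 := by exact_mod_cast Units.torsionOrder_ne_zero H
    rw [hz ρ]
    field_simp

/-- powers of an automorphism which fixes `H` -/
theorem pow_fix {L : Type} [Field L] [NumberField L] [Algebra H L] [Algebra K L]
    [IsScalarTower K H L] [IsGalois K L] (res : (L ≃ₐ[K] L) →* G)
    (hres : ∀ (g : L ≃ₐ[K] L) (x : H), g (algebraMap H L x) = algebraMap H L (res g • x))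
    (u : Hˣ) (y : Lˣ) (hy : y ^ (Units.torsionOrder H) = inj H L u) (a : L ≃ₐ[K] L)
    (ha : res a = 1) : a ^ (Units.torsionOrder H) • (y : L) = (y : L) := by
  set e := Units.torsionOrder H with he
  obtain ⟨t, ht, hξ⟩ := root_in_H (H := H) (um a y * y⁻¹) (by
    rw [mul_pow, ← map_pow, ← he, hy, um_inj res hres, ha, act_one, inv_pow, hy, mul_inv_cancel])
  have e1 : um a y = inj H L t * y := by rw [hξ, inv_mul_cancel_right]
  have key : ∀ n : ℕ, um (a ^ n) y = inj H L t ^ n * y := by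
    intro n
    induction n with
    | zero => rw [pow_zero, pow_zero, one_mul, um_one]
    | succ n ih =>
      rw [pow_succ', um_mul, ih, map_mul, map_pow, um_inj res hres, ha, act_one, e1, pow_succ,
        mul_assoc]
  have h1 := key e
  rw [← map_pow, ht, map_one, one_mul] at h1
  exact congrArg Units.val h1

/-- **the main theorem** on the prime ideals with a given Artin symbol -/
theorem class_main (z : G → ℂ) (w₀ : InfinitePlace H) (bad₀ : Finset (HeightOneSpectrum (𝓞 K)))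
    (hsq : ∀ v : HeightOneSpectrum (𝓞 K), v ∉ bad₀ →
      Squarefree (v.asIdeal.map (algebraMap (𝓞 K) (𝓞 H))))
    (σ : HeightOneSpectrum (𝓞 K) → G)
    (hσ : ∀ v : HeightOneSpectrum (𝓞 K), v ∉ bad₀ → IsFrob (H := H) v (σ v))
    (S : G → HeightOneSpectrum (𝓞 K) → Prop)
    (hS : ∀ (ρ : G) (v : HeightOneSpectrum (𝓞 K)), v ∉ bad₀ → (S ρ v ↔ σ v = ρ)) :
    ∃ d : G → ℝ,
      (∀ ρ : G, Tendsto (proportionIn (S ρ) (fun v => TS K z w₀ (σ v) v)) atTop (𝓝 (d ρ))) ∧
      (∀ T : Set G, T.Nonempty → (∀ p : ℕ, p.Prime → p ∣ Units.torsionOrder H →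
          ∀ P : Sylow p (G ⧸ Subgroup.closure T), IsCyclic P) →
        (SK K z w₀ ↔ ∀ ρ ∈ T, 1 / 2 < d ρ)) ∧
      (SP K z w₀ ↔ 1 / 2 < d 1) ∧
      ((∀ ρ : G, d ρ = 0) ∨ ∃ (B : Subgroup G) (n : ℕ), 0 < n ∧
        (∀ ρ ∈ B, d ρ = 1 / n) ∧ ∀ ρ : G, ρ ∉ B → d ρ = 0) := by
  classical
  by_cases hQ : SQ K z w₀
  · obtain ⟨u, m, hm, hu, hz⟩ := hQ
    have he0 := Units.torsionOrder_pos H
    obtain ⟨L, _, _, _, _, _, hgal, ⟨θ, hθ⟩, hroot⟩ := exists_field K H m
      (m * Units.torsionOrder H * Units.torsionOrder H) hm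
      (Nat.mul_pos (Nat.mul_pos hm he0) he0) {u}
    obtain ⟨y, hy⟩ := hroot u (Subgroup.subset_closure (by simp))
    obtain ⟨res, hsurj, hres⟩ := exists_res' K H L G
    obtain ⟨fin, hfin⟩ := exists_bad (K := K) L
    have hres1 : ∀ v : HeightOneSpectrum (𝓞 K), v ∉ fin ∪ bad₀ → ∀ (Q : HeightOneSpectrum (𝓞 L))
        (g : L ≃ₐ[K] L), FrobAt v Q g → res g = σ v := by
      intro v hv Q g hg
      rw [Finset.mem_union, not_or] at hv
      exact res_frob res hres v (hsq v hv.2) (σ v) (hσ v hv.2) Q g hg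
    have hR' : ∀ (u : Hˣ) (m : ℕ), 0 < m → u ∈ uo K w₀ →
        (∀ ρ : G, (m : ℂ) * z ρ = -(logAbs w₀ (ρ • (u : H)) : ℂ)) →
        ∀ y : Lˣ, y ^ m = inj H L u →
        ∀ v : HeightOneSpectrum (𝓞 K), v ∉ fin ∪ bad₀ → ∀ (Q : HeightOneSpectrum (𝓞 L))
        (g : L ≃ₐ[K] L), FrobAt v Q g →
        (TS K z w₀ (σ v) v ↔ g ∈ cen (L ≃ₐ[K] L) (y : L)) := by
      intro u m hm hu hz y hy v hv Q g hg
      rw [Finset.mem_union, not_or] at hv
      exact ts_iff z w₀ u m hm hu hz y hy (Units.torsionOrder L) (fun ξ hξ => root_pow ξ hξ) v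
        (hsq v hv.2) (σ v) (hσ v hv.2) Q g hg (hfin v hv.1 Q hg.1)
    have hR := hR' u m hm hu hz y hy
    have hnorm : (cen (L ≃ₐ[K] L) (y : L)).Normal := cen_normal _
    -- the criteria
    have hA : (∀ a : L ≃ₐ[K] L, res a = 1 → a ∈ cen (L ≃ₐ[K] L) (y : L)) → SP K z w₀ := by
      intro h
      obtain ⟨u', hu', hz', hr⟩ := root_of_rel res hres z w₀ u m hm hu hz y hy θ hθ h
      obtain ⟨y', hy', hc⟩ := hr 1 (one_pow _)
      rw [mul_one] at hy'
      exact ⟨u', hu', hz', power_of_cen res hsurj hres u' y' hy' hc⟩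
    have hB : SP K z w₀ → ∀ a : L ≃ₐ[K] L, res a = 1 → a ∈ cen (L ≃ₐ[K] L) (y : L) := by
      intro h a ha
      obtain ⟨fin', hfin'⟩ := ts_of_sp z w₀ bad₀ hsq σ hσ h
      obtain ⟨v, hv, Q, hQ⟩ := exists_frobAt a ((fin ∪ bad₀) ∪ fin')
      rw [Finset.mem_union, not_or] at hv
      rw [← hR v hv.1 Q a hQ]
      exact hfin' v hv.2 (by rw [← hres1 v hv.1 Q a hQ, ha])
    have hC : SK K z w₀ → cen (L ≃ₐ[K] L) (y : L) = ⊤ := by
      intro h
      obtain ⟨fin', hfin'⟩ := ts_of_sk z w₀ bad₀ hsq σ hσ h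
      exact top_iff hR fin' hfin'
    -- the classes
    let C₁ : G → Set (L ≃ₐ[K] L) := fun ρ => {g | res g = ρ}
    let C₀ : G → Set (L ≃ₐ[K] L) := fun ρ => {g | res g = ρ ∧ g ∈ cen (L ≃ₐ[K] L) (y : L)}
    have hconj : ∀ g h : L ≃ₐ[K] L, res (h * g * h⁻¹) = res g := by
      intro g h
      rw [map_mul, map_mul, map_inv, mul_comm (res h), mul_inv_cancel_right]
    have hn : (0 : ℝ) < (Nat.card (L ≃ₐ[K] L) : ℝ) := by exact_mod_cast Nat.card_pos
    have hc1 : ∀ ρ : G, (C₁ ρ).ncard = (C₁ 1).ncard := by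
      intro ρ
      obtain ⟨g₀, hg₀⟩ := hsurj ρ
      rw [← Set.ncard_image_of_injective (C₁ 1) (mul_right_injective g₀)]
      congr 1
      ext g
      constructor
      · intro hg
        refine ⟨g₀⁻¹ * g, ?_, mul_inv_cancel_left _ _⟩
        change res (g₀⁻¹ * g) = 1
        rw [map_mul, map_inv, hg₀, show res g = ρ from hg, inv_mul_cancel]
      · rintro ⟨g', hg', rfl⟩
        change res (g₀ * g') = ρ
        rw [map_mul, hg₀, show res g' = 1 from hg', mul_one]
    have hc0 : ∀ g₀ : L ≃ₐ[K] L, g₀ ∈ cen (L ≃ₐ[K] L) (y : L) →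
        (C₀ (res g₀)).ncard = (C₀ 1).ncard := by
      intro g₀ hg₀
      rw [← Set.ncard_image_of_injective (C₀ 1) (mul_right_injective g₀)]
      congr 1
      ext g
      constructor
      · intro hg
        refine ⟨g₀⁻¹ * g, ⟨?_, Subgroup.mul_mem _ (Subgroup.inv_mem _ hg₀) hg.2⟩,
          mul_inv_cancel_left _ _⟩
        rw [map_mul, map_inv, hg.1, inv_mul_cancel]
      · rintro ⟨g', hg', rfl⟩
        refine ⟨?_, Subgroup.mul_mem _ hg₀ hg'.2⟩
        change res (g₀ * g') = res g₀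
        rw [map_mul, hg'.1, mul_one]
    have hc1pos : (0 : ℝ) < ((C₁ 1).ncard : ℝ) := by
      have : 0 < (C₁ 1).ncard := by
        rw [Set.ncard_pos (Set.toFinite (C₁ 1))]
        exact ⟨1, map_one res⟩
      exact_mod_cast this
    obtain ⟨n, hn0, hcn, hn1⟩ : ∃ n : ℕ, 0 < n ∧ (C₀ 1).ncard * n = (C₁ 1).ncard ∧
        (n = 1 ↔ ∀ a : L ≃ₐ[K] L, res a = 1 → a ∈ cen (L ≃ₐ[K] L) (y : L)) := by
      have h1 := Subgroup.relIndex_mul_relIndex (⊥ : Subgroup (L ≃ₐ[K] L))
        (cen (L ≃ₐ[K] L) (y : L) ⊓ res.ker) res.ker bot_le inf_le_right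
      rw [Subgroup.relIndex_bot_left, Subgroup.relIndex_bot_left, Subgroup.inf_relIndex_right] at h1
      refine ⟨(cen (L ≃ₐ[K] L) (y : L)).relIndex res.ker, ?_, ?_, ?_⟩
      · refine Nat.pos_of_ne_zero fun h => ?_
        rw [h, mul_zero] at h1
        exact Nat.card_pos.ne h1
      · have e0 : (C₀ 1).ncard = Nat.card (cen (L ≃ₐ[K] L) (y : L) ⊓ res.ker : Subgroup _) := by
          rw [← Nat.card_coe_set_eq]
          exact Nat.card_congr (Equiv.subtypeEquivRight fun g => and_comm)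
        have e1 : (C₁ 1).ncard = Nat.card res.ker := by
          rw [← Nat.card_coe_set_eq]
          exact Nat.card_congr (Equiv.subtypeEquivRight fun g => Iff.rfl)
        rw [e0, e1, h1]
      · rw [Subgroup.relIndex_eq_one]
        exact Iff.rfl
    let d : G → ℝ := fun ρ => ((C₀ ρ).ncard : ℝ) / ((C₁ ρ).ncard : ℝ)
    have hdn : (0 : ℝ) < (n : ℝ) := by exact_mod_cast hn0
    have hc0pos : (0 : ℝ) < ((C₀ 1).ncard : ℝ) := by
      have : 0 < (C₀ 1).ncard := by
        rw [Set.ncard_pos (Set.toFinite (C₀ 1))]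
        exact ⟨1, map_one res, Subgroup.one_mem _⟩
      exact_mod_cast this
    have hdB : ∀ g₀ : L ≃ₐ[K] L, g₀ ∈ cen (L ≃ₐ[K] L) (y : L) → d (res g₀) = 1 / n := by
      intro g₀ hg₀
      change ((C₀ (res g₀)).ncard : ℝ) / ((C₁ (res g₀)).ncard : ℝ) = 1 / n
      rw [hc0 g₀ hg₀, hc1, ← hcn, Nat.cast_mul]
      field_simp
    have hdB' : ∀ ρ : G, ρ ∉ (cen (L ≃ₐ[K] L) (y : L)).map res → d ρ = 0 := by
      intro ρ hρ
      have h1 : C₀ ρ = ∅ := by
        rw [Set.eq_empty_iff_forall_notMem]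
        intro g hg
        exact hρ ⟨g, hg.2, hg.1⟩
      change ((C₀ ρ).ncard : ℝ) / ((C₁ ρ).ncard : ℝ) = 0
      rw [h1, Set.ncard_empty, Nat.cast_zero, zero_div]
    have hd1 : d 1 = 1 / n := by
      have h1 := hdB 1 (Subgroup.one_mem _)
      rwa [map_one] at h1
    have hhalf : (1 : ℝ) / 2 < 1 / n ↔ n = 1 := by
      constructor
      · intro h
        have h1 := (one_div_lt_one_div (by norm_num) hdn).1 h
        have h2 : n < 2 := by exact_mod_cast h1
        omega
      · rintro rfl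
        norm_num
    refine ⟨d, fun ρ => ?_, fun T hT hcyc => ?_, ?_, ?_⟩
    · -- the densities
      have hd1 := Pool.Agent.J6H32.RT.density_set (C₁ ρ)
        (fun g hg h => (hconj g h).trans hg) (bad := fin ∪ bad₀) (R := S ρ) (by
          intro v hv Q g hg
          have h1 := hres1 v hv Q g hg
          rw [Finset.mem_union, not_or] at hv
          rw [hS ρ v hv.2, ← h1]
          exact Iff.rfl)
      have hd0 := Pool.Agent.J6H32.RT.density_set (C₀ ρ)
        (fun g hg h => ⟨(hconj g h).trans hg.1, hnorm.conj_mem g hg.2 h⟩)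
        (bad := fin ∪ bad₀) (R := fun v => S ρ v ∧ TS K z w₀ (σ v) v) (by
          intro v hv Q g hg
          have h1 := hres1 v hv Q g hg
          have h2 := hR v hv Q g hg
          rw [Finset.mem_union, not_or] at hv
          rw [hS ρ v hv.2, h2, ← h1]
          exact Iff.rfl)
      have hc1' : (0 : ℝ) < ((C₁ ρ).ncard : ℝ) := by rw [hc1]; exact hc1pos
      have hlim := hd0.div hd1 (div_pos hc1' hn).ne'
      rw [div_div_div_cancel_right₀ hn.ne'] at hlim
      refine hlim.congr' ?_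
      filter_upwards [pi_top.eventually_gt_atTop 0] with X hX
      simp only [Pi.div_apply]
      unfold proportionIn
      rw [div_div_div_cancel_right₀ hX.ne']
    · constructor
      · intro h ρ _
        have htop := hC h
        obtain ⟨g₀, rfl⟩ := hsurj ρ
        rw [hdB g₀ (by rw [htop]; exact Subgroup.mem_top _), hhalf, hn1]
        intro a _
        rw [htop]
        exact Subgroup.mem_top _
      · intro h
        have hmem : ∀ ρ ∈ T, ∃ g₀ : L ≃ₐ[K] L, g₀ ∈ cen (L ≃ₐ[K] L) (y : L) ∧ res g₀ = ρ := by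
          intro ρ hρ
          by_contra hcon
          have h1 := hdB' ρ (fun ⟨g, h1, h2⟩ => hcon ⟨g, h1, h2⟩)
          have h2 := h ρ hρ
          rw [h1] at h2
          norm_num at h2
        have hrel : ∀ a : L ≃ₐ[K] L, res a = 1 → a ∈ cen (L ≃ₐ[K] L) (y : L) := by
          obtain ⟨ρ, hρ⟩ := hT
          obtain ⟨g₀, h1, h2⟩ := hmem ρ hρ
          have h3 := h ρ hρ
          rw [← h2, hdB g₀ h1, hhalf] at h3
          exact hn1.1 h3
        obtain ⟨u', hu', hz', hr⟩ := root_of_rel res hres z w₀ u m hm hu hz y hy θ hθ hrel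
        obtain ⟨y', hy', hc⟩ := hr 1 (one_pow _)
        rw [mul_one] at hy'
        have hz'' : ∀ ρ : G, (Units.torsionOrder H : ℂ) * z ρ =
            -(logAbs w₀ (ρ • (u' : H)) : ℂ) := by
          intro ρ
          have h1 : (Units.torsionOrder H : ℂ) ≠ 0 := by
            exact_mod_cast Units.torsionOrder_ne_zero H
          rw [hz' ρ]
          field_simp
        have hR2 := hR' u' (Units.torsionOrder H) he0 hu' hz'' y' hy'
        have htop := top_of_sylow res hsurj (y' : L) hc (Units.torsionOrder H)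
          (fun a ha => pow_fix res hres u' y' hy' a ha) T (by
            intro a ha
            obtain ⟨g₀, h1, h2⟩ := hmem _ ha
            have h3 : a ∈ cen (L ≃ₐ[K] L) (y : L) := by
              have h4 : res (a * g₀⁻¹) = 1 := by rw [map_mul, map_inv, h2, mul_inv_cancel]
              have h5 := (cen (L ≃ₐ[K] L) (y : L)).mul_mem (hrel _ h4) h1
              rwa [inv_mul_cancel_right] at h5
            obtain ⟨v, hv, Q, hQ⟩ := exists_frobAt a (fin ∪ bad₀)
            exact (hR2 v hv Q a hQ).1 ((hR v hv Q a hQ).2 h3)) hcyc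
        have hθ' : orderOf (θ ^ m) = Units.torsionOrder H * Units.torsionOrder H := by
          rw [orderOf_pow_of_dvd hm.ne' (by rw [hθ, mul_assoc]; exact Dvd.intro _ rfl), hθ,
            mul_assoc, Nat.mul_div_cancel_left _ hm]
        exact sk_of_top z w₀ u' _ he0 hu' hz'' y' hy' _ hθ' htop
    · rw [hd1, hhalf, hn1]
      exact ⟨hB, hA⟩
    · right
      refine ⟨(cen (L ≃ₐ[K] L) (y : L)).map res, n, hn0, ?_, hdB'⟩
      rintro _ ⟨g₀, h1, rfl⟩
      exact hdB g₀ h1
  · have h0 : ∀ v : HeightOneSpectrum (𝓞 K), ¬ TS K z w₀ (σ v) v :=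
      fun v h => hQ (rat_of_ts z w₀ (σ v) v h)
    have h1 : ¬ SP K z w₀ := fun h => hQ (rat_of_sp z w₀ h)
    have h2 : ¬ SK K z w₀ := fun h => hQ (rat_of_sk z w₀ h)
    refine ⟨fun _ => 0, fun ρ => ?_, fun T hT _ => ⟨fun h => absurd h h2, fun h => ?_⟩,
      ⟨fun h => absurd h h1, fun h => ?_⟩, Or.inl fun _ => rfl⟩
    · refine tendsto_const_nhds.congr fun X => ?_
      have h3 : IsEmpty {v : HeightOneSpectrum (𝓞 K) //
          (S ρ v ∧ TS K z w₀ (σ v) v) ∧ Ideal.absNorm v.asIdeal ≤ X} := ⟨fun x => h0 x.1 x.2.1.2⟩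
      unfold proportionIn
      rw [Nat.card_of_isEmpty, Nat.cast_zero, zero_div]
    · obtain ⟨ρ, hρ⟩ := hT
      have h3 := h ρ hρ
      norm_num at h3
    · norm_num at h

end Pool.Agent.J6H32.SR
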