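import Pool.Agent.J6H32.SR.OneB
import Pool.Agent.J6H32.SR.OneD
import Pool.Agent.J6H32.SR.Split

/-!
# Rubin's conjecture for `r = 1`: the field
-/

set_option autoImplicit false
set_option linter.unusedSectionVars false

open NumberField IsDedekindDomain Filter Topology

noncomputable section

namespace Pool.Agent.J6H32.SR

open Pool.Agent.K3h30.RS Pool.Agent.K3h8.RS Pool.Agent.K3h43.RS Pool.Agent.J6H32.RU

variable {F H G : Type} [Field F] [NumberField F] [Field H] [NumberField H] [Algebra F H]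
  [CommGroup G] [Finite G] [MulSemiringAction G H]

/-- the quotient `x₀ / σ⁻¹ (x₀) ^ N` -/
theorem val_quot [hG : IsGaloisGroup G F H] (D : RubinData F H G) (x₀ t : US D) (σ : G) (N : ℕ)
    (ht : (t : Hˣ) = (x₀ : Hˣ) * ((act σ⁻¹ (x₀ : Hˣ)) ^ N)⁻¹)
    (f : Additive (US D) →+ MonoidAlgebra ℚ G) (hf : IsEquiv D f) :
    (1 - MonoidAlgebra.single σ⁻¹ (N : ℚ)) * f (Additive.ofMul x₀) = f (Additive.ofMul t) := by
  have ht' : t = x₀ * ((⟨act σ⁻¹ (x₀ : Hˣ), act_mem Pool.Agent.K3h25.RS.t_TRANS _ _ σ⁻¹ x₀.2⟩ :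
      US D) ^ N)⁻¹ := Subtype.ext ht
  rw [ht', ofMul_mul, ofMul_inv, ofMul_pow, map_add, map_neg, map_nsmul,
    hf σ⁻¹ x₀ ⟨act σ⁻¹ (x₀ : Hˣ), _⟩ rfl, sub_mul, one_mul, ← smul_mul_assoc,
    MonoidAlgebra.smul_single, nsmul_eq_mul, mul_one, sub_eq_add_neg]

/-- **Rubin's conjecture for `r = 1` and `{v}`** -/
theorem rubin_iff_unit [hG : IsGaloisGroup G F H] [DecidableEq (HeightOneSpectrum (𝓞 F))]
    (D : RubinData F H G) (hr : D.r = 1) {T₁ : Finset (HeightOneSpectrum (𝓞 F))}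
    (h : D.Stark T₁) :
    ∃ (m : ℕ) (x₀ : Hˣ), 0 < m ∧ x₀ ∈ US D ∧ ∀ v : HeightOneSpectrum (𝓞 F), v ∉ D.S →
      (D.Rubin {v} ↔ ∃ x : Hˣ, x ∈ US D ∧ (∀ P : HeightOneSpectrum (𝓞 H),
        P.asIdeal.comap (algebraMap (𝓞 F) (𝓞 H)) = v.asIdeal → P.valuation H ((x : H) - 1) < 1) ∧
        ∃ n : ℕ, 0 < n ∧
          (x ^ m * (x₀ * ((act (D.σ v)⁻¹ x₀) ^ (Ideal.absNorm v.asIdeal))⁻¹)⁻¹) ^ n = 1) := by
  obtain ⟨u₁, e₁, s₁⟩ := stark_all D h ∅ (Finset.disjoint_empty_right _)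
  have hun : Nonempty (Unique (Fin D.r)) := by
    rw [hr]
    exact ⟨inferInstance⟩
  obtain ⟨iun⟩ := hun
  obtain ⟨m, x₀, hm, hx₀⟩ := exists_sum D (Finset.univ : Finset (Fin u₁.n)) u₁.c
    (fun k => (⟨(u₁.x k default : Hˣ), U_le D ∅ (u₁.x k default).2⟩ : US D))
  have hwval : ∀ f : Fin D.r → Additive (US D) →+ MonoidAlgebra ℚ G, IsEquiv D (f default) →
      m • wval D (U_le D ∅) f u₁ = f default (Additive.ofMul x₀) := by
    intro f hf
    rw [← hx₀ _ hf]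
    congr 1
    unfold wval
    refine Finset.sum_congr rfl fun k _ => ?_
    rw [Matrix.det_unique]
    rfl
  refine ⟨m, (x₀ : Hˣ), hm, x₀.2, fun v hv => ?_⟩
  have hmem : (x₀ : Hˣ) * ((act (D.σ v)⁻¹ (x₀ : Hˣ)) ^ (Ideal.absNorm v.asIdeal))⁻¹ ∈ US D :=
    (US D).mul_mem x₀.2 ((US D).inv_mem ((US D).pow_mem
      (act_mem Pool.Agent.K3h25.RS.t_TRANS _ _ (D.σ v)⁻¹ x₀.2) _))
  have h1 := rubin_iff_int D ∅ (Finset.disjoint_empty_right _) u₁ e₁ s₁ v hv
    (Finset.notMem_empty v)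
  rw [insert_empty_eq] at h1
  have h2 := dual_iff D {v} m hm ⟨_, hmem⟩
  have h3 : (∀ f : Fin D.r → Additive (US D) →+ MonoidAlgebra ℚ G,
      (∀ i, IsEquiv D (f i)) → (∀ i, IntOn D {v} (f i)) →
      D.delta {v} * wval D (U_le D ∅) f u₁ ∈ (toQ (G := G)).range) ↔
      ∀ f : Additive (US D) →+ MonoidAlgebra ℚ G, IsEquiv D f → IntOn D {v} f →
      ∃ q ∈ (toQ (G := G)).range, m • q = f (Additive.ofMul ⟨_, hmem⟩) := by
    have key : ∀ f : Fin D.r → Additive (US D) →+ MonoidAlgebra ℚ G, IsEquiv D (f default) →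
        m • (D.delta {v} * wval D (U_le D ∅) f u₁) =
          f default (Additive.ofMul ⟨_, hmem⟩) := by
      intro f hf
      rw [← mul_smul_comm, hwval f hf, delta_single]
      exact val_quot D x₀ ⟨_, hmem⟩ (D.σ v) _ rfl (f default) hf
    constructor
    · intro h f hf hi
      exact ⟨_, h (fun _ => f) (fun _ => hf) (fun _ => hi), key (fun _ => f) hf⟩
    · intro h f hf hi
      obtain ⟨q, hq, hqm⟩ := h (f default) (hf default) (hi default)
      rw [← key f (hf default)] at hqm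
      have hm' : (m : ℚ) ≠ 0 := by positivity
      have h4 : (m : ℚ) • q = (m : ℚ) • (D.delta {v} * wval D (U_le D ∅) f u₁) := by
        rw [Nat.cast_smul_eq_nsmul, Nat.cast_smul_eq_nsmul]
        exact hqm
      rw [← smul_right_injective _ hm' h4]
      exact hq
  rw [h1, h3, h2]
  constructor
  · rintro ⟨x, hx, n, hn, h4⟩
    refine ⟨(x : Hˣ), x.2, fun P hP => hx.2 P ?_, n, hn, congrArg Subtype.val h4⟩
    rw [Finset.coe_singleton]
    exact above_singleton.2 hP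
  · rintro ⟨x, hx, hP, n, hn, h4⟩
    refine ⟨⟨x, hx⟩, ⟨hx.1, fun P hP' => hP P ?_⟩, n, hn, Subtype.ext h4⟩
    rw [Finset.coe_singleton] at hP'
    exact above_singleton.1 hP'

/-- the field for `r = 1` -/
theorem one_main [hG : IsGaloisGroup G F H] [DecidableEq (HeightOneSpectrum (𝓞 F))]
    (D : RubinData F H G) (hr : D.r = 1) {T₁ : Finset (HeightOneSpectrum (𝓞 F))}
    (h : D.Stark T₁) :
    ∃ (K : Type) (_ : Field K) (_ : NumberField K) (_ : Algebra F K) (_ : IsGalois F K)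
      (bad : Finset (HeightOneSpectrum (𝓞 F))),
      (∀ v : HeightOneSpectrum (𝓞 F), v ∉ bad → (D.Rubin {v} ↔ SplitsIn K v)) ∧
      Tendsto (fun X : ℕ => (Nat.card {v : HeightOneSpectrum (𝓞 F) //
        D.Rubin {v} ∧ Ideal.absNorm v.asIdeal ≤ X} : ℝ) / (Nat.primeCounting X : ℝ))
        atTop (𝓝 (1 / (Module.finrank F K : ℝ))) ∧
      (Module.finrank F K = 1 ↔ ∃ fin : Finset (HeightOneSpectrum (𝓞 F)),
        ∀ v : HeightOneSpectrum (𝓞 F), v ∉ fin → D.Rubin {v}) ∧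
      (IsCyclic (K ≃ₐ[F] K) → Module.finrank F K = 1) ∧
      (Module.finrank F K = 1 ∨ 4 ≤ Module.finrank F K) ∧
      ∃ d : G → ℝ,
        (∀ σ : G, Tendsto (proportionIn (fun v => v ∉ D.S ∧ D.σ v = σ) (fun v => D.Rubin {v}))
          atTop (𝓝 (d σ))) ∧
        (∀ T : Set G, T.Nonempty → IsCyclic (G ⧸ Subgroup.closure T) →
          (Module.finrank F K = 1 ↔ ∀ σ ∈ T, 1 / 2 < d σ)) ∧
        ∃ (B : Subgroup G) (n : ℕ), 0 < n ∧
          (∀ σ ∈ B, d σ = 1 / n) ∧ ∀ σ : G, σ ∉ B → d σ = 0 := by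
  obtain ⟨m, x₀, hm, hx₀, hru⟩ := rubin_iff_unit D hr h
  obtain ⟨L, _, _, _, _, _, hgal, -, hroot⟩ := exists_field F H m 1 hm one_pos {x₀}
  obtain ⟨y, hy⟩ := hroot x₀ (Subgroup.subset_closure (by simp))
  obtain ⟨res, hsurj, hres⟩ := exists_res' F H L G
  obtain ⟨fin, hfin⟩ := exists_bad (K := F) L
  let Γ₀ : Subgroup (L ≃ₐ[F] L) := cen (L ≃ₐ[F] L) (y : L)
  have hR : ∀ v : HeightOneSpectrum (𝓞 F), v ∉ fin ∪ D.S → ∀ (Q : HeightOneSpectrum (𝓞 L))
      (g : L ≃ₐ[F] L), FrobAt v Q g → (D.Rubin {v} ↔ g ∈ Γ₀) := by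
    intro v hv Q g hg
    rw [Finset.mem_union, not_or] at hv
    rw [hru v hv.2]
    refine core_iff (US D) (fun γ x hx => act_mem Pool.Agent.K3h25.RS.t_TRANS _ _ γ hx) ?_ x₀ m hm
      hx₀ y hy (Units.torsionOrder L) (fun ξ hξ => root_pow ξ hξ) v (D.unramified v hv.2) (D.σ v)
      (D.frob v hv.2) Q g hg (hfin v hv.1 Q hg.1) ?_
    · intro n x hn hx
      refine ⟨fun w hw => ?_, fun w hw => ?_⟩
      · have h3 := hx.1 w hw
        rw [Units.val_pow_eq_pow_val, map_pow] at h3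
        exact (pow_eq_one_iff_of_nonneg zero_le hn.ne').mp h3
      · obtain ⟨v', hv', -⟩ := hw
        exact absurd hv' (Set.notMem_empty v')
    · intro x hx w hw
      refine hx.1 w ?_
      rw [above_iff (v := v) (above_singleton.2 hw)]
      exact fun h => hv.2 (Finset.mem_coe.1 h)
  have hnorm : Γ₀.Normal := cen_normal _
  obtain ⟨bad', hbad'⟩ := split_iff hR
  have hdens := density_of hR
  rw [← finrank_fixed] at hdens
  refine ⟨IntermediateField.fixedField Γ₀, inferInstance, inferInstance, inferInstance,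
    IsGalois.of_fixedField_normal_subgroup Γ₀, bad', hbad', hdens, ?_, ?_, ?_, ?_⟩
  · rw [finrank_fixed, Subgroup.index_eq_one]
    constructor
    · intro htop
      refine ⟨fin ∪ D.S, fun v hv => ?_⟩
      obtain ⟨Q, hQ⟩ := exists_over (L := L) v
      obtain ⟨g, hg⟩ := exists_frob F L v Q hQ
      rw [hR v hv Q g ⟨hQ, hg⟩, htop]
      exact Subgroup.mem_top _
    · rintro ⟨fin', hfin'⟩
      exact top_iff hR fin' hfin'
  · intro hcyc
    rw [finrank_fixed, Subgroup.index_eq_one]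
    have e := IsGalois.normalAutEquivQuotient Γ₀
    exact cen_top_of_cyclic _ (isCyclic_of_injective e.toMonoidHom e.injective)
  · rw [finrank_fixed]
    exact cen_index _
  · rw [finrank_fixed, Subgroup.index_eq_one]
    exact class_gen res hsurj (y : L) (fin ∪ D.S) (fun v => D.Rubin {v}) hR
      (fun σ v => v ∉ D.S ∧ D.σ v = σ) (fun ρ v hv Q g hg => by
        rw [Finset.mem_union, not_or] at hv
        rw [← res_frob res hres v (D.unramified v hv.2) (D.σ v) (D.frob v hv.2) Q g hg]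
        exact ⟨fun h => h.2, fun h => ⟨hv.2, h⟩⟩)

end Pool.Agent.J6H32.SR
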