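import Pool.Agent.J6H32.SR.Fin2
import Pool.Agent.J6H32.RT.Cls

/-!
# The version of the rank one Stark conjecture for two prime ideals
-/

set_option autoImplicit false
set_option linter.unusedSectionVars false

open NumberField IsDedekindDomain Filter Topology

noncomputable section

namespace Pool.Agent.J6H32.SR

open Pool.Agent.K3h30.RS Pool.Agent.K3h8.RS Pool.Agent.K3h43.RS Pool.Agent.J6H32.RU

section group

variable {Γ X : Type} [Group Γ] [MulAction Γ X]

/-- `g` and `g'` commute on the orbit of `y` -/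
def Com (y : X) (g g' : Γ) : Prop := ∀ k : Γ, (g * g' * k) • y = (g' * g * k) • y

/-- the elements which commute with `g` on the orbit of `y` -/
def coms (y : X) (g : Γ) : Subgroup Γ where
  carrier := {g' | Com y g g'}
  one_mem' := fun k => by rw [mul_one, one_mul]
  mul_mem' := by
    intro a b ha hb k
    calc (g * (a * b) * k) • y = (g * a * (b * k)) • y := by congr 1; group
      _ = (a * g * (b * k)) • y := ha _
      _ = a • (g * b * k) • y := by rw [← mul_smul]; congr 1; group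
      _ = a • (b * g * k) • y := by rw [hb k]
      _ = (a * b * g * k) • y := by rw [← mul_smul]; congr 1; group
  inv_mem' := by
    intro a ha k
    have h := ha (a⁻¹ * k)
    calc (g * a⁻¹ * k) • y = a⁻¹ • (a * g * (a⁻¹ * k)) • y := by
          rw [← mul_smul]; congr 1; group
      _ = a⁻¹ • (g * a * (a⁻¹ * k)) • y := by rw [← h]
      _ = (a⁻¹ * g * k) • y := by rw [← mul_smul]; congr 1; group

theorem coms_top {y : X} {g : Γ} (h : coms y g = ⊤) : g ∈ cen Γ y := by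
  rw [mem_cen]
  intro k
  have h1 : k ∈ coms y g := by rw [h]; exact Subgroup.mem_top _
  have h2 := h1 1
  rw [mul_one, mul_one] at h2
  exact h2.symm

/-- the proportion of the commuting pairs is at most `5/8` -/
theorem five_eighths [Finite Γ] (y : X) (hne : cen Γ y ≠ ⊤) :
    ∑ᶠ g : Γ, (Nat.card (coms y g) : ℝ) ≤ 5 / 8 * (Nat.card Γ : ℝ) ^ 2 := by
  classical
  have := Fintype.ofFinite Γ
  rw [finsum_eq_sum_of_fintype]
  set n : ℝ := (Nat.card Γ : ℝ) with hn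
  have hn0 : 0 < n := by
    rw [hn]; exact_mod_cast Nat.card_pos
  have h1 : ∀ g : Γ, (Nat.card (coms y g) : ℝ) ≤ if g ∈ cen Γ y then n else n / 2 := by
    intro g
    split_ifs with hg
    · have h2 : Nat.card (coms y g) ≤ Nat.card Γ := Subgroup.card_le_card_group _
      rw [hn]
      exact_mod_cast h2
    · have h2 : (coms y g).index ≠ 1 := by
        rw [Ne, Subgroup.index_eq_one]
        exact fun h => hg (coms_top h)
      have h3 : (coms y g).index ≠ 0 := Subgroup.index_ne_zero_of_finite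
      have h4 : 2 ≤ (coms y g).index := by omega
      have h5 := (coms y g).card_mul_index
      have h6 : (Nat.card (coms y g) : ℝ) * ((coms y g).index : ℝ) = n := by
        rw [hn]; exact_mod_cast h5
      have h7 : (2 : ℝ) ≤ ((coms y g).index : ℝ) := by exact_mod_cast h4
      have h8 : (0 : ℝ) ≤ (Nat.card (coms y g) : ℝ) := Nat.cast_nonneg _
      nlinarith
  refine (Finset.sum_le_sum fun g _ => h1 g).trans ?_
  rw [Finset.sum_ite, Finset.sum_const, Finset.sum_const, nsmul_eq_mul, nsmul_eq_mul]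
  have hc : ((Finset.univ.filter (fun g => g ∈ cen Γ y)).card : ℝ) = (Nat.card (cen Γ y) : ℝ) := by
    rw [Nat.card_eq_fintype_card]
    exact_mod_cast (Fintype.card_subtype _).symm
  have hc' : ((Finset.univ.filter (fun g => g ∉ cen Γ y)).card : ℝ) =
      n - (Nat.card (cen Γ y) : ℝ) := by
    have h2 := Finset.card_filter_add_card_filter_not (s := (Finset.univ : Finset Γ))
      (fun g => g ∈ cen Γ y)
    have h3 : ((Finset.univ.filter (fun g => g ∈ cen Γ y)).card : ℝ) +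
        ((Finset.univ.filter (fun g => g ∉ cen Γ y)).card : ℝ) = n := by
      rw [hn, Nat.card_eq_fintype_card, ← Finset.card_univ]
      exact_mod_cast h2
    linarith
  rw [hc, hc']
  have h4 : 4 ≤ (cen Γ y).index := by
    rcases cen_index (Γ := Γ) y with h | h
    · exact absurd (Subgroup.index_eq_one.1 h) hne
    · exact h
  have h5 : (Nat.card (cen Γ y) : ℝ) * ((cen Γ y).index : ℝ) = n := by
    rw [hn]; exact_mod_cast (cen Γ y).card_mul_index
  have h6 : (4 : ℝ) ≤ ((cen Γ y).index : ℝ) := by exact_mod_cast h4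
  have h7 : (Nat.card (cen Γ y) : ℝ) ≤ n / 4 := by
    have h8 : (0 : ℝ) ≤ (Nat.card (cen Γ y) : ℝ) := Nat.cast_nonneg _
    nlinarith
  nlinarith

end group

variable {K H G : Type} [Field K] [NumberField K] [Field H] [NumberField H] [Algebra K H]
  [CommGroup G] [Finite G] [MulSemiringAction G H]

/-- the version for the prime ideals `v` and `v'` -/
def TSP (K : Type) [Field K] [NumberField K] [Algebra K H] (z : G → ℂ) (w₀ : InfinitePlace H)
    (σ σ' : G) (v v' : HeightOneSpectrum (𝓞 K)) : Prop :=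
  ∃ x : Hˣ, UnitOff K w₀ (x : H) ∧
    (∀ P : HeightOneSpectrum (𝓞 H), (P.asIdeal.comap (algebraMap (𝓞 K) (𝓞 H)) = v.asIdeal ∨
      P.asIdeal.comap (algebraMap (𝓞 K) (𝓞 H)) = v'.asIdeal) →
      P.valuation H ((x : H) - 1) < 1) ∧
    ∀ ρ : G, (z ρ - (Ideal.absNorm v.asIdeal : ℂ) * z (σ⁻¹ * ρ)) -
      (Ideal.absNorm v'.asIdeal : ℂ) * (z (σ'⁻¹ * ρ) -
        (Ideal.absNorm v.asIdeal : ℂ) * z (σ⁻¹ * (σ'⁻¹ * ρ))) = -(logAbs w₀ (ρ • (x : H)) : ℂ)

variable [hG : IsGaloisGroup G K H]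

/-- the version for `v` implies the version for `v` and `v'` -/
theorem tsp_of_ts (z : G → ℂ) (w₀ : InfinitePlace H) (σ σ' : G) (v v' : HeightOneSpectrum (𝓞 K))
    (hσ' : IsFrob (H := H) v' σ') (h : TS K z w₀ σ v) : TSP K z w₀ σ σ' v v' := by
  obtain ⟨x, hx, hxv, hxz⟩ := h
  set N' := Ideal.absNorm v'.asIdeal with hN'
  have hx' : x ∈ uo K w₀ := hx
  refine ⟨x * ((act σ'⁻¹ x) ^ N')⁻¹, (uo K w₀).mul_mem hx' ((uo K w₀).inv_mem
    ((uo K w₀).pow_mem (uo_act hx' _) _)), ?_, fun ρ => ?_⟩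
  · rintro P (hP | hP)
    · have h1 : x ∈ K1 P := hxv P hP
      have h2 : act σ'⁻¹ x ∈ K1 P := by
        obtain ⟨P', hP', hP''⟩ := (Pool.Agent.K3h25.RS.t_TRANS K H G v P (above_singleton.2 hP)).1 σ'⁻¹
        rw [mem_K1, act_val, ← smul_one σ'⁻¹, ← smul_sub, ← hP'']
        exact hxv P' (above_singleton.1 hP')
      exact (K1 P).mul_mem h1 ((K1 P).inv_mem ((K1 P).pow_mem h2 _))
    · have h1 : act σ'⁻¹ x ∈ unitsAt P := (uo_act hx' σ'⁻¹).2 P
      have h2 := frobK P (MulSemiringAction.toRingHom G H σ') N'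
        (fun a => hσ' P (above_singleton.2 hP) a) (act σ'⁻¹ x) h1
      have h3 : Units.map (MulSemiringAction.toRingHom G H σ' : H →* H) (act σ'⁻¹ x) = x := by
        change act σ' (act σ'⁻¹ x) = x
        rw [← act_mul, mul_inv_cancel, act_one]
      rw [h3] at h2
      exact h2
  · rw [la_mul, la_inv, la_pow, act_val, smul_smul, mul_comm ρ σ'⁻¹]
    have h1 := hxz ρ
    have h2 := hxz (σ'⁻¹ * ρ)
    push_cast
    linear_combination h1 - (N' : ℂ) * h2

/-- the rational version from a multiple of the version for `v` -/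
theorem rat_of_mult (z : G → ℂ) (w₀ : InfinitePlace H) (σ : G) (v : HeightOneSpectrum (𝓞 K))
    (m : ℕ) (hm : 0 < m) (x : Hˣ) (hx : x ∈ uo K w₀)
    (hz : ∀ ρ : G, (m : ℂ) * (z ρ - (Ideal.absNorm v.asIdeal : ℂ) * z (σ⁻¹ * ρ)) =
      -(logAbs w₀ (ρ • (x : H)) : ℂ)) : SQ K z w₀ := by
  set N := Ideal.absNorm v.asIdeal with hN
  have hN2 : 2 ≤ N := absNorm_ge_two v
  have hσ : σ⁻¹ ^ (Nat.card G) = 1 := pow_card_eq_one'
  have hprod : ∀ k : ℕ, (∏ i ∈ Finset.range k, (act (σ⁻¹ ^ i) x) ^ (N ^ i)) ∈ uo K w₀ ∧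
      ∀ ρ : G, ((logAbs w₀ (ρ • ((∏ i ∈ Finset.range k,
        (act (σ⁻¹ ^ i) x) ^ (N ^ i) : Hˣ) : H)) : ℝ) : ℂ) =
          -((m : ℂ) * z ρ - (N : ℂ) ^ k * (m * z (σ⁻¹ ^ k * ρ))) := by
    intro k
    induction k with
    | zero =>
      refine ⟨(uo K w₀).one_mem, fun ρ => ?_⟩
      rw [Finset.prod_range_zero, la_one, pow_zero, one_mul, pow_zero, one_mul, sub_self]
      simp
    | succ k ih =>
      obtain ⟨h1, h2⟩ := ih
      refine ⟨?_, fun ρ => ?_⟩
      · rw [Finset.prod_range_succ]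
        exact (uo K w₀).mul_mem h1 ((uo K w₀).pow_mem (uo_act hx _) _)
      · rw [Finset.prod_range_succ, la_mul, la_pow, act_val, smul_smul]
        have h3 := h2 ρ
        have h4 := hz (σ⁻¹ ^ k * ρ)
        rw [← mul_assoc σ⁻¹, ← pow_succ'] at h4
        rw [mul_comm ρ, Complex.ofReal_add, Complex.ofReal_mul, h3, Complex.ofReal_natCast,
          Nat.cast_pow]
        have h5 : ((logAbs w₀ ((σ⁻¹ ^ k * ρ) • (x : H)) : ℝ) : ℂ) =
            -((m : ℂ) * (z (σ⁻¹ ^ k * ρ) - (N : ℂ) * z (σ⁻¹ ^ (k + 1) * ρ))) := by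
          rw [h4, neg_neg]
        rw [h5, pow_succ (N : ℂ)]
        ring
  obtain ⟨h1, h2⟩ := hprod (Nat.card G)
  have h3 : 1 < N ^ (Nat.card G) := Nat.one_lt_pow Nat.card_pos.ne' (by omega)
  refine ⟨(∏ i ∈ Finset.range (Nat.card G), (act (σ⁻¹ ^ i) x) ^ (N ^ i))⁻¹,
    (N ^ (Nat.card G) - 1) * m, Nat.mul_pos (by omega) hm, (uo K w₀).inv_mem h1, fun ρ => ?_⟩
  rw [la_inv]
  have h5 := h2 ρ
  rw [hσ, one_mul] at h5
  have h4 : 1 ≤ N ^ (Nat.card G) := Nat.one_le_pow _ _ (by omega)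
  rw [Nat.cast_mul, Nat.cast_sub h4, Complex.ofReal_neg, h5, Nat.cast_pow, Nat.cast_one]
  ring

/-- the version for `v` and `v'` implies the rational version -/
theorem rat_of_tsp (z : G → ℂ) (w₀ : InfinitePlace H) (σ σ' : G) (v v' : HeightOneSpectrum (𝓞 K))
    (h : TSP K z w₀ σ σ' v v') : SQ K z w₀ := by
  obtain ⟨x, hx, -, hz⟩ := h
  obtain ⟨u, m, hm, hu, hmz⟩ := rat_of_mult (fun ρ : G => z ρ -
    (Ideal.absNorm v.asIdeal : ℂ) * z (σ⁻¹ * ρ)) w₀ σ' v' 1 one_pos x hx (fun ρ => by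
      rw [Nat.cast_one, one_mul]
      exact hz ρ)
  exact rat_of_mult z w₀ σ v m hm u hu hmz

variable {L : Type} [Field L] [NumberField L] [Algebra H L] [Algebra K L] [IsScalarTower K H L]

/-- **The version for `v` and `v'` implies that the Frobenius automorphisms commute at `y`.** -/
theorem commute_of_tsp [IsGalois K L] (z : G → ℂ) (w₀ : InfinitePlace H) (u : Hˣ) (m : ℕ)
    (hm : 0 < m)
    (hu : u ∈ uo K w₀) (hz : ∀ ρ : G, (m : ℂ) * z ρ = -(logAbs w₀ (ρ • (u : H)) : ℂ))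
    (y : Lˣ) (hy : y ^ m = inj H L u) (M : ℕ)
    (hroot : ∀ ξ : Lˣ, (∃ n : ℕ, 0 < n ∧ ξ ^ n = 1) → ξ ^ M = 1)
    (v v' : HeightOneSpectrum (𝓞 K))
    (hsq : Squarefree (v.asIdeal.map (algebraMap (𝓞 K) (𝓞 H))))
    (hsq' : Squarefree (v'.asIdeal.map (algebraMap (𝓞 K) (𝓞 H))))
    (σ σ' : G) (hσ : IsFrob (H := H) v σ) (hσ' : IsFrob (H := H) v' σ')
    (Q Q' : HeightOneSpectrum (𝓞 L)) (g g' : L ≃ₐ[K] L) (hg : FrobAt v Q g)
    (hg' : FrobAt v' Q' g') (hQM : Q.valuation L (M : L) = 1) (hQM' : Q'.valuation L (M : L) = 1)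
    (h : TSP K z w₀ σ σ' v v') : um g (um g' y) = um g' (um g y) := by
  obtain ⟨hQ, hgf⟩ := hg
  obtain ⟨hQ', hgf'⟩ := hg'
  obtain ⟨w, hQw, hw⟩ := exists_under K H L v Q hQ
  obtain ⟨w', hQw', hw'⟩ := exists_under K H L v' Q' hQ'
  obtain ⟨res, hsurj, hres⟩ := exists_res' K H L G
  have hUI := um_inj res hres
  have hfaith : FaithfulSMul G H := IsGaloisGroup.faithful K
  have hrσ : res g = σ := by
    refine FaithfulSMul.eq_of_smul_eq_smul (α := H) fun x => ?_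
    have h1 := Pool.Agent.K3h8.RS.restrict v w hw hsq Q hQw g hgf σ
      (hσ w (above_singleton.2 hw)) x
    rw [hres] at h1
    exact (algebraMap H L).injective h1
  have hrσ' : res g' = σ' := by
    refine FaithfulSMul.eq_of_smul_eq_smul (α := H) fun x => ?_
    have h1 := Pool.Agent.K3h8.RS.restrict v' w' hw' hsq' Q' hQw' g' hgf' σ'
      (hσ' w' (above_singleton.2 hw')) x
    rw [hres] at h1
    exact (algebraMap H L).injective h1
  set N := Ideal.absNorm v.asIdeal with hN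
  set N' := Ideal.absNorm v'.asIdeal with hN'
  -- units
  have hHu : ∀ (q : HeightOneSpectrum (𝓞 H)) (R : HeightOneSpectrum (𝓞 L)),
      R.asIdeal.comap (algebraMap (𝓞 H) (𝓞 L)) = q.asIdeal → ∀ x : Hˣ, x ∈ uo K w₀ →
      inj H L x ∈ unitsAt R := by
    intro q R hR x hx
    exact val_eq q R hR _ (hx.2 q)
  have hyk : ∀ (q : HeightOneSpectrum (𝓞 H)) (R : HeightOneSpectrum (𝓞 L)),
      R.asIdeal.comap (algebraMap (𝓞 H) (𝓞 L)) = q.asIdeal → ∀ k : L ≃ₐ[K] L,
      um k y ∈ unitsAt R := by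
    intro q R hR k
    have h1 : (um k y) ^ m = inj H L (act (res k) u) := by
      rw [← map_pow, hy, hUI]
    have h2 := hHu q R hR _ (uo_act hu (res k))
    rw [← h1] at h2
    change R.valuation L (((um k y) ^ m : Lˣ) : L) = 1 at h2
    rw [Units.val_pow_eq_pow_val, map_pow] at h2
    exact (pow_eq_one_iff_of_nonneg zero_le hm.ne').mp h2
  obtain ⟨x, hx, hxv, hxz⟩ := h
  -- the elements
  set c : Lˣ := um g y * (y ^ N)⁻¹ with hc
  set c' : Lˣ := um g' y * (y ^ N')⁻¹ with hc'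
  have hcm : c ^ m = inj H L (act σ u * (u ^ N)⁻¹) := by
    rw [hc, mul_pow, inv_pow, ← pow_mul, mul_comm N m, pow_mul, hy, ← map_pow, hy, hUI, hrσ,
      map_mul, map_inv, map_pow]
  have hcm' : c' ^ m = inj H L (act σ' u * (u ^ N')⁻¹) := by
    rw [hc', mul_pow, inv_pow, ← pow_mul, mul_comm N' m, pow_mul, hy, ← map_pow, hy, hUI, hrσ',
      map_mul, map_inv, map_pow]
  have hcU : c ∈ unitsAt Q' := by
    have h1 := hyk w' Q' hQw' g
    have h2 := hyk w' Q' hQw' 1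
    rw [um_one] at h2
    exact (unitsAt Q').mul_mem h1 ((unitsAt Q').inv_mem ((unitsAt Q').pow_mem h2 _))
  have hcU' : c' ∈ unitsAt Q := by
    have h1 := hyk w Q hQw g'
    have h2 := hyk w Q hQw 1
    rw [um_one] at h2
    exact (unitsAt Q).mul_mem h1 ((unitsAt Q).inv_mem ((unitsAt Q).pow_mem h2 _))
  have hA' : um g' c * (c ^ N')⁻¹ ∈ K1 Q' := frobK Q' (g' : L →+* L) N' hgf' c hcU
  have hA : um g c' * (c' ^ N)⁻¹ ∈ K1 Q := frobK Q (g : L →+* L) N hgf c' hcU'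
  -- the `m`-th powers
  set U : Hˣ := act (σ' * σ) u * ((act σ' u) ^ N)⁻¹ * ((act σ u) ^ N')⁻¹ * u ^ (N * N') with hU
  have hinv : ∀ (γ : G) (a : Hˣ), act γ (a⁻¹) = (act γ a)⁻¹ := fun γ a => act_inv' γ a
  have hAm' : (um g' c * (c ^ N')⁻¹) ^ m = inj H L U := by
    rw [mul_pow, inv_pow, ← map_pow, ← pow_mul, mul_comm N' m, pow_mul, hcm, hUI, hrσ',
      ← map_pow, ← map_inv, ← map_mul]
    congr 1
    rw [act_map_mul, hinv, act_pow, ← act_mul, mul_pow, mul_inv, inv_pow, inv_inv, ← pow_mul, hU]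
    simp only [mul_assoc]
  have hAm : (um g c' * (c' ^ N)⁻¹) ^ m = inj H L U := by
    rw [mul_pow, inv_pow, ← map_pow, ← pow_mul, mul_comm N m, pow_mul, hcm', hUI, hrσ,
      ← map_pow, ← map_inv, ← map_mul]
    congr 1
    rw [act_map_mul, hinv, act_pow, ← act_mul, mul_pow, mul_inv, inv_pow, inv_inv, ← pow_mul, hU,
      mul_comm σ σ', mul_comm N' N, mul_right_comm (act (σ' * σ) u)]
    simp only [mul_comm, mul_left_comm]
  -- the element `x' = σ σ' x`
  have hfin : ∃ n : ℕ, 0 < n ∧ ((act (σ' * σ) x) ^ m * U⁻¹) ^ n = 1 := by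
    refine unique_tors (G := G) (w₀ := w₀) ((uo K w₀).pow_mem (uo_act hx _) m) ?_ ?_
    · exact (uo K w₀).mul_mem ((uo K w₀).mul_mem ((uo K w₀).mul_mem (uo_act hu _)
        ((uo K w₀).inv_mem ((uo K w₀).pow_mem (uo_act hu _) _)))
        ((uo K w₀).inv_mem ((uo K w₀).pow_mem (uo_act hu _) _))) ((uo K w₀).pow_mem hu _)
    · intro ρ
      rw [la_pow, act_val, smul_smul, hU, la_mul, la_mul, la_mul, la_inv, la_inv, la_pow, la_pow,
        la_pow, act_val, act_val, act_val, smul_smul, smul_smul, smul_smul]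
      have h1 := hxz (ρ * (σ' * σ))
      have e1 : σ⁻¹ * (ρ * (σ' * σ)) = ρ * σ' := by
        rw [mul_comm, ← mul_assoc, mul_inv_cancel_right]
      have e2 : σ'⁻¹ * (ρ * (σ' * σ)) = ρ * σ := by
        rw [mul_comm σ' σ, mul_comm, ← mul_assoc, mul_inv_cancel_right]
      have e3 : σ⁻¹ * (ρ * σ) = ρ := by rw [mul_comm, mul_inv_cancel_right]
      rw [e1, e2, e3] at h1
      have h2 := hz (ρ * (σ' * σ))
      have h3 := hz (ρ * σ')
      have h4 := hz (ρ * σ)
      have h5 := hz ρ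
      have h6 : ((m * logAbs w₀ ((ρ * (σ' * σ)) • (x : H)) : ℝ) : ℂ) =
          ((logAbs w₀ ((ρ * (σ' * σ)) • (u : H)) + -(N * logAbs w₀ ((ρ * σ') • (u : H))) +
            -(N' * logAbs w₀ ((ρ * σ) • (u : H))) +
            ((N * N' : ℕ) : ℝ) * logAbs w₀ (ρ • (u : H)) : ℝ) : ℂ) := by
        push_cast
        linear_combination (m : ℂ) * h1 - h2 + (N : ℂ) * h3 + (N' : ℂ) * h4 - (N : ℂ) * N' * h5
      exact_mod_cast h6
  obtain ⟨n, hn, hn1⟩ := hfin
  have hx1 : ∀ (q : HeightOneSpectrum (𝓞 H)) (R : HeightOneSpectrum (𝓞 L)),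
      R.asIdeal.comap (algebraMap (𝓞 H) (𝓞 L)) = q.asIdeal →
      (q.asIdeal.comap (algebraMap (𝓞 K) (𝓞 H)) = v.asIdeal ∨
        q.asIdeal.comap (algebraMap (𝓞 K) (𝓞 H)) = v'.asIdeal) →
      inj H L (act (σ' * σ) x) ∈ K1 R := by
    intro q R hR hq
    rw [mem_K1, inj_val, act_val, ← map_one (algebraMap H L), ← map_sub, val_lt_iff q R hR]
    rcases hq with hq | hq
    · obtain ⟨P, hP, hPγ⟩ := (Pool.Agent.K3h25.RS.t_TRANS K H G v q (above_singleton.2 hq)).1
        (σ' * σ)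
      rw [← smul_one (σ' * σ), ← smul_sub, ← hPγ]
      exact hxv P (Or.inl (above_singleton.1 hP))
    · obtain ⟨P, hP, hPγ⟩ := (Pool.Agent.K3h25.RS.t_TRANS K H G v' q (above_singleton.2 hq)).1
        (σ' * σ)
      rw [← smul_one (σ' * σ), ← smul_sub, ← hPγ]
      exact hxv P (Or.inr (above_singleton.1 hP))
  have heq : ∀ (R : HeightOneSpectrum (𝓞 L)) (A : Lˣ), R.valuation L (M : L) = 1 →
      inj H L (act (σ' * σ) x) ∈ K1 R → A ∈ K1 R → A ^ m = inj H L U →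
      A = inj H L (act (σ' * σ) x) := by
    intro R A hRM h1 h2 h3
    have h4 : (inj H L (act (σ' * σ) x) * A⁻¹) ^ (m * n) = 1 := by
      rw [pow_mul, mul_pow, inv_pow, h3, ← map_pow, ← map_inv, ← map_mul, ← map_pow, hn1, map_one]
    have h5 := root_eq_one R M hRM _ (hroot _ ⟨m * n, Nat.mul_pos hm hn, h4⟩)
      ((K1 R).mul_mem h1 ((K1 R).inv_mem h2))
    exact (mul_inv_eq_one.1 h5).symm
  have h1 := heq Q' _ hQM' (hx1 w' Q' hQw' (Or.inr hw')) hA' hAm'
  have h2 := heq Q _ hQM (hx1 w Q hQw (Or.inl hw)) hA hAm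
  have h3 : um g' c * (c ^ N')⁻¹ = um g c' * (c' ^ N)⁻¹ := by rw [h1, h2]
  rw [hc, hc', map_mul, map_mul, map_inv, map_inv, map_pow, map_pow, mul_pow, mul_pow, mul_inv,
    mul_inv, inv_pow, inv_pow, inv_inv, inv_inv, ← pow_mul, ← pow_mul, mul_comm N' N] at h3
  have e : ∀ a b d e' : Lˣ, a * b⁻¹ * (d⁻¹ * e') = a * (b⁻¹ * d⁻¹ * e') := by
    intro a b d e'
    rw [mul_assoc, mul_assoc]
  have e0 : ∀ a b d e' : Lˣ, a * d⁻¹ * (b⁻¹ * e') = a * (b⁻¹ * d⁻¹ * e') := by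
    intro a b d e'
    rw [mul_assoc, ← mul_assoc d⁻¹, mul_comm d⁻¹ b⁻¹]
  rw [e, e0] at h3
  exact (mul_right_cancel h3).symm

end Pool.Agent.J6H32.SR
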