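import Pool.Agent.J6H32.SR.Count

/-!
# The version for two prime ideals: the law
-/

set_option autoImplicit false
set_option linter.unusedSectionVars false

open NumberField IsDedekindDomain Filter Topology

noncomputable section

namespace Pool.Agent.J6H32.SR

open Pool.Agent.K3h30.RS Pool.Agent.K3h8.RS Pool.Agent.K3h43.RS Pool.Agent.J6H32.RU

/-- sums over classes -/
theorem sum_classes {Γ : Type} [Group Γ] [Fintype Γ] [Fintype (ConjClasses Γ)]
    (f : ConjClasses Γ → ℝ) :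
    ∑ c : ConjClasses Γ, (c.carrier.ncard : ℝ) * f c = ∑ g : Γ, f (ConjClasses.mk g) := by
  classical
  rw [← Finset.sum_fiberwise (s := (Finset.univ : Finset Γ)) (g := ConjClasses.mk)]
  refine Finset.sum_congr rfl fun c _ => ?_
  have h1 : ∀ g ∈ Finset.univ.filter (fun g : Γ => ConjClasses.mk g = c),
      f (ConjClasses.mk g) = f c := by
    intro g hg
    rw [Finset.mem_filter] at hg
    rw [hg.2]
  rw [Finset.sum_congr rfl h1, Finset.sum_const, nsmul_eq_mul]
  congr 2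
  rw [← Set.ncard_coe_finset]
  congr 1
  ext g
  rw [ConjClasses.mem_carrier_iff_mk_eq, Finset.coe_filter]
  change _ ↔ (g ∈ Finset.univ ∧ ConjClasses.mk g = c)
  simp

/-- the classes all of whose elements commute on the orbit of `y` have density at most `5/8` -/
theorem sum_good {Γ X : Type} [Group Γ] [MulAction Γ X] [Finite Γ] [Fintype (ConjClasses Γ)]
    (y : X) (hne : cen Γ y ≠ ⊤) (good : Finset (ConjClasses Γ × ConjClasses Γ))
    (hgood : ∀ s ∈ good, ∀ g g' : Γ, ConjClasses.mk g = s.1 → ConjClasses.mk g' = s.2 →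
      Com y g g') :
    ∑ s ∈ good, ((s.1.carrier.ncard : ℝ) / (Nat.card Γ : ℝ)) *
      ((s.2.carrier.ncard : ℝ) / (Nat.card Γ : ℝ)) ≤ 5 / 8 := by
  classical
  have := Fintype.ofFinite Γ
  set n : ℝ := (Nat.card Γ : ℝ) with hn
  have hn0 : 0 < n := by
    rw [hn]; exact_mod_cast Nat.card_pos
  let ind : ConjClasses Γ → ConjClasses Γ → ℝ := fun c c' => if (c, c') ∈ good then 1 else 0
  have h1 : ∑ s ∈ good, ((s.1.carrier.ncard : ℝ) / n) * ((s.2.carrier.ncard : ℝ) / n) =
      (∑ c : ConjClasses Γ, (c.carrier.ncard : ℝ) *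
        ∑ c' : ConjClasses Γ, (c'.carrier.ncard : ℝ) * ind c c') / n ^ 2 := by
    have h2 : ∑ c : ConjClasses Γ, (c.carrier.ncard : ℝ) *
        ∑ c' : ConjClasses Γ, (c'.carrier.ncard : ℝ) * ind c c' =
        ∑ s : ConjClasses Γ × ConjClasses Γ,
          if s ∈ good then (s.1.carrier.ncard : ℝ) * (s.2.carrier.ncard : ℝ) else 0 := by
      rw [Fintype.sum_prod_type]
      refine Finset.sum_congr rfl fun c _ => ?_
      rw [Finset.mul_sum]
      refine Finset.sum_congr rfl fun c' _ => ?_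
      change _ * (_ * (if (c, c') ∈ good then (1 : ℝ) else 0)) = _
      split_ifs
      · rw [mul_one]
      · rw [mul_zero, mul_zero]
    rw [h2, ← Finset.sum_filter, Finset.sum_div]
    have h3 : (Finset.univ.filter (fun s : ConjClasses Γ × ConjClasses Γ => s ∈ good)) = good := by
      ext s
      simp
    rw [h3]
    refine Finset.sum_congr rfl fun s _ => ?_
    field_simp
  have h2 : ∀ c : ConjClasses Γ, ∑ c' : ConjClasses Γ, (c'.carrier.ncard : ℝ) * ind c c' =
      ∑ g' : Γ, ind c (ConjClasses.mk g') := fun c => sum_classes (fun c' => ind c c')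
  rw [h1, div_le_iff₀ (by positivity)]
  simp only [h2]
  rw [sum_classes (fun c => ∑ g' : Γ, ind c (ConjClasses.mk g'))]
  refine le_trans ?_ (five_eighths y hne)
  rw [finsum_eq_sum_of_fintype]
  refine Finset.sum_le_sum fun g _ => ?_
  have h3 : ∑ g' : Γ, ind (ConjClasses.mk g) (ConjClasses.mk g') =
      ((Finset.univ.filter (fun g' : Γ => (ConjClasses.mk g, ConjClasses.mk g') ∈ good)).card : ℝ) := by
    rw [Finset.card_filter]
    push_cast
    rfl
  rw [h3, Nat.card_eq_fintype_card, Fintype.card_subtype]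
  exact_mod_cast Finset.card_le_card (fun g' hg' => by
    rw [Finset.mem_filter] at hg' ⊢
    exact ⟨Finset.mem_univ _, hgood _ hg'.2 g g' rfl rfl⟩)

variable {K H G : Type} [Field K] [NumberField K] [Field H] [NumberField H] [Algebra K H]
  [CommGroup G] [Finite G] [MulSemiringAction G H] [hG : IsGaloisGroup G K H]

/-- **the law for pairs** -/
theorem pairs (z : G → ℂ) (w₀ : InfinitePlace H) (bad₀ : Finset (HeightOneSpectrum (𝓞 K)))
    (hsq : ∀ v : HeightOneSpectrum (𝓞 K), v ∉ bad₀ →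
      Squarefree (v.asIdeal.map (algebraMap (𝓞 K) (𝓞 H))))
    (σ : HeightOneSpectrum (𝓞 K) → G)
    (hσ : ∀ v : HeightOneSpectrum (𝓞 K), v ∉ bad₀ → IsFrob (H := H) v (σ v)) :
    (SK K z w₀ → Tendsto (pairProp (fun v v' => TSP K z w₀ (σ v) (σ v') v v')) atTop (𝓝 1)) ∧
    (¬ SK K z w₀ → ∀ c : ℝ, 5 / 8 < c → ∀ᶠ X : ℕ in atTop,
      pairProp (fun v v' => TSP K z w₀ (σ v) (σ v') v v') X < c) := by
  classical
  constructor
  · intro h
    obtain ⟨fin, hfin⟩ := ts_of_sk z w₀ bad₀ hsq σ hσ h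
    refine pairProp_one _ (fin ∪ bad₀) fun v v' hv hv' _ => ?_
    rw [Finset.mem_union, not_or] at hv hv'
    exact tsp_of_ts z w₀ (σ v) (σ v') v v' (hσ v' hv'.2) (hfin v hv.1)
  · intro hSK c hc
    by_cases hQ : SQ K z w₀
    · obtain ⟨u, m, hm, hu, hz⟩ := hQ
      obtain ⟨L, _, _, _, _, _, hgal, ⟨θ, hθ⟩, hroot⟩ := exists_field K H m
        (m * Units.torsionOrder H) hm (Nat.mul_pos hm (Units.torsionOrder_pos H)) {u}
      obtain ⟨y, hy⟩ := hroot u (Subgroup.subset_closure (by simp))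
      obtain ⟨fin, hfin⟩ := exists_bad (K := K) L
      have hne : cen (L ≃ₐ[K] L) (y : L) ≠ ⊤ := fun h =>
        hSK (sk_of_top z w₀ u m hm hu hz y hy θ hθ h)
      have := Fintype.ofFinite (ConjClasses (L ≃ₐ[K] L))
      obtain ⟨cl, bad, h1, h2, h3, -⟩ := Pool.Agent.J6H32.RT.exists_cl (F := K) (L := L)
      let good : Finset (ConjClasses (L ≃ₐ[K] L) × ConjClasses (L ≃ₐ[K] L)) :=
        Finset.univ.filter (fun s => ∀ g g' : L ≃ₐ[K] L, ConjClasses.mk g = s.1 →
          ConjClasses.mk g' = s.2 → Com (y : L) g g')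
      refine pairProp_le cl _ h3 good _ (fin ∪ bad₀ ∪ bad) ?_ c ?_
      · intro v v' hv hv' hR
        rw [Finset.mem_union, Finset.mem_union, not_or, not_or] at hv hv'
        rw [Finset.mem_filter]
        refine ⟨Finset.mem_univ _, fun g g' hg hg' k => ?_⟩
        -- Frobenius automorphisms in the class of `v`
        have hfr : ∀ (w : HeightOneSpectrum (𝓞 K)) (s : L ≃ₐ[K] L), w ∉ bad →
            ConjClasses.mk s = cl w → ∃ Q : HeightOneSpectrum (𝓞 L), FrobAt w Q s := by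
          intro w s hw hs
          obtain ⟨Q, hQ⟩ := exists_over (L := L) w
          obtain ⟨t, ht⟩ := exists_frob K L w Q hQ
          have h4 := h1 w hw Q t ⟨hQ, ht⟩
          rw [← hs, ConjClasses.mk_eq_mk_iff_isConj, isConj_iff] at h4
          obtain ⟨b, hb⟩ := h4
          obtain ⟨Q', hQ'⟩ := frobAt_conj w Q t b ⟨hQ, ht⟩
          rw [hb] at hQ'
          exact ⟨Q', hQ'⟩
        obtain ⟨Q, hQ⟩ := hfr v g hv.2 hg
        obtain ⟨Q', hQ'⟩ := hfr v' g' hv'.2 hg'
        obtain ⟨R, hRk⟩ := frobAt_conj v Q g k⁻¹ hQ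
        obtain ⟨R', hRk'⟩ := frobAt_conj v' Q' g' k⁻¹ hQ'
        have h5 := commute_of_tsp z w₀ u m hm hu hz y hy (Units.torsionOrder L)
          (fun ξ hξ => root_pow ξ hξ) v v' (hsq v hv.1.2) (hsq v' hv'.1.2) (σ v) (σ v')
          (hσ v hv.1.2) (hσ v' hv'.1.2) R R' _ _ hRk hRk' (hfin v hv.1.1 R hRk.1)
          (hfin v' hv'.1.1 R' hRk'.1) hR
        have h6 : (k⁻¹ * g * k⁻¹⁻¹) ((k⁻¹ * g' * k⁻¹⁻¹) (y : L)) =
            (k⁻¹ * g' * k⁻¹⁻¹) ((k⁻¹ * g * k⁻¹⁻¹) (y : L)) := congrArg Units.val h5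
        have h7 : ∀ a b : L ≃ₐ[K] L, (a * b * k) (y : L) =
            k ((k⁻¹ * a * k⁻¹⁻¹) ((k⁻¹ * b * k⁻¹⁻¹) (y : L))) := by
          intro a b
          change _ = (k * ((k⁻¹ * a * k⁻¹⁻¹) * (k⁻¹ * b * k⁻¹⁻¹))) (y : L)
          congr 1
          group
        change (g * g' * k) (y : L) = (g' * g * k) (y : L)
        rw [h7, h7, h6]
      · refine lt_of_le_of_lt (sum_good (y : L) hne good ?_) hc
        intro s hs
        rw [Finset.mem_filter] at hs
        exact hs.2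
    · refine Filter.Eventually.of_forall fun X => ?_
      have h3 : IsEmpty {p : HeightOneSpectrum (𝓞 K) × HeightOneSpectrum (𝓞 K) // p.1 ≠ p.2 ∧
          TSP K z w₀ (σ p.1) (σ p.2) p.1 p.2 ∧
          Ideal.absNorm p.1.asIdeal ≤ X ∧ Ideal.absNorm p.2.asIdeal ≤ X} :=
        ⟨fun p => hQ (rat_of_tsp z w₀ _ _ _ _ p.2.2.1)⟩
      unfold pairProp
      rw [Nat.card_of_isEmpty, Nat.cast_zero, zero_div]
      linarith

end Pool.Agent.J6H32.SR
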