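import Pool.Agent.J6H32.SR.Real
import Pool.Agent.J6H32.SR.Fin2

/-!
# Stark's conjecture at a real place: Stark units
-/

set_option autoImplicit false
set_option linter.unusedSectionVars false

open NumberField IsDedekindDomain Filter Topology

noncomputable section

namespace Pool.Agent.J6H32.SR

open Pool.Agent.K3h30.RS Pool.Agent.K3h8.RS Pool.Agent.K3h43.RS Pool.Agent.J6H32.RU

variable {K H G : Type} [Field K] [NumberField K] [Field H] [NumberField H] [Algebra K H]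
  [CommGroup G] [MulSemiringAction G H]

/-- The units `ε ρ`, `ρ` in the Galois group `G` of `H / K`, with the properties 1, 2, 3 of Q1, for the
embedding `φ` of `H` into `ℝ`. The class `A` is given by its Artin symbol `ρ`. -/
def StarkUnits {𝔪 : Ideal (𝓞 K)} (D : ZetaData K H G 𝔪) (φ : H →+* ℝ) (ε : G → (𝓞 H)ˣ) : Prop :=
  (∀ ρ : G, ((φ ((ε ρ : 𝓞 H) : H) : ℝ) : ℂ) = Complex.exp (-2 * deriv (D.zeta ρ) 0)) ∧
  (∀ γ ρ : G, γ • ((ε ρ : 𝓞 H) : H) = ((ε (γ * ρ) : 𝓞 H) : H)) ∧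
  ∀ (ρ : G) (g : H →+* ℂ), (∃ a : K, g (algebraMap K H a) ≠ ((φ (algebraMap K H a) : ℝ) : ℂ)) →
    ‖g ((ε ρ : 𝓞 H) : H)‖ = 1

theorem comap_eq_iff (φ : H →+* ℝ) (g : H →+* ℂ) :
    (InfinitePlace.mk g).comap (algebraMap K H) = (plc φ).comap (algebraMap K H) ↔
      ∀ a : K, g (algebraMap K H a) = ((φ (algebraMap K H a) : ℝ) : ℂ) := by
  unfold plc
  rw [InfinitePlace.comap_mk, InfinitePlace.comap_mk, InfinitePlace.mk_eq_iff]
  constructor
  · rintro (h | h)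
    · exact fun a => RingHom.congr_fun h a
    · intro a
      have h1 := RingHom.congr_fun h a
      rw [ComplexEmbedding.conjugate_coe_eq] at h1
      have h2 := congrArg (starRingEnd ℂ) h1
      rw [Complex.conj_conj] at h2
      change g (algebraMap K H a) = (starRingEnd ℂ) ((φ (algebraMap K H a) : ℝ) : ℂ) at h2
      rw [Complex.conj_ofReal] at h2
      exact h2
  · intro h
    left
    ext a
    exact h a

theorem unitOff_iff (φ : H →+* ℝ) (x : H) :
    UnitOff K (plc φ) x ↔ (∀ g : H →+* ℂ,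
      (∃ a : K, g (algebraMap K H a) ≠ ((φ (algebraMap K H a) : ℝ) : ℂ)) → ‖g x‖ = 1) ∧
      ∀ P : HeightOneSpectrum (𝓞 H), P.valuation H x = 1 := by
  refine and_congr_left fun _ => ?_
  constructor
  · rintro h g ⟨a, ha⟩
    have h1 := h (InfinitePlace.mk g) (fun h2 => ha ((comap_eq_iff φ g).1 h2 a))
    rwa [InfinitePlace.apply] at h1
  · intro h w hw
    rw [← InfinitePlace.mk_embedding w] at hw ⊢
    rw [InfinitePlace.apply]
    apply h
    by_contra hcon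
    push Not at hcon
    exact hw ((comap_eq_iff φ _).2 hcon)

theorem exists_unit (x : Hˣ) (hx : ∀ P : HeightOneSpectrum (𝓞 H), P.valuation H (x : H) = 1) :
    ∃ ε : (𝓞 H)ˣ, ((ε : 𝓞 H) : H) = (x : H) := by
  obtain ⟨a, ha⟩ := HeightOneSpectrum.mem_integers_of_valuation_le_one H (x : H)
    (fun P => (hx P).le)
  obtain ⟨b, hb⟩ := HeightOneSpectrum.mem_integers_of_valuation_le_one H (x⁻¹ : H)
    (fun P => by rw [map_inv₀, hx P, inv_one])
  have hab : a * b = 1 := by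
    apply FaithfulSMul.algebraMap_injective (𝓞 H) H
    rw [map_mul, ha, hb, map_one, mul_inv_cancel₀ x.ne_zero]
  exact ⟨⟨a, b, hab, by rw [mul_comm, hab]⟩, ha⟩

theorem val_unit (ε : (𝓞 H)ˣ) (P : HeightOneSpectrum (𝓞 H)) :
    P.valuation H ((ε : 𝓞 H) : H) = 1 := by
  have h1 : P.valuation H ((ε : 𝓞 H) : H) ≤ 1 := P.valuation_le_one _
  have h2 : P.valuation H (((ε⁻¹ : (𝓞 H)ˣ) : 𝓞 H) : H) ≤ 1 := P.valuation_le_one _
  have h3 : P.valuation H ((ε : 𝓞 H) : H) * P.valuation H (((ε⁻¹ : (𝓞 H)ˣ) : 𝓞 H) : H) = 1 := by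
    have h4 : ((ε : 𝓞 H) : H) * (((ε⁻¹ : (𝓞 H)ˣ) : 𝓞 H) : H) = 1 := by
      have h5 : (ε : 𝓞 H) * ((ε⁻¹ : (𝓞 H)ˣ) : 𝓞 H) = 1 := by rw [← Units.val_mul]; simp
      have h6 := congrArg (algebraMap (𝓞 H) H) h5
      rw [map_mul, map_one] at h6
      exact h6
    rw [← map_mul, h4, map_one]
  exact le_antisymm h1 (by
    by_contra hcon
    push Not at hcon
    have h5 := mul_lt_one_of_nonneg_of_lt_one_left zero_le hcon h2
    exact absurd h3 h5.ne)

variable {𝔪 : Ideal (𝓞 K)}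

/-- Stark units give the numbers `z` -/
theorem z_of_units (D : ZetaData K H G 𝔪) (φ : H →+* ℝ) (ε : G → (𝓞 H)ˣ)
    (h : StarkUnits D φ ε) : ∃ u : Hˣ, (u : H) = ((ε 1 : 𝓞 H) : H) ∧ UnitOff K (plc φ) (u : H) ∧
      ∀ ρ : G, deriv (D.zeta ρ) 0 = -(1 / (2 : ℂ)) * (logAbs (plc φ) (ρ • (u : H)) : ℂ) := by
  obtain ⟨h1, h2, h3⟩ := h
  have h0 : ((ε 1 : 𝓞 H) : H) ≠ 0 := by
    intro h
    have h4 := h1 1
    rw [h, map_zero] at h4
    exact Complex.exp_ne_zero _ h4.symm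
  refine ⟨Units.mk0 _ h0, rfl, ?_, fun ρ => ?_⟩
  · rw [unitOff_iff, Units.val_mk0]
    exact ⟨h3 1, val_unit _⟩
  · rw [Units.val_mk0, h2, mul_one, logAbs_plc]
    have h4 := h1 ρ
    obtain ⟨r, hr⟩ := Complex.conj_eq_iff_real.1 (deriv_real D ρ)
    rw [hr] at h4 ⊢
    have h5 : φ ((ε ρ : 𝓞 H) : H) = Real.exp (-2 * r) := by
      have h6 : Complex.exp (-2 * (r : ℂ)) = ((Real.exp (-2 * r) : ℝ) : ℂ) := by
        push_cast
        rfl
      rw [h6] at h4
      exact_mod_cast h4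
    rw [h5, Real.abs_exp, Real.log_exp]
    push_cast
    ring

variable [Finite G] [hG : IsGaloisGroup G K H]

/-- **Stark units from Stark's conjecture for the absolute values** -/
theorem tate_iff (D : ZetaData K H G 𝔪) (h𝔪 : 𝔪 ≠ ⊥) (φ : H →+* ℝ) :
    (∃ ε : G → (𝓞 H)ˣ, StarkUnits D φ ε ∧ ∀ ρ : G, AbelianRoot K ((ε ρ : 𝓞 H) : H) 2) ↔
      SK K (fun ρ : G => deriv (D.zeta ρ) 0) (plc φ) := by
  classical
  have hfin : {𝔭 : HeightOneSpectrum (𝓞 K) | 𝔪 ≤ 𝔭.asIdeal}.Finite := by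
    refine (Ideal.finite_factors h𝔪).subset ?_
    intro 𝔭 h𝔭
    exact Ideal.dvd_iff_le.2 h𝔭
  have h2 := tors_two φ
  constructor
  · rintro ⟨ε, hε, hab⟩
    obtain ⟨u, hu1, hu2, hu3⟩ := z_of_units D φ ε hε
    refine ⟨u, hu2, ?_, ?_⟩
    · rw [h2]
      exact_mod_cast hu3
    · rw [h2, hu1]
      exact hab 1
  · intro h
    obtain ⟨L, _, _, _, _, _, hgal, u', hu', hz, hroot⟩ := exists_top
      (fun ρ : G => deriv (D.zeta ρ) 0) (plc φ) hfin.toFinset
      (fun v hv => D.unramified v (by simpa using hv)) (fun v => D.art v.asIdeal)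
      (fun v hv => D.art_frob v (by simpa using hv)) h
    rw [h2] at hz hroot
    obtain ⟨res, hsurj, hres⟩ := exists_res' K H L G
    -- the sign
    obtain ⟨t, ht, hpos⟩ : ∃ t : Hˣ, t ^ 2 = 1 ∧ 0 < φ ((u' * t : Hˣ) : H) := by
      have h0 : φ (u' : H) ≠ 0 := (map_ne_zero φ).2 u'.ne_zero
      rcases lt_or_gt_of_ne h0 with h1 | h1
      · refine ⟨-1, by rw [neg_one_sq], ?_⟩
        rw [Units.val_mul, Units.val_neg, Units.val_one, mul_neg, mul_one, map_neg]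
        linarith
      · refine ⟨1, one_pow 2, ?_⟩
        rw [mul_one]
        exact h1
    obtain ⟨y, hy, htop⟩ := hroot t ht
    set u : Hˣ := u' * t with hu
    have hsign := sign_all φ res hsurj hres u y hy htop hpos
    have ht0 : ∀ ρ : G, logAbs (plc φ) (ρ • (t : H)) = 0 := by
      intro ρ
      have h3 := la_pow (plc φ) ρ t 2
      rw [ht, la_one] at h3
      push_cast at h3
      linarith
    have htu : t ∈ uo K (plc φ) := uo_of_pow (n := 2) (by norm_num) (by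
      rw [ht]; exact (uo K (plc φ)).one_mem)
    have huu : u ∈ uo K (plc φ) := (uo K (plc φ)).mul_mem hu' htu
    have hzu : ∀ ρ : G, deriv (D.zeta ρ) 0 = -(1 / (2 : ℂ)) * (logAbs (plc φ) (ρ • (u : H)) : ℂ) := by
      intro ρ
      have h3 := hz ρ
      simp only [Nat.cast_ofNat] at h3
      rw [h3, hu, la_mul, ht0, add_zero]
    choose ε hε using fun ρ : G => exists_unit (act ρ u) (uo_act huu ρ).2
    refine ⟨ε, ⟨fun ρ => ?_, fun γ ρ => ?_, fun ρ => ?_⟩, fun ρ => ?_⟩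
    · rw [hε, act_val, hzu, logAbs_plc, abs_of_pos (hsign ρ)]
      have h3 : -2 * (-(1 / (2 : ℂ)) * ((Real.log (φ (ρ • (u : H))) : ℝ) : ℂ)) =
          ((Real.log (φ (ρ • (u : H))) : ℝ) : ℂ) := by ring
      rw [h3, ← Complex.ofReal_exp, Real.exp_log (hsign ρ)]
    · rw [hε, hε, act_mul, ← act_val]
    · have h3 := (unitOff_iff φ _).1 (uo_act huu ρ)
      rw [hε]
      exact h3.1
    · obtain ⟨k, hk⟩ := hsurj ρ
      rw [hε]
      refine abelianRoot_of res hres _ 2 ((um k y : Lˣ) : L) ?_ ?_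
      · rw [← Units.val_pow_eq_pow_val, ← map_pow, hy, um_inj res hres, hk, inj_val]
      · intro c hc
        exact commutator_fix (cen_smul htop k) c hc

end Pool.Agent.J6H32.SR
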