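import Pool.Agent.J6H32.SR.Quad
import Pool.Agent.J6H32.SR.Split

/-!
# Stark's conjecture at a real place: Stark units whose products are squares
-/

set_option autoImplicit false
set_option linter.unusedSectionVars false

open NumberField IsDedekindDomain Filter Topology

noncomputable section

namespace Pool.Agent.J6H32.SR

open Pool.Agent.K3h30.RS Pool.Agent.K3h8.RS Pool.Agent.K3h43.RS Pool.Agent.J6H32.RU

variable {K H G : Type} [Field K] [NumberField K] [Field H] [NumberField H] [Algebra K H]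
  [CommGroup G] [MulSemiringAction G H] {𝔪 : Ideal (𝓞 K)}

/-- Q1 for `H / K`, `𝔪` and the embedding `φ`, with Stark units all of whose products `ε ρ * ε ρ'` are
squares in `H`. -/
def SquareUnits (D : ZetaData K H G 𝔪) (φ : H →+* ℝ) : Prop :=
  ∃ ε : G → (𝓞 H)ˣ, StarkUnits D φ ε ∧
    ∀ ρ ρ' : G, IsSquare (((ε ρ : 𝓞 H) : H) * ((ε ρ' : 𝓞 H) : H))

/-- the units -/
theorem units_of [Finite G] [hG : IsGaloisGroup G K H] (D : ZetaData K H G 𝔪) (φ : H →+* ℝ) (u : Hˣ)
    (hu : u ∈ uo K (plc φ)) (hsign : ∀ ρ : G, 0 < φ (ρ • (u : H)))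
    (hz : ∀ ρ : G, deriv (D.zeta ρ) 0 = -(1 / (2 : ℂ)) * (logAbs (plc φ) (ρ • (u : H)) : ℂ)) :
    ∃ ε : G → (𝓞 H)ˣ, StarkUnits D φ ε ∧ ∀ ρ : G, ((ε ρ : 𝓞 H) : H) = ρ • (u : H) := by
  choose ε hε using fun ρ : G => exists_unit (act ρ u) (uo_act hu ρ).2
  refine ⟨ε, ⟨fun ρ => ?_, fun γ ρ => ?_, fun ρ => ?_⟩, fun ρ => ?_⟩
  · rw [hε, act_val, hz, logAbs_plc, abs_of_pos (hsign ρ)]
    have h3 : -2 * (-(1 / (2 : ℂ)) * ((Real.log (φ (ρ • (u : H))) : ℝ) : ℂ)) =
        ((Real.log (φ (ρ • (u : H))) : ℝ) : ℂ) := by ring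
    rw [h3, ← Complex.ofReal_exp, Real.exp_log (hsign ρ)]
  · rw [hε, hε, act_mul, ← act_val]
  · have h3 := (unitOff_iff φ _).1 (uo_act hu ρ)
    rw [hε]
    exact h3.1
  · rw [hε, act_val]

theorem square_iff [Finite G] [hG : IsGaloisGroup G K H] (D : ZetaData K H G 𝔪) (φ : H →+* ℝ) :
    SquareUnits D φ ↔ SP K (fun ρ : G => deriv (D.zeta ρ) 0) (plc φ) := by
  have h2 := tors_two φ
  constructor
  · rintro ⟨ε, hε, hsq⟩
    obtain ⟨u, hu1, hu2, hu3⟩ := z_of_units D φ ε hε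
    refine ⟨u, hu2, ?_, ?_⟩
    · rw [h2]
      exact_mod_cast hu3
    · rw [h2]
      intro ρ k hk
      have h3 := hk (-1) (by rw [neg_one_sq])
      rw [smul_neg, smul_one] at h3
      have hodd : Odd k := by
        rcases Nat.even_or_odd k with h4 | h4
        · exfalso
          rw [h4.neg_one_pow] at h3
          norm_num at h3
        · exact h4
      obtain ⟨j, hj⟩ := hodd
      obtain ⟨s, hs⟩ := hsq ρ 1
      have h5 : ρ • (u : H) = ((ε ρ : 𝓞 H) : H) := by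
        rw [hu1, hε.2.1, mul_one]
      rw [← hu1, ← h5] at hs
      have hu0 : (u : H) ≠ 0 := u.ne_zero
      refine ⟨s / (u : H) ^ (j + 1), ?_⟩
      apply mul_right_cancel₀ hu0
      rw [hs, hj]
      field_simp
      ring
  · rintro ⟨u', hu', hz, hp⟩
    rw [h2] at hz hp
    have hone : ∀ (ρ : G) (ζ : H), ζ ^ 2 = 1 → ρ • ζ = ζ := by
      intro ρ ζ hζ
      rcases (show ζ = 1 ∨ ζ = -1 from sq_eq_one_iff.mp hζ) with rfl | rfl
      · rw [smul_one]
      · rw [smul_neg, smul_one]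
    obtain ⟨t, ht, hpos⟩ : ∃ t : Hˣ, t ^ 2 = 1 ∧ 0 < φ ((u' * t : Hˣ) : H) := by
      have h0 : φ (u' : H) ≠ 0 := (map_ne_zero φ).2 u'.ne_zero
      rcases lt_or_gt_of_ne h0 with h1 | h1
      · refine ⟨-1, by rw [neg_one_sq], ?_⟩
        rw [Units.val_mul, Units.val_neg, Units.val_one, mul_neg, mul_one, map_neg]
        linarith
      · refine ⟨1, one_pow 2, ?_⟩
        rw [mul_one]
        exact h1
    set u : Hˣ := u' * t with hu
    have hρu : ∀ ρ : G, ∃ h : H, ρ • (u : H) = (u : H) * h ^ 2 := by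
      intro ρ
      obtain ⟨h, hh⟩ := hp ρ 1 (fun ζ hζ => by rw [pow_one]; exact hone ρ ζ hζ)
      refine ⟨h, ?_⟩
      rw [hu, Units.val_mul, smul_mul', hh, hone ρ (t : H) (by
        rw [← Units.val_pow_eq_pow_val, ht, Units.val_one]), pow_one]
      ring
    have hsign : ∀ ρ : G, 0 < φ (ρ • (u : H)) := by
      intro ρ
      obtain ⟨h, hh⟩ := hρu ρ
      have h1 : h ≠ 0 := by
        rintro rfl
        have h3 : ((act ρ u : Hˣ) : H) = 0 := by
          rw [act_val, hh]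
          ring
        exact (act ρ u).ne_zero h3
      rw [hh, map_mul, map_pow]
      exact mul_pos hpos (by
        have h4 : φ h ≠ 0 := (map_ne_zero φ).2 h1
        positivity)
    have ht0 : ∀ ρ : G, logAbs (plc φ) (ρ • (t : H)) = 0 := by
      intro ρ
      have h3 := la_pow (plc φ) ρ t 2
      rw [ht, la_one] at h3
      push_cast at h3
      linarith
    have htu : t ∈ uo K (plc φ) := uo_of_pow (n := 2) (by norm_num) (by
      rw [ht]; exact (uo K (plc φ)).one_mem)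
    have huu : u ∈ uo K (plc φ) := (uo K (plc φ)).mul_mem hu' htu
    have hzu : ∀ ρ : G, deriv (D.zeta ρ) 0 = -(1 / (2 : ℂ)) * (logAbs (plc φ) (ρ • (u : H)) : ℂ) := by
      intro ρ
      have h3 := hz ρ
      simp only [Nat.cast_ofNat] at h3
      rw [h3, hu, la_mul, ht0, add_zero]
    obtain ⟨ε, hε, hval⟩ := units_of D φ u huu hsign hzu
    refine ⟨ε, hε, fun ρ ρ' => ?_⟩
    obtain ⟨h, hh⟩ := hρu ρ
    obtain ⟨h', hh'⟩ := hρu ρ'
    rw [hval, hval, hh, hh']
    exact ⟨(u : H) * h * h', by ring⟩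

end Pool.Agent.J6H32.SR
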