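import Pool.Agent.J6H32.SR.Sign

/-!
# The derivatives of the partial zeta functions are real
-/

set_option autoImplicit false
set_option linter.unusedSectionVars false

open NumberField IsDedekindDomain Filter Topology

noncomputable section

namespace Pool.Agent.J6H32.SR

variable {K H G : Type} [Field K] [NumberField K] [Field H] [NumberField H] [Algebra K H]
  [CommGroup G] [MulSemiringAction G H] {𝔣 : Ideal (𝓞 K)}

open ComplexConjugate in
theorem zeta_conj (D : ZetaData K H G 𝔣) (ρ : G) :
    Set.EqOn (D.zeta ρ) (conj ∘ D.zeta ρ ∘ conj) {1}ᶜ := by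
  have hf := D.analytic ρ
  have hg : DifferentiableOn ℂ (conj ∘ D.zeta ρ ∘ conj) ({1}ᶜ : Set ℂ) := by
    intro s hs
    have hs' : conj s ∈ ({1}ᶜ : Set ℂ) := by
      intro h
      apply hs
      have h1 : conj s = 1 := h
      have h2 := congrArg conj h1
      rw [Complex.conj_conj, map_one] at h2
      exact h2
    have h1 : DifferentiableAt ℂ (D.zeta ρ) (conj s) :=
      (hf (conj s) hs').differentiableAt (isOpen_compl_singleton.mem_nhds hs')
    have h2 := h1.conj_conj
    rw [Complex.conj_conj] at h2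
    exact h2.differentiableWithinAt
  have hpre : IsPreconnected ({1}ᶜ : Set ℂ) :=
    (isConnected_compl_singleton_of_one_lt_rank (by
      rw [Complex.rank_real_complex]; exact Nat.one_lt_ofNat) 1).isPreconnected
  refine (hf.analyticOnNhd isOpen_compl_singleton).eqOn_of_preconnected_of_eventuallyEq
    (hg.analyticOnNhd isOpen_compl_singleton) hpre (z₀ := 2) (by
      intro h
      have h1 : (2 : ℂ) = 1 := h
      norm_num at h1) ?_
  have hopen : IsOpen {s : ℂ | 1 < s.re} := isOpen_lt continuous_const Complex.continuous_re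
  filter_upwards [hopen.mem_nhds (show (2 : ℂ) ∈ {s : ℂ | 1 < s.re} by norm_num)] with s hs
  have hs1 : 1 < s.re := hs
  have h1 := D.series ρ s hs1
  have h2 := (D.series ρ (conj s) (by rw [Complex.conj_re]; exact hs1)).star
  have e : ∀ n : ℕ, star ((n : ℂ) ^ (-(conj s))) = (n : ℂ) ^ (-s) := by
    intro n
    have h3 : (n : ℂ) ^ (conj (-s)) = conj (conj (n : ℂ) ^ (-s)) := Complex.cpow_conj _ _ (by
      rw [Complex.natCast_arg]; exact Real.pi_pos.ne)
    rw [map_neg, Complex.conj_natCast] at h3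
    rw [h3]
    exact Complex.conj_conj _
  simp only [e] at h2
  exact h1.unique h2

theorem deriv_real (D : ZetaData K H G 𝔣) (ρ : G) :
    (starRingEnd ℂ) (deriv (D.zeta ρ) 0) = deriv (D.zeta ρ) 0 := by
  have h0 : (0 : ℂ) ∈ ({1}ᶜ : Set ℂ) := by
    intro h
    have h1 : (0 : ℂ) = 1 := h
    norm_num at h1
  have h1 : DifferentiableAt ℂ (D.zeta ρ) 0 :=
    (D.analytic ρ 0 h0).differentiableAt (isOpen_compl_singleton.mem_nhds h0)
  have h2 := h1.hasDerivAt.conj_conj
  rw [map_zero] at h2
  have h3 : D.zeta ρ =ᶠ[𝓝 0] (starRingEnd ℂ) ∘ D.zeta ρ ∘ (starRingEnd ℂ) :=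
    (zeta_conj D ρ).eventuallyEq_of_mem (isOpen_compl_singleton.mem_nhds h0)
  have h4 := h3.deriv_eq
  rw [h2.deriv] at h4
  exact h4.symm

end Pool.Agent.J6H32.SR
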