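import Pool.Agent.J6H32.SR.Quad
import Pool.Agent.J6H32.SR.Ell

/-!
# The part at a prime number of Stark's conjecture at a real place
-/

set_option autoImplicit false
set_option linter.unusedSectionVars false

open NumberField IsDedekindDomain Filter Topology

noncomputable section

namespace Pool.Agent.J6H32.SR

open Pool.Agent.K3h30.RS Pool.Agent.K3h8.RS Pool.Agent.K3h43.RS Pool.Agent.J6H32.RU

variable {K H G : Type} [Field K] [NumberField K] [Field H] [NumberField H] [Algebra K H]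
  [CommGroup G] [MulSemiringAction G H]

/-- the units for the numbers `z` -/
def ZUnits (K : Type) [Field K] [Algebra K H] (z : G → ℂ) (φ : H →+* ℝ) (ε : G → (𝓞 H)ˣ) : Prop :=
  (∀ ρ : G, ((φ ((ε ρ : 𝓞 H) : H) : ℝ) : ℂ) = Complex.exp (-2 * z ρ)) ∧
  (∀ γ ρ : G, γ • ((ε ρ : 𝓞 H) : H) = ((ε (γ * ρ) : 𝓞 H) : H)) ∧
  ∀ (ρ : G) (g : H →+* ℂ), (∃ a : K, g (algebraMap K H a) ≠ ((φ (algebraMap K H a) : ℝ) : ℂ)) →
    ‖g ((ε ρ : 𝓞 H) : H)‖ = 1

theorem z_of_zunits (z : G → ℂ) (hreal : ∀ ρ : G, (starRingEnd ℂ) (z ρ) = z ρ) (φ : H →+* ℝ)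
    (ε : G → (𝓞 H)ˣ) (h : ZUnits K z φ ε) : ∃ u : Hˣ, (u : H) = ((ε 1 : 𝓞 H) : H) ∧
      UnitOff K (plc φ) (u : H) ∧
      ∀ ρ : G, z ρ = -(1 / (2 : ℂ)) * (logAbs (plc φ) (ρ • (u : H)) : ℂ) := by
  obtain ⟨h1, h2, h3⟩ := h
  have h0 : ((ε 1 : 𝓞 H) : H) ≠ 0 := by
    intro h
    have h4 := h1 1
    rw [h, map_zero] at h4
    exact Complex.exp_ne_zero _ h4.symm
  refine ⟨Units.mk0 _ h0, rfl, ?_, fun ρ => ?_⟩
  · rw [unitOff_iff, Units.val_mk0]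
    exact ⟨h3 1, val_unit _⟩
  · rw [Units.val_mk0, h2, mul_one, logAbs_plc]
    have h4 := h1 ρ
    obtain ⟨r, hr⟩ := Complex.conj_eq_iff_real.1 (hreal ρ)
    rw [hr] at h4 ⊢
    have h5 : φ ((ε ρ : 𝓞 H) : H) = Real.exp (-2 * r) := by
      have h6 : Complex.exp (-2 * (r : ℂ)) = ((Real.exp (-2 * r) : ℝ) : ℂ) := by
        push_cast
        rfl
      rw [h6] at h4
      exact_mod_cast h4
    rw [h5, Real.abs_exp, Real.log_exp]
    push_cast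
    ring

variable [Finite G] [hG : IsGaloisGroup G K H]

/-- units with commuting roots -/
theorem zunits_iff (z : G → ℂ) (hreal : ∀ ρ : G, (starRingEnd ℂ) (z ρ) = z ρ) (φ : H →+* ℝ)
    (bad₀ : Finset (HeightOneSpectrum (𝓞 K)))
    (hsq : ∀ v : HeightOneSpectrum (𝓞 K), v ∉ bad₀ →
      Squarefree (v.asIdeal.map (algebraMap (𝓞 K) (𝓞 H))))
    (σ : HeightOneSpectrum (𝓞 K) → G)
    (hσ : ∀ v : HeightOneSpectrum (𝓞 K), v ∉ bad₀ → IsFrob (H := H) v (σ v)) :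
    (∃ ε : G → (𝓞 H)ˣ, ZUnits K z φ ε ∧ ∀ ρ : G, AbelianRoot K ((ε ρ : 𝓞 H) : H) 2) ↔
      SK K z (plc φ) := by
  classical
  have h2 := tors_two φ
  constructor
  · rintro ⟨ε, hε, hab⟩
    obtain ⟨u, hu1, hu2, hu3⟩ := z_of_zunits z hreal φ ε hε
    refine ⟨u, hu2, ?_, ?_⟩
    · rw [h2]
      exact_mod_cast hu3
    · rw [h2, hu1]
      exact hab 1
  · intro h
    obtain ⟨L, _, _, _, _, _, hgal, u', hu', hz, hroot⟩ := exists_top z (plc φ) bad₀ hsq σ hσ h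
    rw [h2] at hz hroot
    obtain ⟨res, hsurj, hres⟩ := exists_res' K H L G
    obtain ⟨t, ht, hpos⟩ : ∃ t : Hˣ, t ^ 2 = 1 ∧ 0 < φ ((u' * t : Hˣ) : H) := by
      have h0 : φ (u' : H) ≠ 0 := (map_ne_zero φ).2 u'.ne_zero
      rcases lt_or_gt_of_ne h0 with h1 | h1
      · refine ⟨-1, by rw [neg_one_sq], ?_⟩
        rw [Units.val_mul, Units.val_neg, Units.val_one, mul_neg, mul_one, map_neg]
        linarith
      · refine ⟨1, one_pow 2, ?_⟩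
        rw [mul_one]
        exact h1
    obtain ⟨y, hy, htop⟩ := hroot t ht
    set u : Hˣ := u' * t with hu
    have hsign := sign_all φ res hsurj hres u y hy htop hpos
    have ht0 : ∀ ρ : G, logAbs (plc φ) (ρ • (t : H)) = 0 := by
      intro ρ
      have h3 := la_pow (plc φ) ρ t 2
      rw [ht, la_one] at h3
      push_cast at h3
      linarith
    have htu : t ∈ uo K (plc φ) := uo_of_pow (n := 2) (by norm_num) (by
      rw [ht]; exact (uo K (plc φ)).one_mem)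
    have huu : u ∈ uo K (plc φ) := (uo K (plc φ)).mul_mem hu' htu
    have hzu : ∀ ρ : G, z ρ = -(1 / (2 : ℂ)) * (logAbs (plc φ) (ρ • (u : H)) : ℂ) := by
      intro ρ
      have h3 := hz ρ
      simp only [Nat.cast_ofNat] at h3
      rw [h3, hu, la_mul, ht0, add_zero]
    choose ε hε using fun ρ : G => exists_unit (act ρ u) (uo_act huu ρ).2
    refine ⟨ε, ⟨fun ρ => ?_, fun γ ρ => ?_, fun ρ => ?_⟩, fun ρ => ?_⟩
    · rw [hε, act_val, hzu, logAbs_plc, abs_of_pos (hsign ρ)]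
      have h3 : -2 * (-(1 / (2 : ℂ)) * ((Real.log (φ (ρ • (u : H))) : ℝ) : ℂ)) =
          ((Real.log (φ (ρ • (u : H))) : ℝ) : ℂ) := by ring
      rw [h3, ← Complex.ofReal_exp, Real.exp_log (hsign ρ)]
    · rw [hε, hε, act_mul, ← act_val]
    · have h3 := (unitOff_iff φ _).1 (uo_act huu ρ)
      rw [hε]
      exact h3.1
    · obtain ⟨k, hk⟩ := hsurj ρ
      rw [hε]
      refine abelianRoot_of res hres _ 2 ((um k y : Lˣ) : L) ?_ ?_
      · rw [← Units.val_pow_eq_pow_val, ← map_pow, hy, um_inj res hres, hk, inj_val]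
      · intro c hc
        exact commutator_fix (cen_smul htop k) c hc

/-- a square has an abelian root -/
theorem abelianRoot_sq (hgal : IsGalois K H) (hab : ∀ a b : H ≃ₐ[K] H, a * b = b * a) (x : H) :
    AbelianRoot K (x ^ 2) 2 := by
  refine ⟨H, inferInstance, inferInstance, inferInstance, inferInstance, inferInstance, x, rfl,
    ?_, ?_⟩
  · exact Subsingleton.elim _ _
  · exact { toIsGalois := hgal, is_comm := ⟨hab⟩ }

/-- units for `z` give Stark's conjecture for `2 z` -/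
theorem sk_two (z : G → ℂ) (hreal : ∀ ρ : G, (starRingEnd ℂ) (z ρ) = z ρ) (φ : H →+* ℝ)
    (ε : G → (𝓞 H)ˣ) (h : ZUnits K z φ ε) : SK K (fun ρ => 2 * z ρ) (plc φ) := by
  obtain ⟨u, hu1, hu2, hu3⟩ := z_of_zunits z hreal φ ε h
  refine ⟨u ^ 2, (uo K (plc φ)).pow_mem hu2 2, fun ρ => ?_, ?_⟩
  · change 2 * z ρ = _
    rw [tors_two φ, la_pow, hu3]
    push_cast
    ring
  · rw [tors_two φ, Units.val_pow_eq_pow_val]
    refine abelianRoot_sq (IsGaloisGroup.isGalois G K H) (fun a b => ?_) _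
    obtain ⟨a', rfl⟩ := (IsGaloisGroup.mulEquivAlgEquiv G K H).surjective a
    obtain ⟨b', rfl⟩ := (IsGaloisGroup.mulEquivAlgEquiv G K H).surjective b
    rw [← map_mul, ← map_mul, mul_comm]

/-- the units for the multiples of `z` -/
def zgrp (K : Type) [Field K] [Algebra K H] (z : G → ℂ) (φ : H →+* ℝ) : AddSubgroup ℤ where
  carrier := {k | ∃ ε : G → (𝓞 H)ˣ, ZUnits K (fun ρ => (k : ℂ) * z ρ) φ ε}
  zero_mem' := by
    refine ⟨fun _ => 1, fun ρ => ?_, fun γ ρ => ?_, fun ρ g _ => ?_⟩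
    · simp
    · simp
    · simp
  add_mem' := by
    rintro a b ⟨ε, h1, h2, h3⟩ ⟨ε', h4, h5, h6⟩
    refine ⟨fun ρ => ε ρ * ε' ρ, fun ρ => ?_, fun γ ρ => ?_, fun ρ g hg => ?_⟩
    · have e : (((ε ρ * ε' ρ : (𝓞 H)ˣ) : 𝓞 H) : H) = ((ε ρ : 𝓞 H) : H) * ((ε' ρ : 𝓞 H) : H) := by
        rw [Units.val_mul]; exact map_mul (algebraMap (𝓞 H) H) _ _
      rw [e, map_mul, Complex.ofReal_mul, h1, h4, ← Complex.exp_add]
      congr 1
      push_cast
      ring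
    · have e : ∀ ρ : G, (((ε ρ * ε' ρ : (𝓞 H)ˣ) : 𝓞 H) : H) =
          ((ε ρ : 𝓞 H) : H) * ((ε' ρ : 𝓞 H) : H) := fun ρ => by
        rw [Units.val_mul]; exact map_mul (algebraMap (𝓞 H) H) _ _
      rw [e, e, smul_mul', h2, h5]
    · have e : (((ε ρ * ε' ρ : (𝓞 H)ˣ) : 𝓞 H) : H) = ((ε ρ : 𝓞 H) : H) * ((ε' ρ : 𝓞 H) : H) := by
        rw [Units.val_mul]; exact map_mul (algebraMap (𝓞 H) H) _ _
      rw [e, map_mul, norm_mul, h3 ρ g hg, h6 ρ g hg, one_mul]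
  neg_mem' := by
    rintro a ⟨ε, h1, h2, h3⟩
    have e : ∀ ρ : G, ((((ε ρ)⁻¹ : (𝓞 H)ˣ) : 𝓞 H) : H) = (((ε ρ : 𝓞 H) : H))⁻¹ := by
      intro ρ
      apply eq_inv_of_mul_eq_one_left
      have h4 : (((ε ρ)⁻¹ : (𝓞 H)ˣ) : 𝓞 H) * (ε ρ : 𝓞 H) = 1 := by
        rw [← Units.val_mul, inv_mul_cancel, Units.val_one]
      have h5 := congrArg (algebraMap (𝓞 H) H) h4
      rw [map_mul, map_one] at h5
      exact h5
    refine ⟨fun ρ => (ε ρ)⁻¹, fun ρ => ?_, fun γ ρ => ?_, fun ρ g hg => ?_⟩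
    · rw [e, map_inv₀, Complex.ofReal_inv, h1, ← Complex.exp_neg]
      congr 1
      push_cast
      ring
    · rw [e, e, smul_inv'', h2]
    · rw [e, map_inv₀, norm_inv, h3 ρ g hg, inv_one]

/-- gluing of the units -/
theorem zunits_glue (z : G → ℂ) (φ : H →+* ℝ)
    (h : ∀ ℓ : ℕ, ℓ.Prime → ∃ n : ℕ, ¬ ℓ ∣ n ∧ ∃ ε : G → (𝓞 H)ˣ,
      ZUnits K (fun ρ => (n : ℂ) * z ρ) φ ε) : ∃ ε : G → (𝓞 H)ˣ, ZUnits K z φ ε := by
  obtain ⟨d, hd⟩ := Int.subgroup_cyclic (zgrp K z φ)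
  have hmem : ∀ k : ℤ, k ∈ zgrp K z φ ↔ ((d.natAbs : ℕ) : ℤ) ∣ k := by
    intro k
    rw [hd, ← AddSubgroup.zmultiples_eq_closure, Int.mem_zmultiples_iff, Int.natAbs_dvd]
  have h1 : d.natAbs = 1 := by
    by_contra hne
    obtain ⟨ℓ, hℓ, hℓd⟩ := Nat.exists_prime_and_dvd hne
    obtain ⟨n, hn, ε, hε⟩ := h ℓ hℓ
    have h2 : ((n : ℕ) : ℤ) ∈ zgrp K z φ := by
      refine ⟨ε, ?_⟩
      simpa using hε
    rw [hmem] at h2
    have h3 : d.natAbs ∣ n := by exact_mod_cast h2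
    exact hn (hℓd.trans h3)
  have h2 : (1 : ℤ) ∈ zgrp K z φ := by
    rw [hmem, h1]
    exact one_dvd _
  obtain ⟨ε, hε⟩ := h2
  refine ⟨ε, ?_⟩
  simpa using hε

end Pool.Agent.J6H32.SR
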