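import Pool.Agent.J6H32.SR.Sign
import Pool.Agent.J6H32.RT.Cls

/-!
# The rank one Stark conjecture and the prime ideals which split completely
-/

set_option autoImplicit false
set_option linter.unusedSectionVars false

open NumberField IsDedekindDomain Filter Topology

noncomputable section

namespace Pool.Agent.J6H32.SR

open Pool.Agent.K3h30.RS Pool.Agent.K3h8.RS Pool.Agent.K3h43.RS Pool.Agent.J6H32.RU

variable {K H L G : Type} [Field K] [NumberField K] [Field H] [NumberField H] [Algebra K H]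
  [Field L] [NumberField L] [Algebra H L] [Algebra K L] [IsScalarTower K H L]
  [CommGroup G] [Finite G] [MulSemiringAction G H] [hG : IsGaloisGroup G K H]

/-- the root, for automorphisms which fix `H` -/
theorem exists_in_H_rel [IsGalois K L] (res : (L ≃ₐ[K] L) →* G)
    (hres : ∀ (g : L ≃ₐ[K] L) (x : H), g (algebraMap H L x) = algebraMap H L (res g • x))
    (u : Hˣ) (m : ℕ) (hm : 0 < m) (y : Lˣ) (hy : y ^ m = inj H L u)
    (hc : ∀ a b : L ≃ₐ[K] L, res a = 1 → res b = 1 → um a (um b y) = um b (um a y)) :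
    ∃ (u' : Hˣ) (ζ : Lˣ), ζ ^ m = 1 ∧ inj H L u' = y ^ (Units.torsionOrder H) * ζ := by
  obtain ⟨η, hη⟩ := exists_gen L
  have hM := Units.torsionOrder_pos L
  choose κ hκ using fun τ : L ≃ₐ[K] L => exists_kappa η hη τ
  have hξm : ∀ g : L ≃ₐ[K] L, res g = 1 → (um g y * y⁻¹) ^ m = 1 := by
    intro g hg
    rw [mul_pow, ← map_pow, hy, um_inj res hres, hg, act_one, inv_pow, hy, mul_inv_cancel]
  have hξ : ∀ g : L ≃ₐ[K] L, res g = 1 → IsOfFinOrder (um g y * y⁻¹) := by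
    intro g hg
    rw [isOfFinOrder_iff_pow_eq_one]
    exact ⟨m, hm, hξm g hg⟩
  let I : AddSubgroup ℤ :=
    { carrier := {k | ∃ ζ : Lˣ, ζ ^ m = 1 ∧
        ∀ g : L ≃ₐ[K] L, res g = 1 → um g (y ^ k * ζ) = y ^ k * ζ}
      zero_mem' := ⟨1, one_pow m, fun g _ => by rw [zpow_zero, one_mul, map_one]⟩
      add_mem' := by
        rintro a b ⟨ζ, h1, h2⟩ ⟨ζ', h3, h4⟩
        refine ⟨ζ * ζ', by rw [mul_pow, h1, h3, one_mul], fun g hg => ?_⟩
        have e : y ^ (a + b) * (ζ * ζ') = (y ^ a * ζ) * (y ^ b * ζ') := by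
          rw [zpow_add, mul_mul_mul_comm]
        rw [e, map_mul, h2 g hg, h4 g hg]
      neg_mem' := by
        rintro a ⟨ζ, h1, h2⟩
        refine ⟨ζ⁻¹, by rw [inv_pow, h1, inv_one], fun g hg => ?_⟩
        have e : y ^ (-a) * ζ⁻¹ = (y ^ a * ζ)⁻¹ := by
          rw [zpow_neg, mul_inv]
        rw [e, map_inv, h2 g hg] }
  have hI1 : ((Units.torsionOrder L : ℕ) : ℤ) ∈ I := by
    refine ⟨1, one_pow m, fun g hg => ?_⟩
    have h1 := root_pow _ (isOfFinOrder_iff_pow_eq_one.1 (hξ g hg))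
    rw [mul_pow, inv_pow, mul_inv_eq_one] at h1
    rw [mul_one, zpow_natCast, map_pow, h1]
  have hI2 : ∀ τ : L ≃ₐ[K] L, res τ = 1 → ((κ τ : ℤ) - 1) ∈ I := by
    intro τ hτ
    refine ⟨(um τ y * y⁻¹)⁻¹, by rw [inv_pow, hξm τ hτ, inv_one], fun g hg => ?_⟩
    have h1 := hκ τ _ (hξ g hg)
    rw [map_mul, map_inv, hc τ g hτ hg] at h1
    -- um g (um τ y) * (um τ y)⁻¹ = (um g y * y⁻¹) ^ κ τ
    rw [map_mul, map_inv, map_mul, map_inv, map_zpow, zpow_sub, zpow_sub, zpow_natCast,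
      zpow_natCast, zpow_one, zpow_one]
    have h2 : um g (um τ y) = um g y ^ κ τ * (y⁻¹) ^ κ τ * um τ y := by
      rw [← mul_pow, ← h1, inv_mul_cancel_right]
    rw [h2]
    simp only [inv_pow, mul_inv_rev, inv_inv]
    rw [comm_id, mul_assoc (y ^ κ τ), inv_mul_cancel_left]
  obtain ⟨d', hd'⟩ := Int.subgroup_cyclic I
  have hmem : ∀ k : ℤ, k ∈ I ↔ ((d'.natAbs : ℕ) : ℤ) ∣ k := by
    intro k
    rw [hd', ← AddSubgroup.zmultiples_eq_closure, Int.mem_zmultiples_iff, Int.natAbs_dvd]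
  set d := d'.natAbs with hd
  have hdM : d ∣ Units.torsionOrder L := by
    have := (hmem _).1 hI1
    exact_mod_cast this
  obtain ⟨q, hq⟩ := hdM
  have hd0 : 0 < d := by
    rcases Nat.eq_zero_or_pos d with h | h
    · rw [h, zero_mul] at hq; omega
    · exact h
  have hprim : IsPrimitiveRoot (η ^ q) d := hη.pow hM (by rw [hq, mul_comm])
  have hfixq : ∀ τ : L ≃ₐ[K] L, res τ = 1 → um τ (η ^ q) = η ^ q := by
    intro τ hτ
    rw [hκ τ _ (isOfFinOrder_iff_pow_eq_one.2 ⟨d, hd0, hprim.pow_eq_one⟩)]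
    have h1 := (hmem _).1 (hI2 τ hτ)
    obtain ⟨k, hk⟩ := h1
    have h2 : (κ τ : ℤ) = d * k + 1 := by linarith
    have h3 : (η ^ q) ^ ((κ τ : ℤ)) = η ^ q := by
      rw [h2, zpow_add, zpow_mul, zpow_natCast, hprim.pow_eq_one, one_zpow, one_mul, zpow_one]
    rwa [zpow_natCast] at h3
  obtain ⟨h, hh⟩ := mem_of_fix res hres _ hfixq
  have hhp : IsPrimitiveRoot (h : H) d := by
    rw [IsPrimitiveRoot.coe_units_iff]
    rw [← hh] at hprim
    exact IsPrimitiveRoot.of_map_of_injective hprim inj_injective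
  have : NeZero d := ⟨hd0.ne'⟩
  have hde : d ∣ Units.torsionOrder H := Units.dvd_torsionOrder_of_isPrimitiveRoot hhp
  obtain ⟨ζ, hζ1, hζ2⟩ : ((Units.torsionOrder H : ℕ) : ℤ) ∈ I := by
    rw [hmem]
    exact_mod_cast hde
  obtain ⟨u', hu'⟩ := mem_of_fix res hres _ hζ2
  refine ⟨u', ζ, hζ1, ?_⟩
  rw [hu', zpow_natCast]


/-- the root and its twists by roots of unity, for automorphisms which fix `H` -/
theorem root_of_rel [IsGalois K L] (res : (L ≃ₐ[K] L) →* G)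
    (hres : ∀ (g : L ≃ₐ[K] L) (x : H), g (algebraMap H L x) = algebraMap H L (res g • x))
    (z : G → ℂ) (w₀ : InfinitePlace H) (u : Hˣ) (m : ℕ)
    (hm : 0 < m) (hu : u ∈ uo K w₀)
    (hz : ∀ ρ : G, (m : ℂ) * z ρ = -(logAbs w₀ (ρ • (u : H)) : ℂ))
    (y : Lˣ) (hy : y ^ m = inj H L u) (θ : Lˣ)
    (hθ : orderOf θ = m * Units.torsionOrder H * Units.torsionOrder H)
    (hrel : ∀ a : L ≃ₐ[K] L, res a = 1 → a ∈ cen (L ≃ₐ[K] L) (y : L)) :
    ∃ u' : Hˣ, u' ∈ uo K w₀ ∧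
      (∀ ρ : G, z ρ = -(1 / (Units.torsionOrder H : ℂ)) * (logAbs w₀ (ρ • (u' : H)) : ℂ)) ∧
      ∀ t : Hˣ, t ^ (Units.torsionOrder H) = 1 → ∃ y' : Lˣ,
        y' ^ (Units.torsionOrder H) = inj H L (u' * t) ∧
        ∀ a : L ≃ₐ[K] L, res a = 1 → a ∈ cen (L ≃ₐ[K] L) (y' : L) := by
  set e := Units.torsionOrder H with he
  have he0 : 0 < e := Units.torsionOrder_pos H
  have hc : ∀ a b : L ≃ₐ[K] L, res a = 1 → res b = 1 → um a (um b y) = um b (um a y) := by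
    intro a b _ hb
    exact (mem_cen_iff y b).1 (hrel b hb) a
  obtain ⟨u', ζ, hζ, hu'⟩ := exists_in_H_rel res hres u m hm y hy hc
  rw [← he] at hu'
  have hpow : u' ^ m = u ^ e := by
    apply inj_injective (H := H) (L := L)
    rw [map_pow, hu', mul_pow, hζ, mul_one, ← pow_mul, mul_comm e m, pow_mul, hy, map_pow]
  refine ⟨u', ?_, fun ρ => ?_, fun t ht => ?_⟩
  · refine uo_of_pow hm ?_
    rw [hpow]
    exact (uo K w₀).pow_mem hu e
  · have h1 := la_pow w₀ ρ u' m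
    rw [hpow, la_pow] at h1
    have h2 : ((e * logAbs w₀ (ρ • (u : H)) : ℝ) : ℂ) =
        ((m * logAbs w₀ (ρ • (u' : H)) : ℝ) : ℂ) := by rw [h1]
    push_cast at h2
    have h3 := hz ρ
    have hm' : (m : ℂ) ≠ 0 := by exact_mod_cast hm.ne'
    have he' : (e : ℂ) ≠ 0 := by exact_mod_cast he0.ne'
    apply mul_left_cancel₀ (mul_ne_zero hm' he')
    have e1 : (m : ℂ) * e * (-(1 / (e : ℂ)) * (logAbs w₀ (ρ • (u' : H)) : ℂ)) =
        -(m * (logAbs w₀ (ρ • (u' : H)) : ℂ)) := by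
      field_simp
    rw [e1, ← h2]
    linear_combination (e : ℂ) * h3
  · have hme : 0 < m * e := Nat.mul_pos hm he0
    obtain ⟨ξ, hξ1, hξ2⟩ : ∃ ξ : Lˣ, ξ ^ e = ζ * inj H L t ∧ IsOfFinOrder ξ := by
      have h1 : IsPrimitiveRoot θ (m * e * e) := by rw [← hθ]; exact IsPrimitiveRoot.orderOf θ
      have h2 : IsPrimitiveRoot (θ ^ e) (m * e) :=
        h1.pow (Nat.mul_pos hme he0) (mul_comm (m * e) e)
      have h3 : IsPrimitiveRoot ((θ ^ e : Lˣ) : L) (m * e) := (IsPrimitiveRoot.coe_units_iff).2 h2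
      have : NeZero (m * e) := ⟨hme.ne'⟩
      obtain ⟨i, -, hi⟩ := h3.eq_pow_of_pow_eq_one (ξ := ((ζ * inj H L t : Lˣ) : L)) (by
        rw [← Units.val_pow_eq_pow_val, mul_pow, pow_mul ζ, hζ, one_pow, one_mul, ← map_pow,
          mul_comm m e, pow_mul, ht, one_pow, map_one, Units.val_one])
      refine ⟨θ ^ i, ?_, ?_⟩
      · rw [← pow_mul, mul_comm, pow_mul]
        exact Units.ext (by rw [Units.val_pow_eq_pow_val, hi])
      · exact (isOfFinOrder_iff_pow_eq_one.2 ⟨m * e * e, Nat.mul_pos hme he0, h1.pow_eq_one⟩).pow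
    obtain ⟨η, hη⟩ := exists_gen L
    refine ⟨y * ξ, ?_, ?_⟩
    · rw [mul_pow, hξ1, map_mul, hu', mul_assoc]
    · intro a ha
      rw [mem_cen_iff]
      intro k
      obtain ⟨i, hi⟩ := exists_kappa η hη a
      obtain ⟨j, hj⟩ := exists_kappa η hη k
      rw [map_mul, map_mul, map_mul, map_mul, (mem_cen_iff y a).1 (hrel a ha) k, hi ξ hξ2,
        hj ξ hξ2, map_pow, map_pow, hi ξ hξ2, hj ξ hξ2, ← pow_mul, ← pow_mul, mul_comm i j]

end Pool.Agent.J6H32.SR
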