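import Pool.Agent.J6H32.SR.Main

/-!
# The rank one Stark conjecture: the abelian condition
-/

set_option autoImplicit false
set_option linter.unusedSectionVars false

open NumberField IsDedekindDomain

noncomputable section

namespace Pool.Agent.J6H32.SR

open Pool.Agent.K3h30.RS Pool.Agent.K3h8.RS Pool.Agent.J6H32.RU

variable {K H L G : Type} [Field K] [NumberField K] [Field H] [NumberField H] [Algebra K H]
  [Field L] [NumberField L] [Algebra H L] [Algebra K L] [IsScalarTower K H L]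
  [CommGroup G] [Finite G] [MulSemiringAction G H] [hG : IsGaloisGroup G K H]

/-- roots of unity -/
theorem root_pow (ξ : Lˣ) (h : ∃ n : ℕ, 0 < n ∧ ξ ^ n = 1) : ξ ^ (Units.torsionOrder L) = 1 := by
  have h1 : 0 < orderOf ξ := orderOf_pos_iff.2 (isOfFinOrder_iff_pow_eq_one.2 h)
  have : NeZero (orderOf ξ) := ⟨h1.ne'⟩
  have h2 : IsPrimitiveRoot (ξ : L) (orderOf ξ) :=
    (IsPrimitiveRoot.coe_units_iff).2 (IsPrimitiveRoot.orderOf ξ)
  exact orderOf_dvd_iff_pow_eq_one.1 (Units.dvd_torsionOrder_of_isPrimitiveRoot h2)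

theorem exists_gen (L : Type) [Field L] [NumberField L] :
    ∃ η : Lˣ, IsPrimitiveRoot η (Units.torsionOrder L) := by
  obtain ⟨t, ht⟩ := IsCyclic.exists_ofOrder_eq_natCard (α := Units.torsion L)
  refine ⟨Units.map (algebraMap (𝓞 L) L : 𝓞 L →* L) (t : (𝓞 L)ˣ), ?_⟩
  have h1 : IsPrimitiveRoot (t : (𝓞 L)ˣ) (Units.torsionOrder L) := by
    have h2 : orderOf (t : (𝓞 L)ˣ) = Units.torsionOrder L := by
      rw [Subgroup.orderOf_coe, ht]
      rfl
    rw [← h2]
    exact IsPrimitiveRoot.orderOf _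
  refine h1.map_of_injective (f := (Units.map (algebraMap (𝓞 L) L : 𝓞 L →* L))) ?_
  exact Units.map_injective (FaithfulSMul.algebraMap_injective _ _)

/-- elements of `H` -/
theorem mem_of_fix [IsGalois K L] (res : (L ≃ₐ[K] L) →* G)
    (hres : ∀ (g : L ≃ₐ[K] L) (x : H), g (algebraMap H L x) = algebraMap H L (res g • x))
    (c : Lˣ) (hfix : ∀ k : L ≃ₐ[K] L, res k = 1 → um k c = c) : ∃ a : Hˣ, inj H L a = c := by
  have hfaith : FaithfulSMul G H := IsGaloisGroup.faithful K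
  have hgalH : IsGalois H L := IsGalois.tower_top_of_isGalois K H L
  have h1 : (c : L) ∈ (⊥ : IntermediateField H L) := by
    rw [IsGalois.mem_bot_iff_fixed]
    intro f
    have h2 := hfix (f.restrictScalars K) ?_
    · exact congrArg Units.val h2
    · refine FaithfulSMul.eq_of_smul_eq_smul (α := H) fun x => ?_
      apply (algebraMap H L).injective
      rw [← hres, one_smul]
      exact f.commutes x
  rw [IntermediateField.mem_bot] at h1
  obtain ⟨a, ha⟩ := h1
  have ha0 : a ≠ 0 := by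
    rintro rfl
    rw [map_zero] at ha
    exact c.ne_zero ha.symm
  refine ⟨Units.mk0 a ha0, ?_⟩
  apply Units.ext
  rw [inj_val, Units.val_mk0, ha]

/-- automorphisms act on roots of unity by powers -/
theorem exists_kappa (η : Lˣ) (hη : IsPrimitiveRoot η (Units.torsionOrder L)) (τ : L ≃ₐ[K] L) :
    ∃ n : ℕ, ∀ ξ : Lˣ, IsOfFinOrder ξ → um τ ξ = ξ ^ n := by
  have hM := Units.torsionOrder_pos L
  have : NeZero (Units.torsionOrder L) := ⟨hM.ne'⟩
  have hpow : ∀ ξ : Lˣ, IsOfFinOrder ξ → ∃ i : ℕ, ξ = η ^ i := by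
    intro ξ hξ
    have h1 := root_pow ξ (isOfFinOrder_iff_pow_eq_one.1 hξ)
    have h2 : IsPrimitiveRoot (η : L) (Units.torsionOrder L) := (IsPrimitiveRoot.coe_units_iff).2 hη
    obtain ⟨i, -, hi⟩ := h2.eq_pow_of_pow_eq_one (ξ := (ξ : L)) (by
      rw [← Units.val_pow_eq_pow_val, h1, Units.val_one])
    exact ⟨i, Units.ext (by rw [Units.val_pow_eq_pow_val, hi])⟩
  have hη' : IsOfFinOrder η := isOfFinOrder_iff_pow_eq_one.2 ⟨_, hM, hη.pow_eq_one⟩
  obtain ⟨n, hn⟩ := hpow (um τ η) (by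
    rw [isOfFinOrder_iff_pow_eq_one]
    exact ⟨_, hM, by rw [← map_pow, hη.pow_eq_one, map_one]⟩)
  refine ⟨n, fun ξ hξ => ?_⟩
  obtain ⟨i, rfl⟩ := hpow ξ hξ
  rw [map_pow, hn, ← pow_mul, ← pow_mul, mul_comm]

theorem comm_id {A : Type} [CommGroup A] (a u t k : A) :
    a * u⁻¹ * (u * (t⁻¹ * (k * a⁻¹))) = k * t⁻¹ := by
  rw [mul_assoc, inv_mul_cancel_left, mul_comm a, mul_assoc, mul_assoc, inv_mul_cancel, mul_one,
    mul_comm]

/-- **the root**: if `L / K` is abelian on the conjugates of `y` then `y ^ e` is in `H`, up to a root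
of unity -/
theorem exists_in_H [IsGalois K L] (res : (L ≃ₐ[K] L) →* G)
    (hres : ∀ (g : L ≃ₐ[K] L) (x : H), g (algebraMap H L x) = algebraMap H L (res g • x))
    (u : Hˣ) (m : ℕ) (hm : 0 < m) (y : Lˣ) (hy : y ^ m = inj H L u)
    (hc : ∀ a b : L ≃ₐ[K] L, um a (um b y) = um b (um a y)) :
    ∃ (u' : Hˣ) (ζ : Lˣ), ζ ^ m = 1 ∧ inj H L u' = y ^ (Units.torsionOrder H) * ζ := by
  obtain ⟨η, hη⟩ := exists_gen L
  have hM := Units.torsionOrder_pos L
  choose κ hκ using fun τ : L ≃ₐ[K] L => exists_kappa η hη τ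
  have hξm : ∀ g : L ≃ₐ[K] L, res g = 1 → (um g y * y⁻¹) ^ m = 1 := by
    intro g hg
    rw [mul_pow, ← map_pow, hy, um_inj res hres, hg, act_one, inv_pow, hy, mul_inv_cancel]
  have hξ : ∀ g : L ≃ₐ[K] L, res g = 1 → IsOfFinOrder (um g y * y⁻¹) := by
    intro g hg
    rw [isOfFinOrder_iff_pow_eq_one]
    exact ⟨m, hm, hξm g hg⟩
  let I : AddSubgroup ℤ :=
    { carrier := {k | ∃ ζ : Lˣ, ζ ^ m = 1 ∧
        ∀ g : L ≃ₐ[K] L, res g = 1 → um g (y ^ k * ζ) = y ^ k * ζ}
      zero_mem' := ⟨1, one_pow m, fun g _ => by rw [zpow_zero, one_mul, map_one]⟩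
      add_mem' := by
        rintro a b ⟨ζ, h1, h2⟩ ⟨ζ', h3, h4⟩
        refine ⟨ζ * ζ', by rw [mul_pow, h1, h3, one_mul], fun g hg => ?_⟩
        have e : y ^ (a + b) * (ζ * ζ') = (y ^ a * ζ) * (y ^ b * ζ') := by
          rw [zpow_add, mul_mul_mul_comm]
        rw [e, map_mul, h2 g hg, h4 g hg]
      neg_mem' := by
        rintro a ⟨ζ, h1, h2⟩
        refine ⟨ζ⁻¹, by rw [inv_pow, h1, inv_one], fun g hg => ?_⟩
        have e : y ^ (-a) * ζ⁻¹ = (y ^ a * ζ)⁻¹ := by
          rw [zpow_neg, mul_inv]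
        rw [e, map_inv, h2 g hg] }
  have hI1 : ((Units.torsionOrder L : ℕ) : ℤ) ∈ I := by
    refine ⟨1, one_pow m, fun g hg => ?_⟩
    have h1 := root_pow _ (isOfFinOrder_iff_pow_eq_one.1 (hξ g hg))
    rw [mul_pow, inv_pow, mul_inv_eq_one] at h1
    rw [mul_one, zpow_natCast, map_pow, h1]
  have hI2 : ∀ τ : L ≃ₐ[K] L, res τ = 1 → ((κ τ : ℤ) - 1) ∈ I := by
    intro τ hτ
    refine ⟨(um τ y * y⁻¹)⁻¹, by rw [inv_pow, hξm τ hτ, inv_one], fun g hg => ?_⟩
    have h1 := hκ τ _ (hξ g hg)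
    rw [map_mul, map_inv, hc τ g] at h1
    -- um g (um τ y) * (um τ y)⁻¹ = (um g y * y⁻¹) ^ κ τ
    rw [map_mul, map_inv, map_mul, map_inv, map_zpow, zpow_sub, zpow_sub, zpow_natCast,
      zpow_natCast, zpow_one, zpow_one]
    have h2 : um g (um τ y) = um g y ^ κ τ * (y⁻¹) ^ κ τ * um τ y := by
      rw [← mul_pow, ← h1, inv_mul_cancel_right]
    rw [h2]
    simp only [inv_pow, mul_inv_rev, inv_inv]
    rw [comm_id, mul_assoc (y ^ κ τ), inv_mul_cancel_left]
  obtain ⟨d', hd'⟩ := Int.subgroup_cyclic I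
  have hmem : ∀ k : ℤ, k ∈ I ↔ ((d'.natAbs : ℕ) : ℤ) ∣ k := by
    intro k
    rw [hd', ← AddSubgroup.zmultiples_eq_closure, Int.mem_zmultiples_iff, Int.natAbs_dvd]
  set d := d'.natAbs with hd
  have hdM : d ∣ Units.torsionOrder L := by
    have := (hmem _).1 hI1
    exact_mod_cast this
  obtain ⟨q, hq⟩ := hdM
  have hd0 : 0 < d := by
    rcases Nat.eq_zero_or_pos d with h | h
    · rw [h, zero_mul] at hq; omega
    · exact h
  have hprim : IsPrimitiveRoot (η ^ q) d := hη.pow hM (by rw [hq, mul_comm])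
  have hfixq : ∀ τ : L ≃ₐ[K] L, res τ = 1 → um τ (η ^ q) = η ^ q := by
    intro τ hτ
    rw [hκ τ _ (isOfFinOrder_iff_pow_eq_one.2 ⟨d, hd0, hprim.pow_eq_one⟩)]
    have h1 := (hmem _).1 (hI2 τ hτ)
    obtain ⟨k, hk⟩ := h1
    have h2 : (κ τ : ℤ) = d * k + 1 := by linarith
    have h3 : (η ^ q) ^ ((κ τ : ℤ)) = η ^ q := by
      rw [h2, zpow_add, zpow_mul, zpow_natCast, hprim.pow_eq_one, one_zpow, one_mul, zpow_one]
    rwa [zpow_natCast] at h3
  obtain ⟨h, hh⟩ := mem_of_fix res hres _ hfixq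
  have hhp : IsPrimitiveRoot (h : H) d := by
    rw [IsPrimitiveRoot.coe_units_iff]
    rw [← hh] at hprim
    exact IsPrimitiveRoot.of_map_of_injective hprim inj_injective
  have : NeZero d := ⟨hd0.ne'⟩
  have hde : d ∣ Units.torsionOrder H := Units.dvd_torsionOrder_of_isPrimitiveRoot hhp
  obtain ⟨ζ, hζ1, hζ2⟩ : ((Units.torsionOrder H : ℕ) : ℤ) ∈ I := by
    rw [hmem]
    exact_mod_cast hde
  obtain ⟨u', hu'⟩ := mem_of_fix res hres _ hζ2
  refine ⟨u', ζ, hζ1, ?_⟩
  rw [hu', zpow_natCast]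

/-- the abelian extension -/
theorem abelianRoot_of [IsGalois K L] (res : (L ≃ₐ[K] L) →* G)
    (hres : ∀ (g : L ≃ₐ[K] L) (x : H), g (algebraMap H L x) = algebraMap H L (res g • x))
    (u : H) (e : ℕ) (y : L) (hy : y ^ e = algebraMap H L u)
    (hc : ∀ c ∈ commutator (L ≃ₐ[K] L), c y = y) : AbelianRoot K u e := by
  let F := IntermediateField.fixedField (commutator (L ≃ₐ[K] L))
  have hgalF : IsGalois K F := IsGalois.of_fixedField_normal_subgroup (commutator (L ≃ₐ[K] L))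
  have habF : IsAbelianGalois K F := by
    refine { toIsGalois := hgalF, toIsMulCommutative := ⟨⟨fun a b => ?_⟩⟩ }
    obtain ⟨a', rfl⟩ := AlgEquiv.restrictNormalHom_surjective (F := K) (K₁ := F) L a
    obtain ⟨b', rfl⟩ := AlgEquiv.restrictNormalHom_surjective (F := K) (K₁ := F) L b
    rw [← map_mul, ← map_mul]
    ext x
    have e1 : ∀ s : L ≃ₐ[K] L, ((AlgEquiv.restrictNormalHom F s x : F) : L) = s (x : L) :=
      fun s => AlgEquiv.restrictNormal_commutes s F x
    rw [e1, e1]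
    have h1 : (a' * b')⁻¹ * (b' * a') ∈ commutator (L ≃ₐ[K] L) := by
      have h2 := Subgroup.commutator_mem_commutator (H₁ := (⊤ : Subgroup (L ≃ₐ[K] L)))
        (H₂ := ⊤) (Subgroup.mem_top b'⁻¹) (Subgroup.mem_top a'⁻¹)
      rw [commutatorElement_def] at h2
      have h3 : (a' * b')⁻¹ * (b' * a') = b'⁻¹ * a'⁻¹ * b'⁻¹⁻¹ * a'⁻¹⁻¹ := by group
      rw [h3]
      exact h2
    have h2 : ((a' * b')⁻¹ * (b' * a')) (x : L) = (x : L) := x.2 ⟨_, h1⟩
    have h3 : (b' * a') (x : L) = (a' * b') (((a' * b')⁻¹ * (b' * a')) (x : L)) := by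
      change _ = ((a' * b') * ((a' * b')⁻¹ * (b' * a'))) (x : L)
      rw [mul_inv_cancel_left]
    rw [h3, h2]
  let M : IntermediateField H L := IntermediateField.adjoin H {y}
  have hM : ∀ x ∈ M, x ∈ F := by
    intro x hx
    refine fun c => ?_
    change (c : L ≃ₐ[K] L) x = x
    induction hx using IntermediateField.adjoin_induction with
    | mem x hx =>
      rw [Set.mem_singleton_iff] at hx
      subst hx
      exact hc _ c.2
    | algebraMap x =>
      rw [hres]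
      have h1 : res (c : L ≃ₐ[K] L) = 1 := by
        have h2 : commutator (L ≃ₐ[K] L) ≤ res.ker := by
          exact Abelianization.commutator_subset_ker res
        exact h2 c.2
      rw [h1, one_smul]
    | add x z _ _ h1 h2 => rw [map_add, h1, h2]
    | inv x _ h1 => rw [map_inv₀, h1]
    | mul x z _ _ h1 h2 => rw [map_mul, h1, h2]
  have hyM : y ∈ M := IntermediateField.mem_adjoin_simple_self H y
  let f : M →ₐ[K] F :=
    { toFun := fun x => ⟨(x : L), hM _ x.2⟩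
      map_one' := rfl
      map_mul' := fun _ _ => rfl
      map_zero' := rfl
      map_add' := fun _ _ => rfl
      commutes' := fun _ => rfl }
  refine ⟨M, inferInstance, inferInstance, inferInstance, inferInstance, inferInstance, ⟨y, hyM⟩,
    ?_, ?_, IsAbelianGalois.of_algHom f⟩
  · apply Subtype.ext
    exact hy
  · apply IntermediateField.lift_injective M
    rw [IntermediateField.lift_adjoin_simple, IntermediateField.lift_top]

end Pool.Agent.J6H32.SR
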