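import Pool.Agent.J6H32.SR.Fin

/-!
# The rank one Stark conjecture at a real place: signs
-/

set_option autoImplicit false
set_option linter.unusedSectionVars false

open NumberField IsDedekindDomain Filter Topology

noncomputable section

namespace Pool.Agent.J6H32.SR

open Pool.Agent.K3h30.RS Pool.Agent.K3h8.RS Pool.Agent.K3h43.RS Pool.Agent.J6H32.RU

variable {K H G : Type} [Field K] [NumberField K] [Field H] [NumberField H] [Algebra K H]
  [CommGroup G] [Finite G] [MulSemiringAction G H]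

/-- the embedding into `ℂ` given by an embedding into `ℝ` -/
def toC (φ : H →+* ℝ) : H →+* ℂ := Complex.ofRealHom.comp φ

theorem toC_apply (φ : H →+* ℝ) (x : H) : toC φ x = ((φ x : ℝ) : ℂ) := rfl

theorem toC_isReal (φ : H →+* ℝ) : ComplexEmbedding.IsReal (toC φ) := by
  ext x
  rw [ComplexEmbedding.conjugate_coe_eq, toC_apply, Complex.conj_ofReal]

/-- the place of an embedding into `ℝ` -/
def plc (φ : H →+* ℝ) : InfinitePlace H := InfinitePlace.mk (toC φ)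

theorem plc_apply (φ : H →+* ℝ) (x : H) : plc φ x = |φ x| := by
  unfold plc
  rw [InfinitePlace.apply, toC_apply, Complex.norm_real, Real.norm_eq_abs]

theorem plc_isReal (φ : H →+* ℝ) : (plc φ).IsReal := ⟨toC φ, toC_isReal φ, rfl⟩

theorem logAbs_plc (φ : H →+* ℝ) (x : H) : logAbs (plc φ) x = Real.log |φ x| := by
  unfold logAbs
  rw [(plc_isReal φ).mult_eq_one, plc_apply, Nat.cast_one, one_mul]

theorem tors_two (φ : H →+* ℝ) : Units.torsionOrder H = 2 := by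
  obtain ⟨η, hη⟩ := exists_gen H
  have h1 : IsPrimitiveRoot (η : H) (Units.torsionOrder H) := (IsPrimitiveRoot.coe_units_iff).2 hη
  have h2 : ¬ 2 < Units.torsionOrder H := by
    intro h
    have h3 := NumberField.InfinitePlace.IsPrimitiveRoot.nrRealPlaces_eq_zero_of_two_lt h h1
    classical
    have h4 : 0 < InfinitePlace.nrRealPlaces H := by
      unfold InfinitePlace.nrRealPlaces
      exact Fintype.card_pos_iff.2 ⟨⟨plc φ, plc_isReal φ⟩⟩
    omega
  have h3 := Units.torsionOrder_pos H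
  have h4 := Units.even_torsionOrder H
  obtain ⟨k, hk⟩ := h4
  omega

theorem real_of_sq (z : ℂ) (r : ℝ) (hr : 0 < r) (h : z ^ 2 = (r : ℂ)) : (starRingEnd ℂ) z = z := by
  rw [Complex.conj_eq_iff_im]
  have h1 : (z ^ 2).im = 0 := by rw [h, Complex.ofReal_im]
  have h2 : (z ^ 2).re = r := by rw [h, Complex.ofReal_re]
  rw [pow_two, Complex.mul_im] at h1
  rw [pow_two, Complex.mul_re] at h2
  have h3 : z.re * z.im = 0 := by linarith
  rcases mul_eq_zero.mp h3 with h4 | h4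
  · rw [h4] at h2
    nlinarith [sq_nonneg z.im]
  · exact h4

section

variable {L : Type} [Field L] [NumberField L] [Algebra H L] [Algebra K L]
    [IsScalarTower K H L] [IsGalois K L]

/-- an embedding of `L` over `φ` -/
theorem exists_ext (φ : H →+* ℝ) : ∃ ψ : L →+* ℂ, ∀ x : H, ψ (algebraMap H L x) = ((φ x : ℝ) : ℂ) := by
  let _ : Algebra H ℂ := (toC φ).toAlgebra
  have : Algebra.IsAlgebraic H L := Algebra.IsAlgebraic.of_finite H L
  let ψ : L →ₐ[H] ℂ := IsAlgClosed.lift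
  exact ⟨ψ.toRingHom, fun x => ψ.commutes x⟩

/-- the signs of the conjugates -/
theorem sign_all (φ : H →+* ℝ) (res : (L ≃ₐ[K] L) →* G) (hsurj : Function.Surjective res)
    (hres : ∀ (g : L ≃ₐ[K] L) (x : H), g (algebraMap H L x) = algebraMap H L (res g • x))
    (u : Hˣ) (y : Lˣ) (hy : y ^ 2 = inj H L u) (htop : cen (L ≃ₐ[K] L) (y : L) = ⊤)
    (hu : 0 < φ (u : H)) (ρ : G) : 0 < φ (ρ • (u : H)) := by
  obtain ⟨ψ, hψ⟩ := exists_ext (L := L) φ
  obtain ⟨c, hc⟩ := ComplexEmbedding.exists_comp_symm_eq_of_comp_eq (k := K) ψ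
    ((starRingEnd ℂ).comp ψ) (by
      ext x
      have h1 : ψ (algebraMap K L x) = ((φ (algebraMap K H x) : ℝ) : ℂ) := by
        rw [← hψ, ← IsScalarTower.algebraMap_apply]
      change ψ (algebraMap K L x) = (starRingEnd ℂ) (ψ (algebraMap K L x))
      rw [h1, Complex.conj_ofReal])
  have hc' : ∀ x : L, ψ (c.symm x) = (starRingEnd ℂ) (ψ x) := fun x => RingHom.congr_fun hc x
  have hy2 : (y : L) ^ 2 = algebraMap H L (u : H) := by
    rw [← Units.val_pow_eq_pow_val, hy, inj_val]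
  have hcy : c.symm (y : L) = (y : L) := by
    apply ψ.injective
    rw [hc']
    refine real_of_sq _ (φ (u : H)) hu ?_
    rw [← map_pow, hy2, hψ]
  obtain ⟨k, hk⟩ := hsurj ρ
  have hcy' : (c.symm : L ≃ₐ[K] L) (k (y : L)) = k (y : L) := by
    have h1 : c.symm ∈ cen (L ≃ₐ[K] L) (y : L) := by rw [htop]; exact Subgroup.mem_top _
    have h2 := mem_cen.1 h1 k
    change k (c.symm (y : L)) = c.symm (k (y : L)) at h2
    rw [← h2, hcy]
  have hreal : (starRingEnd ℂ) (ψ (k (y : L))) = ψ (k (y : L)) := by rw [← hc', hcy']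
  obtain ⟨r, hr⟩ := Complex.conj_eq_iff_real.1 hreal
  have h3 : (ψ (k (y : L))) ^ 2 = ((φ (ρ • (u : H)) : ℝ) : ℂ) := by
    rw [← map_pow, ← map_pow, hy2, hres, hk, hψ]
  rw [hr] at h3
  have h4 : r ^ 2 = φ (ρ • (u : H)) := by exact_mod_cast h3
  rw [← h4]
  refine lt_of_le_of_ne (sq_nonneg r) ?_
  intro h5
  rw [h4] at h5
  have h6 : φ ((act ρ u : Hˣ) : H) ≠ 0 := (map_ne_zero φ).2 (act ρ u).ne_zero
  exact h6 h5.symm

theorem cen_smul {y : Lˣ} (htop : cen (L ≃ₐ[K] L) (y : L) = ⊤) (k : L ≃ₐ[K] L) :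
    cen (L ≃ₐ[K] L) ((um k y : Lˣ) : L) = ⊤ := by
  rw [eq_top_iff]
  intro a _
  have ha : a ∈ cen (L ≃ₐ[K] L) (y : L) := by rw [htop]; exact Subgroup.mem_top _
  rw [mem_cen]
  intro g
  exact cen_orbit (mem_cen.1 ha) g k

end

variable [hG : IsGaloisGroup G K H]

/-- the root and all its twists by roots of unity -/
theorem root_of_top {L : Type} [Field L] [NumberField L] [Algebra H L] [Algebra K L]
    [IsScalarTower K H L] [IsGalois K L] (z : G → ℂ) (w₀ : InfinitePlace H) (u : Hˣ) (m : ℕ)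
    (hm : 0 < m) (hu : u ∈ uo K w₀)
    (hz : ∀ ρ : G, (m : ℂ) * z ρ = -(logAbs w₀ (ρ • (u : H)) : ℂ))
    (y : Lˣ) (hy : y ^ m = inj H L u) (θ : Lˣ)
    (hθ : orderOf θ = m * Units.torsionOrder H * Units.torsionOrder H)
    (htop : cen (L ≃ₐ[K] L) (y : L) = ⊤) :
    ∃ u' : Hˣ, u' ∈ uo K w₀ ∧
      (∀ ρ : G, z ρ = -(1 / (Units.torsionOrder H : ℂ)) * (logAbs w₀ (ρ • (u' : H)) : ℂ)) ∧
      ∀ t : Hˣ, t ^ (Units.torsionOrder H) = 1 → ∃ y' : Lˣ,
        y' ^ (Units.torsionOrder H) = inj H L (u' * t) ∧ cen (L ≃ₐ[K] L) (y' : L) = ⊤ := by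
  obtain ⟨res, hsurj, hres⟩ := exists_res' K H L G
  set e := Units.torsionOrder H with he
  have he0 : 0 < e := Units.torsionOrder_pos H
  have hc : ∀ a b : L ≃ₐ[K] L, um a (um b y) = um b (um a y) := by
    intro a b
    have h1 : b ∈ cen (L ≃ₐ[K] L) (y : L) := by rw [htop]; exact Subgroup.mem_top _
    exact (mem_cen_iff y b).1 h1 a
  obtain ⟨u', ζ, hζ, hu'⟩ := exists_in_H res hres u m hm y hy hc
  rw [← he] at hu'
  have hpow : u' ^ m = u ^ e := by
    apply inj_injective (H := H) (L := L)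
    rw [map_pow, hu', mul_pow, hζ, mul_one, ← pow_mul, mul_comm e m, pow_mul, hy, map_pow]
  refine ⟨u', ?_, fun ρ => ?_, fun t ht => ?_⟩
  · refine uo_of_pow hm ?_
    rw [hpow]
    exact (uo K w₀).pow_mem hu e
  · have h1 := la_pow w₀ ρ u' m
    rw [hpow, la_pow] at h1
    have h2 : ((e * logAbs w₀ (ρ • (u : H)) : ℝ) : ℂ) =
        ((m * logAbs w₀ (ρ • (u' : H)) : ℝ) : ℂ) := by rw [h1]
    push_cast at h2
    have h3 := hz ρ
    have hm' : (m : ℂ) ≠ 0 := by exact_mod_cast hm.ne'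
    have he' : (e : ℂ) ≠ 0 := by exact_mod_cast he0.ne'
    apply mul_left_cancel₀ (mul_ne_zero hm' he')
    have e1 : (m : ℂ) * e * (-(1 / (e : ℂ)) * (logAbs w₀ (ρ • (u' : H)) : ℂ)) =
        -(m * (logAbs w₀ (ρ • (u' : H)) : ℂ)) := by
      field_simp
    rw [e1, ← h2]
    linear_combination (e : ℂ) * h3
  · -- an `e`-th root of `ζ * t`
    have hme : 0 < m * e := Nat.mul_pos hm he0
    obtain ⟨ξ, hξ1, hξ2⟩ : ∃ ξ : Lˣ, ξ ^ e = ζ * inj H L t ∧ IsOfFinOrder ξ := by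
      have h1 : IsPrimitiveRoot θ (m * e * e) := by rw [← hθ]; exact IsPrimitiveRoot.orderOf θ
      have h2 : IsPrimitiveRoot (θ ^ e) (m * e) :=
        h1.pow (Nat.mul_pos hme he0) (mul_comm (m * e) e)
      have h3 : IsPrimitiveRoot ((θ ^ e : Lˣ) : L) (m * e) := (IsPrimitiveRoot.coe_units_iff).2 h2
      have : NeZero (m * e) := ⟨hme.ne'⟩
      obtain ⟨i, -, hi⟩ := h3.eq_pow_of_pow_eq_one (ξ := ((ζ * inj H L t : Lˣ) : L)) (by
        rw [← Units.val_pow_eq_pow_val, mul_pow, pow_mul ζ, hζ, one_pow, one_mul, ← map_pow,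
          mul_comm m e, pow_mul, ht, one_pow, map_one, Units.val_one])
      refine ⟨θ ^ i, ?_, ?_⟩
      · rw [← pow_mul, mul_comm, pow_mul]
        exact Units.ext (by rw [Units.val_pow_eq_pow_val, hi])
      · exact (isOfFinOrder_iff_pow_eq_one.2 ⟨m * e * e, Nat.mul_pos hme he0, h1.pow_eq_one⟩).pow
    obtain ⟨η, hη⟩ := exists_gen L
    refine ⟨y * ξ, ?_, ?_⟩
    · rw [mul_pow, hξ1, map_mul, hu', mul_assoc]
    · rw [eq_top_iff]
      intro a _
      rw [mem_cen_iff]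
      intro k
      obtain ⟨i, hi⟩ := exists_kappa η hη a
      obtain ⟨j, hj⟩ := exists_kappa η hη k
      rw [map_mul, map_mul, map_mul, map_mul, hc k a, hi ξ hξ2, hj ξ hξ2, map_pow, map_pow,
        hi ξ hξ2, hj ξ hξ2, ← pow_mul, ← pow_mul, mul_comm i j]

/-- Stark's conjecture for `z` gives a field and a root with commuting conjugates -/
theorem exists_top (z : G → ℂ) (w₀ : InfinitePlace H) (bad₀ : Finset (HeightOneSpectrum (𝓞 K)))
    (hsq : ∀ v : HeightOneSpectrum (𝓞 K), v ∉ bad₀ →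
      Squarefree (v.asIdeal.map (algebraMap (𝓞 K) (𝓞 H))))
    (σ : HeightOneSpectrum (𝓞 K) → G)
    (hσ : ∀ v : HeightOneSpectrum (𝓞 K), v ∉ bad₀ → IsFrob (H := H) v (σ v))
    (h : SK K z w₀) :
    ∃ (L : Type) (_ : Field L) (_ : NumberField L) (_ : Algebra H L) (_ : Algebra K L)
      (_ : IsScalarTower K H L) (_ : IsGalois K L) (u' : Hˣ), u' ∈ uo K w₀ ∧
      (∀ ρ : G, z ρ = -(1 / (Units.torsionOrder H : ℂ)) * (logAbs w₀ (ρ • (u' : H)) : ℂ)) ∧
      ∀ t : Hˣ, t ^ (Units.torsionOrder H) = 1 → ∃ y' : Lˣ,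
        y' ^ (Units.torsionOrder H) = inj H L (u' * t) ∧ cen (L ≃ₐ[K] L) (y' : L) = ⊤ := by
  classical
  obtain ⟨u, m, hm, hu, hz⟩ := rat_of_sk z w₀ h
  have he0 := Units.torsionOrder_pos H
  obtain ⟨L, i1, i2, i3, i4, i5, hgal, ⟨θ, hθ⟩, hroot⟩ := exists_field K H m
    (m * Units.torsionOrder H * Units.torsionOrder H) hm
    (Nat.mul_pos (Nat.mul_pos hm he0) he0) {u}
  obtain ⟨y, hy⟩ := hroot u (Subgroup.subset_closure (by simp))
  obtain ⟨fin, hfin⟩ := exists_bad (K := K) L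
  have hR : ∀ v : HeightOneSpectrum (𝓞 K), v ∉ fin ∪ bad₀ → ∀ (Q : HeightOneSpectrum (𝓞 L))
      (g : L ≃ₐ[K] L), FrobAt v Q g →
      (TS K z w₀ (σ v) v ↔ g ∈ cen (L ≃ₐ[K] L) (y : L)) := by
    intro v hv Q g hg
    rw [Finset.mem_union, not_or] at hv
    exact ts_iff z w₀ u m hm hu hz y hy (Units.torsionOrder L) (fun ξ hξ => root_pow ξ hξ) v
      (hsq v hv.2) (σ v) (hσ v hv.2) Q g hg (hfin v hv.1 Q hg.1)
  obtain ⟨fin', hfin'⟩ := ts_of_sk z w₀ bad₀ hsq σ hσ h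
  have htop := top_iff hR fin' hfin'
  exact ⟨L, i1, i2, i3, i4, i5, hgal, root_of_top z w₀ u m hm hu hz y hy θ hθ htop⟩

end Pool.Agent.J6H32.SR
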